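import Mathlib
import Pool.Agent.Lib.MatrixWeyl.Mono
import Pool.Agent.MP_7cfdbb_an.Defs

-- part MP_7cfdbb_an.Det
section

/-! Determinant inequalities of Fischer and Hadamard; positivity of the Bergman kernel. -/

namespace Pool.Agent.MP_7cfdbb_an

open Matrix
open scoped ComplexOrder

theorem det_re_eq {n : Type*} [Fintype n] [DecidableEq n] {A : Matrix n n ℂ}
    (hA : A.IsHermitian) : A.det.re = ∏ i, hA.eigenvalues i := by
  rw [hA.det_eq_prod_eigenvalues]
  have : (∏ i, ((hA.eigenvalues i : ℝ) : ℂ)) = ((∏ i, hA.eigenvalues i : ℝ) : ℂ) := by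
    push_cast; rfl
  exact (congrArg Complex.re this).trans (Complex.ofReal_re _)

theorem det_im_eq {n : Type*} [Fintype n] [DecidableEq n] {A : Matrix n n ℂ}
    (hA : A.IsHermitian) : A.det.im = 0 := by
  rw [hA.det_eq_prod_eigenvalues]
  have : (∏ i, ((hA.eigenvalues i : ℝ) : ℂ)) = ((∏ i, hA.eigenvalues i : ℝ) : ℂ) := by
    push_cast; rfl
  exact (congrArg Complex.im this).trans (Complex.ofReal_im _)

theorem det_re_nonneg {n : Type*} [Fintype n] [DecidableEq n] {A : Matrix n n ℂ}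
    (hA : A.PosSemidef) : 0 ≤ A.det.re := by
  rw [det_re_eq hA.1]
  exact Finset.prod_nonneg fun i _ => hA.eigenvalues_nonneg i

theorem det_mono {n : Type*} [Fintype n] [DecidableEq n] {S C : Matrix n n ℂ}
    (hS : S.PosSemidef) (hC : C.IsHermitian) (h : (C - S).PosSemidef) : S.det.re ≤ C.det.re := by
  rw [det_re_eq hS.1, det_re_eq hC]
  exact Finset.prod_le_prod (fun i _ => hS.eigenvalues_nonneg i)
    (fun i _ => Pool.Agent.Lib.MatrixWeyl.eigenvalues_mono hS.1 hC h i)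

/-- Fischer's inequality. -/
theorem fischer {ι κ : Type*} [Fintype ι] [DecidableEq ι] [Fintype κ] [DecidableEq κ]
    {M : Matrix (ι ⊕ κ) (ι ⊕ κ) ℂ} (hM : M.PosSemidef) :
    M.det.re ≤ (M.submatrix Sum.inl Sum.inl).det.re * (M.submatrix Sum.inr Sum.inr).det.re := by
  set A := M.submatrix Sum.inl Sum.inl with hA
  set D := M.submatrix Sum.inr Sum.inr with hD
  set B := M.submatrix Sum.inl Sum.inr with hB
  have hAp : A.PosSemidef := hM.submatrix _
  have hDp : D.PosSemidef := hM.submatrix _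
  have hMeq : M = fromBlocks A B Bᴴ D := by
    ext i j
    rcases i with i | i <;> rcases j with j | j
    · rfl
    · rfl
    · have := hM.1.apply (Sum.inr i) (Sum.inl j)
      simp only [fromBlocks_apply₂₁, conjTranspose_apply, hB, submatrix_apply]
      exact this.symm
    · rfl
  by_cases hdet : A.det = 0
  · obtain ⟨v, hv0, hv⟩ := Matrix.exists_mulVec_eq_zero_iff.mpr hdet
    have h0 : M.det = 0 := by
      apply Matrix.exists_mulVec_eq_zero_iff.mp
      refine ⟨Sum.elim v 0, ?_, ?_⟩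
      · intro h
        apply hv0
        funext i
        exact congrFun h (Sum.inl i)
      · rw [← hM.dotProduct_mulVec_zero_iff, hMeq, fromBlocks_mulVec]
        simp [hv, Function.star_sumElim, sumElim_dotProduct_sumElim]
    rw [h0, hdet]
    simp
  · have hApd : A.PosDef := hAp.posDef_iff_det_ne_zero.mpr hdet
    let _ : Invertible A := hApd.isUnit.invertible
    have hS : (D - Bᴴ * A⁻¹ * B).PosSemidef := by
      rw [← PosDef.fromBlocks₁₁ B D hApd, ← hMeq]; exact hM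
    have h1 : M.det = A.det * (D - Bᴴ * A⁻¹ * B).det := by
      conv_lhs => rw [hMeq]
      rw [det_fromBlocks₁₁, invOf_eq_nonsing_inv]
    have h2 : (D - Bᴴ * A⁻¹ * B).det.re ≤ D.det.re := by
      refine det_mono hS hDp.1 ?_
      rw [sub_sub_cancel]
      exact hAp.inv.conjTranspose_mul_mul_same B
    rw [h1, Complex.mul_re, det_im_eq hAp.1, zero_mul, sub_zero]
    exact mul_le_mul_of_nonneg_left h2 (det_re_nonneg hAp)

/-- Hadamard's inequality. -/
theorem hadamard (n : ℕ) : ∀ {M : Matrix (Fin n) (Fin n) ℂ}, M.PosSemidef →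
    M.det.re ≤ ∏ i, (M i i).re := by
  induction n with
  | zero => intro M _; simp
  | succ n ih =>
    intro M hM
    let e : Fin n ⊕ Fin 1 ≃ Fin (n + 1) := finSumFinEquiv
    have h1 := fischer (hM.submatrix e)
    rw [det_submatrix_equiv_self] at h1
    have h2 := ih ((hM.submatrix e).submatrix Sum.inl)
    refine h1.trans ?_
    rw [Fin.prod_univ_castSucc]
    have h3 : ((M.submatrix e e).submatrix Sum.inr Sum.inr).det = M (Fin.last n) (Fin.last n) := by
      rw [det_fin_one]; rfl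
    rw [h3]
    refine mul_le_mul_of_nonneg_right h2 ?_
    exact (Complex.le_def.mp (hM.diag_nonneg (i := Fin.last n))).1

/-- Truncated kernel. -/
noncomputable def KN (N : ℕ) (x y : ℂ) : ℂ :=
  ∑ a ∈ Finset.range N, ((a : ℂ) + 1) * (x * (starRingEnd ℂ) y) ^ a

theorem KN_psd {ι : Type*} [Fintype ι] (N : ℕ) (a : ι → ℂ) :
    (Matrix.of fun i j => KN N (a i) (a j)).PosSemidef := by
  have : (Matrix.of fun i j => KN N (a i) (a j)) =
      ∑ k ∈ Finset.range N, ((k : ℂ) + 1) • vecMulVec (fun i => a i ^ k) (star fun i => a i ^ k) := by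
    ext i j
    simp [KN, Matrix.sum_apply, vecMulVec_apply, mul_pow]
  rw [this]
  refine posSemidef_sum _ fun k _ => ?_
  refine (posSemidef_vecMulVec_self_star _).smul ?_
  have : ((k : ℂ) + 1) = (((k : ℝ) + 1 : ℝ) : ℂ) := by push_cast; rfl
  rw [this]
  exact Complex.zero_le_real.mpr (by positivity)

theorem hasSum_K {u : ℂ} (hu : ‖u‖ < 1) :
    HasSum (fun a : ℕ => ((a : ℂ) + 1) * u ^ a) (((1 - u) ^ 2)⁻¹) := by
  have h1 := hasSum_coe_mul_geometric_of_norm_lt_one hu
  have h2 := hasSum_geometric_of_norm_lt_one hu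
  have h3 := h1.add h2
  have hne : (1 - u) ≠ 0 := by
    intro h
    have : u = 1 := by linear_combination -h
    rw [this] at hu; simp at hu
  have e : u / (1 - u) ^ 2 + (1 - u)⁻¹ = ((1 - u) ^ 2)⁻¹ := by field_simp; ring
  rw [e] at h3
  refine h3.congr_fun ?_ |> id
  intro a; ring

theorem norm_mul_conj_lt {x y : ℂ} (hx : ‖x‖ < 1) (hy : ‖y‖ < 1) :
    ‖x * (starRingEnd ℂ) y‖ < 1 := by
  rw [norm_mul, Complex.norm_conj]
  nlinarith [norm_nonneg x, norm_nonneg y]

theorem tendsto_KN {x y : ℂ} (hx : ‖x‖ < 1) (hy : ‖y‖ < 1) :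
    Filter.Tendsto (fun N => KN N x y) Filter.atTop (nhds (K x y)) :=
  (hasSum_K (norm_mul_conj_lt hx hy)).tendsto_sum_nat

theorem K_psd {ι : Type*} [Fintype ι] (a : ι → ℂ) (ha : ∀ i, ‖a i‖ < 1) :
    (Matrix.of fun i j => K (a i) (a j)).PosSemidef := by
  refine PosSemidef.of_dotProduct_mulVec_nonneg ?_ fun x => ?_
  · ext i j
    simp [K, conjTranspose_apply, mul_comm]
  · have h : Filter.Tendsto
        (fun N => star x ⬝ᵥ ((Matrix.of fun i j => KN N (a i) (a j)) *ᵥ x)) Filter.atTop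
        (nhds (star x ⬝ᵥ ((Matrix.of fun i j => K (a i) (a j)) *ᵥ x))) := by
      simp only [dotProduct, mulVec, of_apply]
      refine tendsto_finsetSum _ fun i _ => Filter.Tendsto.const_mul _ ?_
      exact tendsto_finsetSum _ fun j _ => (tendsto_KN (ha i) (ha j)).mul_const _
    exact ge_of_tendsto' h fun N => (KN_psd N a).dotProduct_mulVec_nonneg x

/-- The correlation function. -/
noncomputable def rho {ι : Type*} [Fintype ι] [DecidableEq ι] (a : ι → ℂ) : ℝ :=
  (Matrix.det (Matrix.of fun i j => K (a i) (a j))).re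

/-- The one point correlation function. -/
noncomputable def rho1 (u : ℂ) : ℝ := ((1 - ‖u‖ ^ 2) ^ 2)⁻¹

theorem K_diag (u : ℂ) : K u u = (rho1 u : ℂ) := by
  simp only [K, rho1, Complex.mul_conj, Complex.normSq_eq_norm_sq]
  push_cast; rfl

theorem rho1_nonneg (u : ℂ) : 0 ≤ rho1 u := by unfold rho1; positivity

theorem rho_nonneg {ι : Type*} [Fintype ι] [DecidableEq ι] (a : ι → ℂ) (ha : ∀ i, ‖a i‖ < 1) :
    0 ≤ rho a := det_re_nonneg (K_psd a ha)

theorem rho_elim_le {ι κ : Type*} [Fintype ι] [DecidableEq ι] [Fintype κ] [DecidableEq κ]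
    (a : ι → ℂ) (b : κ → ℂ) (ha : ∀ i, ‖a i‖ < 1) (hb : ∀ i, ‖b i‖ < 1) :
    rho (Sum.elim a b) ≤ rho a * rho b :=
  fischer (K_psd (Sum.elim a b) (by rintro (i | i); exacts [ha i, hb i]))

theorem rho_le_prod {n : ℕ} (a : Fin n → ℂ) (ha : ∀ i, ‖a i‖ < 1) :
    rho a ≤ ∏ i, rho1 (a i) := by
  refine (hadamard n (K_psd a ha)).trans (le_of_eq ?_)
  refine Finset.prod_congr rfl fun i _ => ?_
  rw [of_apply, K_diag, Complex.ofReal_re]

theorem rho_comp_equiv {ι κ : Type*} [Fintype ι] [DecidableEq ι] [Fintype κ] [DecidableEq κ]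
    (e : κ ≃ ι) (a : ι → ℂ) : rho (a ∘ e) = rho a := by
  unfold rho
  rw [← det_submatrix_equiv_self e]
  rfl

theorem measurable_K2 {α : Type*} [MeasurableSpace α] {f g : α → ℂ} (hf : Measurable f)
    (hg : Measurable g) : Measurable fun a => K (f a) (g a) := by
  unfold K
  refine Measurable.inv (Measurable.pow_const ?_ _)
  exact (measurable_const.sub (hf.mul (Complex.continuous_conj.measurable.comp hg)))

theorem measurable_rho {ι : Type*} [Fintype ι] [DecidableEq ι] :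
    Measurable (rho : (ι → ℂ) → ℝ) := by
  have h : Measurable fun a : ι → ℂ => ∑ σ : Equiv.Perm ι,
      ((Equiv.Perm.sign σ : ℤ) : ℂ) * ∏ i, K (a (σ i)) (a i) := by
    refine Finset.measurable_sum _ fun σ _ => Measurable.const_mul ?_ _
    exact Finset.measurable_prod _ fun i _ =>
      measurable_K2 (measurable_pi_apply (σ i)) (measurable_pi_apply i)
  have e : (rho : (ι → ℂ) → ℝ) = fun a : ι → ℂ => (∑ σ : Equiv.Perm ι,
      ((Equiv.Perm.sign σ : ℤ) : ℂ) * ∏ i, K (a (σ i)) (a i)).re := by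
    funext a
    rw [rho, det_apply']
    rfl
  rw [e]
  exact Complex.measurable_re.comp h

theorem measurable_rho1 : Measurable rho1 := by
  unfold rho1; fun_prop

end Pool.Agent.MP_7cfdbb_an

end

-- part MP_7cfdbb_an.Tup
section

/-! Ordered tuples of distinct points of a finite set: combinatorics and measurability. -/

namespace Pool.Agent.MP_7cfdbb_an

open MeasureTheory Finset
open scoped ENNReal

section Comb

variable {α : Type*} {ι κ : Type*} [Fintype ι] [DecidableEq ι] [Fintype κ] [DecidableEq κ]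

open Classical in
/-- Injective tuples with values in `S`. -/
noncomputable def tup (ι : Type*) [Fintype ι] [DecidableEq ι] (S : Finset α) : Finset (ι → α) :=
  (Fintype.piFinset fun _ => S).filter Function.Injective

theorem mem_tup {S : Finset α} {a : ι → α} :
    a ∈ tup ι S ↔ (∀ i, a i ∈ S) ∧ Function.Injective a := by
  classical
  simp [tup]

theorem sum_tup_sum [DecidableEq α] {R : Type*} [AddCommMonoid R] (S : Finset α)
    (F : (ι → α) → (κ → α) → R) :
    ∑ c ∈ tup (ι ⊕ κ) S, F (c ∘ Sum.inl) (c ∘ Sum.inr) =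
      ∑ a ∈ tup ι S, ∑ b ∈ tup κ (S \ univ.image a), F a b := by
  rw [Finset.sum_sigma']
  refine Finset.sum_bij' (fun c _ => ⟨c ∘ Sum.inl, c ∘ Sum.inr⟩)
    (fun p _ => Sum.elim p.1 p.2) ?_ ?_ ?_ ?_ ?_
  · intro c hc
    rw [mem_tup] at hc
    simp only [mem_sigma, mem_tup, Function.comp_apply, mem_sdiff, mem_image, mem_univ, true_and,
      not_exists]
    refine ⟨⟨fun i => hc.1 _, hc.2.comp Sum.inl_injective⟩, fun i => ⟨hc.1 _, fun j h => ?_⟩,
      hc.2.comp Sum.inr_injective⟩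
    exact Sum.inl_ne_inr (hc.2 h)
  · rintro ⟨a, b⟩ hp
    simp only [mem_sigma, mem_tup, mem_sdiff, mem_image, mem_univ, true_and, not_exists] at hp
    rw [mem_tup]
    refine ⟨?_, ?_⟩
    · rintro (i | i)
      exacts [hp.1.1 i, (hp.2.1 i).1]
    · exact hp.1.2.sumElim hp.2.2 fun i j h => (hp.2.1 j).2 i h
  · intro c _
    exact Sum.elim_comp_inl_inr c
  · rintro ⟨a, b⟩ _
    simp
  · intro c _
    rfl

theorem sum_tup_equiv {R : Type*} [AddCommMonoid R] (S : Finset α) (e : κ ≃ ι)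
    (F : (κ → α) → R) : ∑ a ∈ tup ι S, F (a ∘ e) = ∑ b ∈ tup κ S, F b := by
  refine Finset.sum_bij' (fun a _ => a ∘ e) (fun b _ => b ∘ e.symm) ?_ ?_ ?_ ?_ ?_
  · intro a ha
    rw [mem_tup] at ha ⊢
    exact ⟨fun i => ha.1 _, ha.2.comp e.injective⟩
  · intro a ha
    rw [mem_tup] at ha ⊢
    exact ⟨fun i => ha.1 _, ha.2.comp e.symm.injective⟩
  · intro a _
    funext i; simp
  · intro a _
    funext i; simp
  · intro a _
    rfl

theorem card_tup (S : Finset α) : (tup ι S).card = S.card.descFactorial (Fintype.card ι) := by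
  classical
  have h := Fintype.card_embedding_eq (α := ι) (β := S)
  rw [Fintype.card_coe] at h
  rw [← h, ← Finset.card_univ]
  symm
  refine Finset.card_bij (fun f _ => fun i => (f i : α)) ?_ ?_ ?_
  · intro f _
    rw [mem_tup]
    exact ⟨fun i => (f i).2, Subtype.val_injective.comp f.injective⟩
  · intro f _ g _ h
    ext i
    exact congrFun h i
  · intro a ha
    rw [mem_tup] at ha
    exact ⟨⟨fun i => ⟨a i, ha.1 i⟩, fun i j h => ha.2 (congrArg Subtype.val h)⟩, mem_univ _, rfl⟩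

theorem sum_tup_prod {R : Type*} [CommSemiring R] (S : Finset α) (n : ℕ) (g : α → R) :
    ∑ a ∈ tup (Fin n) S, ∏ i, g (a i) =
      (n.factorial : R) * ∑ T ∈ S.powersetCard n, ∏ x ∈ T, g x := by
  classical
  rw [← Finset.sum_fiberwise_of_maps_to (s := tup (Fin n) S) (t := S.powersetCard n)
    (g := fun a => univ.image a), Finset.mul_sum]
  · refine Finset.sum_congr rfl fun T hT => ?_
    rw [mem_powersetCard] at hT
    have h1 : (tup (Fin n) S).filter (fun a => univ.image a = T) = tup (Fin n) T := by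
      ext a
      simp only [mem_filter, mem_tup]
      constructor
      · rintro ⟨⟨_, h2⟩, h3⟩
        exact ⟨fun i => h3 ▸ mem_image_of_mem _ (mem_univ i), h2⟩
      · rintro ⟨h1, h2⟩
        refine ⟨⟨fun i => hT.1 (h1 i), h2⟩, ?_⟩
        refine Finset.eq_of_subset_of_card_le ?_ ?_
        · intro x hx
          obtain ⟨i, _, rfl⟩ := mem_image.mp hx
          exact h1 i
        · rw [card_image_of_injective _ h2, hT.2]; simp
    rw [Finset.sum_congr rfl (g := fun _ => ∏ x ∈ T, g x), h1, sum_const, card_tup, hT.2]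
    · simp [Nat.descFactorial_self]
    · intro a ha
      rw [mem_filter, mem_tup] at ha
      rw [← ha.2, prod_image fun i _ j _ h => ha.1.2 h]
  · intro a ha
    rw [mem_tup] at ha
    rw [mem_powersetCard]
    refine ⟨?_, ?_⟩
    · intro x hx
      obtain ⟨i, _, rfl⟩ := mem_image.mp hx
      exact ha.1 i
    · rw [card_image_of_injective _ ha.2]; simp

theorem prod_one_add_eq {R : Type*} [CommSemiring R] (S : Finset α) (g : α → R) :
    ∏ x ∈ S, (1 + g x) = ∑ n ∈ range (S.card + 1), ∑ T ∈ S.powersetCard n, ∏ x ∈ T, g x := by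
  classical
  rw [Finset.prod_one_add, Finset.sum_powerset]

theorem prod_one_add_ennreal (S : Finset α) (g : α → ℝ≥0∞) :
    ∏ x ∈ S, (1 + g x) =
      ∑' n : ℕ, (n.factorial : ℝ≥0∞)⁻¹ * ∑ a ∈ tup (Fin n) S, ∏ i, g (a i) := by
  rw [prod_one_add_eq, tsum_eq_sum (s := range (S.card + 1))]
  · refine Finset.sum_congr rfl fun n _ => ?_
    rw [sum_tup_prod, ← mul_assoc, ENNReal.inv_mul_cancel, one_mul]
    · exact_mod_cast n.factorial_ne_zero
    · exact ENNReal.natCast_ne_top _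
  · intro n hn
    rw [sum_tup_prod, powersetCard_eq_empty.mpr (by simpa using hn)]
    simp

theorem hasSum_prod_one_add (S : Finset α) (g : α → ℝ) :
    HasSum (fun n : ℕ => (n.factorial : ℝ)⁻¹ * ∑ a ∈ tup (Fin n) S, ∏ i, g (a i))
      (∏ x ∈ S, (1 + g x)) := by
  rw [prod_one_add_eq]
  have h : ∀ n : ℕ, (n.factorial : ℝ)⁻¹ * ∑ a ∈ tup (Fin n) S, ∏ i, g (a i) =
      ∑ T ∈ S.powersetCard n, ∏ x ∈ T, g x := by
    intro n
    rw [sum_tup_prod, ← mul_assoc, inv_mul_cancel₀, one_mul]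
    exact_mod_cast n.factorial_ne_zero
  simp only [h]
  refine hasSum_sum_of_ne_finset_zero fun n hn => ?_
  rw [powersetCard_eq_empty.mpr (by simpa using hn)]
  simp

theorem prod_eq_tsum_ennreal (S : Finset α) (g : α → ℝ≥0∞) :
    ∏ x ∈ S, g x = ∑' n : ℕ, (if (S.card : ℝ≥0∞) = n then 1 else 0) *
      ((n.factorial : ℝ≥0∞)⁻¹ * ∑ a ∈ tup (Fin n) S, ∏ i, g (a i)) := by
  rw [tsum_eq_single S.card]
  · rw [if_pos rfl, one_mul, sum_tup_prod, ← mul_assoc, ENNReal.inv_mul_cancel, one_mul,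
      powersetCard_self, sum_singleton]
    · exact_mod_cast S.card.factorial_ne_zero
    · exact ENNReal.natCast_ne_top _
  · intro n hn
    rw [if_neg, zero_mul]
    intro h
    exact hn (by exact_mod_cast h.symm)

end Comb

section Meas

variable {β : Type*} [MeasurableSpace β]

/-- Counting measure on a finite set. -/
noncomputable def cnt (T : Finset β) : Measure β := ∑ a ∈ T, Measure.dirac a

theorem lintegral_cnt [MeasurableSingletonClass β] (T : Finset β) (F : β → ℝ≥0∞) :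
    ∫⁻ a, F a ∂cnt T = ∑ a ∈ T, F a := by
  simp [cnt, lintegral_finsetSum_measure]

theorem cnt_apply [MeasurableSingletonClass β] (T : Finset β) (E : Set β) :
    cnt T E = ∑ a ∈ T, E.indicator 1 a := by
  simp [cnt, Measure.finsetSum_apply]

instance (T : Finset β) : IsFiniteMeasure (cnt T) := by
  unfold cnt; infer_instance

theorem cnt_univ [MeasurableSingletonClass β] (T : Finset β) : cnt T Set.univ = T.card := by
  simp [cnt_apply]

variable {Ω : Type*} [MeasurableSpace Ω] {S : Ω → Finset ℂ}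
  {ι : Type*} [Fintype ι] [DecidableEq ι]

theorem measurable_cnt_pi (hS : ∀ B, MeasurableSet B → Measurable fun ω => cnt (S ω) B)
    (E : Set (ι → ℂ)) (hE : MeasurableSet E) :
    Measurable fun ω => cnt (Fintype.piFinset fun _ : ι => S ω) E := by
  have hbox : ∀ t : ι → Set ℂ, (∀ i, MeasurableSet (t i)) →
      Measurable fun ω => cnt (Fintype.piFinset fun _ : ι => S ω) (Set.pi Set.univ t) := by
    intro t ht
    have : (fun ω => cnt (Fintype.piFinset fun _ : ι => S ω) (Set.pi Set.univ t)) =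
        fun ω => ∏ i, cnt (S ω) (t i) := by
      funext ω
      simp only [cnt_apply]
      rw [Finset.prod_univ_sum]
      refine Finset.sum_congr rfl fun a _ => ?_
      by_cases h : a ∈ Set.pi Set.univ t
      · rw [Set.indicator_of_mem h]
        symm
        refine Finset.prod_eq_one fun i _ => ?_
        rw [Set.indicator_of_mem (h i trivial)]; rfl
      · rw [Set.indicator_of_notMem h]
        simp only [Set.mem_pi, Set.mem_univ, forall_const, not_forall] at h
        obtain ⟨i, hi⟩ := h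
        symm
        exact Finset.prod_eq_zero (mem_univ i) (Set.indicator_of_notMem hi _)
    rw [this]
    exact Finset.measurable_prod _ fun i _ => hS _ (ht i)
  refine MeasurableSpace.induction_on_inter
    (C := fun E _ => Measurable fun ω => cnt (Fintype.piFinset fun _ : ι => S ω) E)
    generateFrom_pi.symm isPiSystem_pi ?_ ?_ ?_ ?_ E hE
  · simp
  · intro t ht
    obtain ⟨t, ht, rfl⟩ := ht
    exact hbox t fun i => ht i trivial
  · intro t htm iht
    have : (fun ω => cnt (Fintype.piFinset fun _ : ι => S ω) tᶜ) =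
        fun ω => cnt (Fintype.piFinset fun _ : ι => S ω) (Set.pi Set.univ fun _ => Set.univ) -
          cnt (Fintype.piFinset fun _ : ι => S ω) t := by
      funext ω
      rw [measure_compl htm (measure_ne_top _ _), Set.pi_univ]
    rw [this]
    exact (hbox _ fun _ => MeasurableSet.univ).sub iht
  · intro f hd hfm ihf
    simp only [measure_iUnion hd hfm]
    exact Measurable.tsum ihf

omit [DecidableEq ι] in
theorem measurableSet_injective : MeasurableSet {a : ι → ℂ | Function.Injective a} := by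
  have : {a : ι → ℂ | Function.Injective a} = ⋂ i, ⋂ j, ⋂ (_ : i ≠ j), {a | a i = a j}ᶜ := by
    ext a
    simp only [Set.mem_ofPred_eq, Set.mem_iInter, Set.mem_compl_iff]
    exact ⟨fun h i j hij h' => hij (h h'), fun h i j h' => by_contra fun hij => h i j hij h'⟩
  rw [this]
  refine MeasurableSet.iInter fun i => MeasurableSet.iInter fun j => MeasurableSet.iInter fun _ => ?_
  exact (measurableSet_eq_fun (measurable_pi_apply i) (measurable_pi_apply j)).compl

theorem measurable_cnt_tup (hS : ∀ B, MeasurableSet B → Measurable fun ω => cnt (S ω) B) :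
    Measurable fun ω => cnt (tup ι (S ω)) := by
  refine Measure.measurable_of_measurable_coe _ fun E hE => ?_
  have : (fun ω => cnt (tup ι (S ω)) E) = fun ω => cnt (Fintype.piFinset fun _ : ι => S ω)
      (E ∩ {a | Function.Injective a}) := by
    funext ω
    simp only [cnt_apply, tup, Finset.sum_filter]
    refine Finset.sum_congr rfl fun a _ => ?_
    by_cases h : Function.Injective a <;> by_cases h' : a ∈ E <;> simp [h, h']
  rw [this]
  exact measurable_cnt_pi hS _ (hE.inter measurableSet_injective)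

/-- Joint measurability of sums over tuples. -/
theorem measurable_sum_tup (hS : ∀ B, MeasurableSet B → Measurable fun ω => cnt (S ω) B)
    {F : Ω × (ι → ℂ) → ℝ≥0∞} (hF : Measurable F) :
    Measurable fun ω => ∑ a ∈ tup ι (S ω), F (ω, a) := by
  let k : ProbabilityTheory.Kernel Ω (ι → ℂ) := ⟨fun ω => cnt (tup ι (S ω)), measurable_cnt_tup hS⟩
  simp only [← lintegral_cnt]
  refine Measurable.ennreal_induction
    (motive := fun F : Ω × (ι → ℂ) → ℝ≥0∞ =>
      Measurable fun ω => ∫⁻ a, F (ω, a) ∂cnt (tup ι (S ω))) ?_ ?_ ?_ hF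
  · intro c s hs
    have h1 := ProbabilityTheory.Kernel.measurable_kernel_prodMk_left_of_finite (κ := k) hs
      (fun ω => show IsFiniteMeasure (cnt _) from inferInstance)
    have : (fun ω => ∫⁻ a, s.indicator (fun _ => c) (ω, a) ∂cnt (tup ι (S ω))) =
        fun ω => c * k ω (Prod.mk ω ⁻¹' s) := by
      funext ω
      have : (fun a => s.indicator (fun _ => c) (ω, a)) =
          (Prod.mk ω ⁻¹' s).indicator fun _ => c := by
        funext a; rfl
      rw [this, lintegral_indicator_const (measurable_prodMk_left hs)]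
      rfl
    rw [this]
    exact h1.const_mul c
  · intro f g _ hf hg h1 h2
    simp only [lintegral_cnt, Pi.add_apply, Finset.sum_add_distrib] at h1 h2 ⊢
    exact h1.add h2
  · intro f hf hmono h
    have : (fun ω => ∫⁻ a, (⨆ n, f n (ω, a)) ∂cnt (tup ι (S ω))) =
        fun ω => ⨆ n, ∫⁻ a, f n (ω, a) ∂cnt (tup ι (S ω)) := by
      funext ω
      exact lintegral_iSup (f := fun n a => f n (ω, a))
        (fun n => (hf n).comp measurable_prodMk_left) (fun n m hnm a => hmono hnm _)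
    rw [this]
    exact Measurable.iSup h

/-- Joint measurability of products over the points. -/
theorem measurable_prod_pts (hS : ∀ B, MeasurableSet B → Measurable fun ω => cnt (S ω) B)
    {g : Ω × ℂ → ℝ≥0∞} (hg : Measurable g) :
    Measurable fun ω => ∏ x ∈ S ω, g (ω, x) := by
  simp only [fun ω => prod_eq_tsum_ennreal (S ω) fun x => g (ω, x)]
  refine Measurable.tsum fun n => Measurable.mul ?_ (Measurable.const_mul ?_ _)
  · have h := hS Set.univ MeasurableSet.univ
    simp only [cnt_univ] at h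
    exact Measurable.ite (measurableSet_eq_fun h measurable_const) measurable_const
      measurable_const
  · refine measurable_sum_tup hS (F := fun p => ∏ i, g (p.1, p.2 i)) ?_
    refine Finset.measurable_prod _ fun i _ => hg.comp ?_
    exact measurable_fst.prodMk ((measurable_pi_apply i).comp measurable_snd)

end Meas

end Pool.Agent.MP_7cfdbb_an

end

-- part MP_7cfdbb_an.Proc
section

/-! The process restricted to a smaller disc, and Palm type inequalities. -/

namespace Pool.Agent.MP_7cfdbb_an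

open MeasureTheory Finset
open scoped ENNReal

/-- Normalised area measure on the plane. -/
noncomputable def mu0 : Measure ℂ := (ENNReal.ofReal Real.pi)⁻¹ • volume

/-- Normalised area measure on a disc. -/
noncomputable def mr (r : ℝ) : Measure ℂ := mu0.restrict (Metric.ball 0 r)

theorem ofReal_pi_ne_zero : ENNReal.ofReal Real.pi ≠ 0 := by
  simp [Real.pi_pos]

theorem mu0_ball (c : ℂ) (R : ℝ) : mu0 (Metric.ball c R) = ENNReal.ofReal R ^ 2 := by
  rw [mu0, Measure.smul_apply, Complex.volume_ball, smul_eq_mul, mul_comm, mul_assoc]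
  have : (NNReal.pi : ℝ≥0∞) = ENNReal.ofReal Real.pi := by
    rw [← NNReal.coe_real_pi, ENNReal.ofReal_coe_nnreal]
  rw [this, ENNReal.mul_inv_cancel ofReal_pi_ne_zero ENNReal.ofReal_ne_top, mul_one]

instance (r : ℝ) : IsFiniteMeasure (mr r) :=
  ⟨by rw [mr, Measure.restrict_apply_univ, mu0_ball]; finiteness⟩

instance : SFinite mu0 := by unfold mu0; infer_instance

theorem dA_eq : dA = mr 1 := by
  rw [dA, mr, mu0, Measure.restrict_smul]

theorem ae_mr (r : ℝ) : ∀ᵐ u ∂mr r, ‖u‖ < r := by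
  filter_upwards [ae_restrict_mem (μ := mu0) (Metric.isOpen_ball (x := (0 : ℂ)) (ε := r)).measurableSet]
    with u hu
  simpa using hu

theorem ae_pi_mr {ι : Type*} [Fintype ι] (r : ℝ) :
    ∀ᵐ a ∂(Measure.pi fun _ : ι => mr r), ∀ i, ‖a i‖ < r :=
  Filter.eventually_all.2 fun i =>
    (Measure.tendsto_eval_ae_ae (μ := fun _ : ι => mr r) (i := i)).eventually (ae_mr r)

theorem lintegral_pi_prod {β : Type*} [MeasurableSpace β] (μ : Measure β) [SigmaFinite μ]
    {G : β → ℝ≥0∞} (hG : Measurable G) (n : ℕ) :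
    ∫⁻ b : Fin n → β, ∏ i, G (b i) ∂(Measure.pi fun _ => μ) = (∫⁻ u, G u ∂μ) ^ n := by
  induction n with
  | zero => simp
  | succ n ih =>
    have h := (measurePreserving_piFinSuccAbove (fun _ : Fin (n + 1) => μ) 0).symm
    rw [← h.lintegral_comp_emb (MeasurableEquiv.measurableEmbedding _)]
    simp only [MeasurableEquiv.piFinSuccAbove_symm_apply, Fin.insertNthEquiv, Fin.prod_univ_succ,
      Fin.insertNth_zero, Equiv.coe_fn_mk, Fin.cons_succ, Fin.cons_zero, cast_eq]
    have h2 : Measurable fun b : Fin n → β => ∏ i, G (b i) :=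
      Finset.measurable_prod _ fun i _ => hG.comp (measurable_pi_apply i)
    rw [lintegral_prod_mul (f := G) (g := fun b : Fin n → β => ∏ i, G (b i)) hG.aemeasurable
      h2.aemeasurable, ih, pow_succ']

theorem tsum_pow_le_exp {x : ℝ≥0∞} {c : ℝ} (hc : 0 ≤ c) (hx : x ≤ ENNReal.ofReal c) :
    ∑' n : ℕ, (n.factorial : ℝ≥0∞)⁻¹ * x ^ n ≤ ENNReal.ofReal (Real.exp c) := by
  have h := NormedSpace.expSeries_div_hasSum_exp (𝔸 := ℝ) c
  rw [← Real.exp_eq_exp_ℝ] at h
  rw [← h.tsum_eq, ENNReal.ofReal_tsum_of_nonneg (fun n => by positivity) h.summable]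
  refine ENNReal.tsum_le_tsum fun n => ?_
  rw [div_eq_inv_mul, ENNReal.ofReal_mul (by positivity), ENNReal.ofReal_inv_of_pos (by positivity),
    ENNReal.ofReal_natCast, ENNReal.ofReal_pow hc]
  gcongr

variable {Ω : Type*} [MeasurableSpace Ω]

/-- A random finite subset of the disc of radius `r` with Bergman correlation functions. -/
structure FinProc (P : Measure Ω) (r : ℝ) (S : Ω → Finset ℂ) : Prop where
  r_pos : 0 < r
  r_lt : r < 1
  sub : ∀ ω, ∀ x ∈ S ω, ‖x‖ < r
  meas : ∀ B, MeasurableSet B → Measurable fun ω => cnt (S ω) B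
  corr : ∀ (n : ℕ) (E : Set (Fin n → ℂ)), MeasurableSet E →
    ∫⁻ ω, cnt (tup (Fin n) (S ω)) E ∂P =
      ∫⁻ a in E, ENNReal.ofReal (rho a) ∂(Measure.pi fun _ => mr r)

namespace FinProc

variable {P : Measure Ω} {r : ℝ} {S : Ω → Finset ℂ} (h : FinProc P r S)
include h

theorem corr_fin (n : ℕ) {F : (Fin n → ℂ) → ℝ≥0∞} (hF : Measurable F) :
    ∫⁻ ω, ∑ a ∈ tup (Fin n) (S ω), F a ∂P =
      ∫⁻ a, ENNReal.ofReal (rho a) * F a ∂(Measure.pi fun _ => mr r) := by
  have hm : Measurable fun ω => cnt (tup (Fin n) (S ω)) := measurable_cnt_tup h.meas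
  have hr : Measurable fun a : Fin n → ℂ => ENNReal.ofReal (rho a) :=
    measurable_rho.ennreal_ofReal
  have e : P.bind (fun ω => cnt (tup (Fin n) (S ω))) =
      (Measure.pi fun _ => mr r).withDensity fun a => ENNReal.ofReal (rho a) := by
    ext E hE
    rw [Measure.bind_apply hE hm.aemeasurable, withDensity_apply _ hE, h.corr n E hE]
  simp only [← lintegral_cnt]
  rw [← Measure.lintegral_bind hm.aemeasurable hF.aemeasurable, e,
    lintegral_withDensity_eq_lintegral_mul _ hr hF]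
  rfl

theorem corr_fun {ι : Type*} [Fintype ι] [DecidableEq ι] {F : (ι → ℂ) → ℝ≥0∞}
    (hF : Measurable F) :
    ∫⁻ ω, ∑ a ∈ tup ι (S ω), F a ∂P =
      ∫⁻ a, ENNReal.ofReal (rho a) * F a ∂(Measure.pi fun _ => mr r) := by
  let e : ι ≃ Fin (Fintype.card ι) := Fintype.equivFin ι
  have hm : Measurable fun a : Fin (Fintype.card ι) → ℂ => a ∘ e :=
    measurable_pi_lambda _ fun i => measurable_pi_apply _
  simp only [← fun ω => sum_tup_equiv (S ω) e F]
  rw [h.corr_fin _ (F := fun a => F (a ∘ e)) (hF.comp hm)]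
  have hp := measurePreserving_arrowCongr' (fun _ : Fin (Fintype.card ι) => mr r)
    (fun _ : ι => mr r) e.symm (MeasurableEquiv.refl ℂ) (fun _ => MeasurePreserving.id _)
  rw [← hp.lintegral_comp_emb (MeasurableEquiv.measurableEmbedding _)]
  refine lintegral_congr fun a => ?_
  have : (MeasurableEquiv.arrowCongr' e.symm (MeasurableEquiv.refl ℂ)) a = a ∘ e := rfl
  rw [this, rho_comp_equiv]

/-- Palm type inequality. -/
theorem palm {ι κ : Type*} [Fintype ι] [DecidableEq ι] [Fintype κ] [DecidableEq κ]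
    {F : (ι → ℂ) × (κ → ℂ) → ℝ≥0∞} (hF : Measurable F) :
    ∫⁻ ω, ∑ a ∈ tup ι (S ω), ∑ b ∈ tup κ (S ω \ univ.image a), F (a, b) ∂P ≤
      ∫⁻ a, ENNReal.ofReal (rho a) * ∫⁻ b, ENNReal.ofReal (rho b) * F (a, b)
        ∂(Measure.pi fun _ => mr r) ∂(Measure.pi fun _ => mr r) := by
  simp only [← fun ω => sum_tup_sum (S ω) fun a b => F (a, b)]
  have hm : Measurable fun c : ι ⊕ κ → ℂ => (c ∘ Sum.inl, c ∘ Sum.inr) :=
    (measurable_pi_lambda _ fun i => measurable_pi_apply _).prodMk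
      (measurable_pi_lambda _ fun i => measurable_pi_apply _)
  rw [h.corr_fun (F := fun c => F (c ∘ Sum.inl, c ∘ Sum.inr)) (hF.comp hm)]
  have hp := measurePreserving_sumPiEquivProdPi (X := fun _ : ι ⊕ κ => ℂ) (fun _ => mr r)
  have hG : Measurable fun p : (ι → ℂ) × (κ → ℂ) =>
      ENNReal.ofReal (rho p.1) * (ENNReal.ofReal (rho p.2) * F p) :=
    (measurable_rho.ennreal_ofReal.comp measurable_fst).mul
      ((measurable_rho.ennreal_ofReal.comp measurable_snd).mul hF)
  calc _ ≤ ∫⁻ c : ι ⊕ κ → ℂ, ENNReal.ofReal (rho (c ∘ Sum.inl)) *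
          (ENNReal.ofReal (rho (c ∘ Sum.inr)) * F (c ∘ Sum.inl, c ∘ Sum.inr))
          ∂(Measure.pi fun _ => mr r) := by
        refine lintegral_mono_ae ?_
        filter_upwards [ae_pi_mr (ι := ι ⊕ κ) r] with c hc
        have h1 : ∀ i, ‖c i‖ < 1 := fun i => (hc i).trans h.r_lt
        have h2 := rho_elim_le (c ∘ Sum.inl) (c ∘ Sum.inr) (fun i => h1 _) (fun i => h1 _)
        rw [Sum.elim_comp_inl_inr] at h2
        rw [← mul_assoc, ← ENNReal.ofReal_mul (rho_nonneg (c ∘ Sum.inl) fun i => h1 _)]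
        gcongr
    _ = ∫⁻ p : (ι → ℂ) × (κ → ℂ), ENNReal.ofReal (rho p.1) * (ENNReal.ofReal (rho p.2) * F p)
          ∂((Measure.pi fun _ => mr r).prod (Measure.pi fun _ => mr r)) := by
        rw [← hp.lintegral_comp_emb (MeasurableEquiv.measurableEmbedding _)]
        rfl
    _ = _ := by
        rw [lintegral_prod _ hG.aemeasurable]
        refine lintegral_congr fun a => ?_
        exact lintegral_const_mul (ENNReal.ofReal (rho a))
          (f := fun b : κ → ℂ => ENNReal.ofReal (rho b) * F (a, b))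
          (measurable_rho.ennreal_ofReal.mul (hF.comp measurable_prodMk_left))

omit h in
theorem measurable_palm (hS : ∀ B, MeasurableSet B → Measurable fun ω => cnt (S ω) B)
    {ι κ : Type*} [Fintype ι] [DecidableEq ι] [Fintype κ] [DecidableEq κ]
    {F : (ι → ℂ) × (κ → ℂ) → ℝ≥0∞} (hF : Measurable F) :
    Measurable fun ω => ∑ a ∈ tup ι (S ω), ∑ b ∈ tup κ (S ω \ univ.image a), F (a, b) := by
  simp only [← fun ω => sum_tup_sum (S ω) fun a b => F (a, b)]
  have hm : Measurable fun c : Ω × (ι ⊕ κ → ℂ) => (c.2 ∘ Sum.inl, c.2 ∘ Sum.inr) :=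
    (measurable_pi_lambda _ fun i => (measurable_pi_apply _).comp measurable_snd).prodMk
      (measurable_pi_lambda _ fun i => (measurable_pi_apply _).comp measurable_snd)
  exact measurable_sum_tup hS (F := fun c => F (c.2 ∘ Sum.inl, c.2 ∘ Sum.inr)) (hF.comp hm)

omit h in
theorem palm_prod_eq {ι : Type*} [Fintype ι] [DecidableEq ι] (T : Finset ℂ)
    (ψ : (ι → ℂ) → ℝ≥0∞) (g : (ι → ℂ) × ℂ → ℝ≥0∞) :
    ∑ a ∈ tup ι T, ψ a * ∏ u ∈ T \ univ.image a, (1 + g (a, u)) =
      ∑' n : ℕ, (n.factorial : ℝ≥0∞)⁻¹ *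
        ∑ a ∈ tup ι T, ∑ b ∈ tup (Fin n) (T \ univ.image a), ψ a * ∏ i, g (a, b i) := by
  simp only [fun a => prod_one_add_ennreal (T \ univ.image a) fun u => g (a, u),
    ← ENNReal.tsum_mul_left, Finset.mul_sum]
  rw [← Summable.tsum_finsetSum fun _ _ => ENNReal.summable]
  refine tsum_congr fun n => Finset.sum_congr rfl fun a _ => Finset.sum_congr rfl fun b _ => ?_
  ring

omit h in
theorem measurable_palm_aux {ι : Type*} [Fintype ι] {ψ : (ι → ℂ) → ℝ≥0∞} (hψ : Measurable ψ)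
    {g : (ι → ℂ) × ℂ → ℝ≥0∞} (hg : Measurable g) (n : ℕ) :
    Measurable fun p : (ι → ℂ) × (Fin n → ℂ) => ψ p.1 * ∏ i, g (p.1, p.2 i) :=
  (hψ.comp measurable_fst).mul (Finset.measurable_prod _ fun i _ =>
    hg.comp (measurable_fst.prodMk ((measurable_pi_apply i).comp measurable_snd)))

theorem measurable_palm_prod {ι : Type*} [Fintype ι] [DecidableEq ι]
    {ψ : (ι → ℂ) → ℝ≥0∞} (hψ : Measurable ψ) {g : (ι → ℂ) × ℂ → ℝ≥0∞} (hg : Measurable g) :
    Measurable fun ω => ∑ a ∈ tup ι (S ω), ψ a * ∏ u ∈ S ω \ univ.image a, (1 + g (a, u)) := by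
  simp only [palm_prod_eq]
  exact Measurable.tsum fun n =>
    (measurable_palm h.meas (measurable_palm_aux hψ hg n)).const_mul _

/-- Palm bound for multiplicative functionals larger than one. -/
theorem palm_prod {ι : Type*} [Fintype ι] [DecidableEq ι]
    {ψ : (ι → ℂ) → ℝ≥0∞} (hψ : Measurable ψ) {g : (ι → ℂ) × ℂ → ℝ≥0∞} (hg : Measurable g)
    {c : ℝ} (hc : 0 ≤ c)
    (hb : ∀ a, ψ a ≠ 0 → ∫⁻ u, ENNReal.ofReal (rho1 u) * g (a, u) ∂mr r ≤ ENNReal.ofReal c) :
    ∫⁻ ω, ∑ a ∈ tup ι (S ω), ψ a * ∏ u ∈ S ω \ univ.image a, (1 + g (a, u)) ∂P ≤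
      ENNReal.ofReal (Real.exp c) *
        ∫⁻ a, ENNReal.ofReal (rho a) * ψ a ∂(Measure.pi fun _ => mr r) := by
  simp only [palm_prod_eq]
  rw [lintegral_tsum fun n =>
    ((measurable_palm h.meas (measurable_palm_aux hψ hg n)).const_mul _).aemeasurable]
  have hρ : Measurable fun a : ι → ℂ => ENNReal.ofReal (rho a) * ψ a :=
    measurable_rho.ennreal_ofReal.mul hψ
  calc _ ≤ ∑' n : ℕ, ((n.factorial : ℝ≥0∞)⁻¹ * ENNReal.ofReal c ^ n) *
          ∫⁻ a, ENNReal.ofReal (rho a) * ψ a ∂(Measure.pi fun _ => mr r) := by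
        refine ENNReal.tsum_le_tsum fun n => ?_
        rw [lintegral_const_mul _ (measurable_palm h.meas (measurable_palm_aux hψ hg n)),
          mul_assoc]
        gcongr
        refine (h.palm (measurable_palm_aux hψ hg n)).trans ?_
        rw [← lintegral_const_mul _ hρ]
        refine lintegral_mono fun a => ?_
        by_cases ha : ψ a = 0
        · simp [ha]
        have hG : Measurable fun u => ENNReal.ofReal (rho1 u) * g (a, u) :=
          measurable_rho1.ennreal_ofReal.mul (hg.comp measurable_prodMk_left)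
        have h1 : ∫⁻ b : Fin n → ℂ, ENNReal.ofReal (rho b) * (ψ a * ∏ i, g (a, b i))
            ∂(Measure.pi fun _ => mr r) ≤ ψ a * ENNReal.ofReal c ^ n := by
          calc _ ≤ ∫⁻ b : Fin n → ℂ, ψ a * ∏ i, (ENNReal.ofReal (rho1 (b i)) * g (a, b i))
                ∂(Measure.pi fun _ => mr r) := by
                refine lintegral_mono_ae ?_
                filter_upwards [ae_pi_mr (ι := Fin n) r] with b hb
                rw [Finset.prod_mul_distrib,
                  ← ENNReal.ofReal_prod_of_nonneg fun i _ => rho1_nonneg _, mul_left_comm]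
                gcongr
                exact rho_le_prod b fun i => (hb i).trans h.r_lt
            _ = ψ a * (∫⁻ u, ENNReal.ofReal (rho1 u) * g (a, u) ∂mr r) ^ n := by
                have hG2 : Measurable fun b : Fin n → ℂ =>
                    ∏ i, (ENNReal.ofReal (rho1 (b i)) * g (a, b i)) :=
                  Finset.measurable_prod _ fun i _ => hG.comp (measurable_pi_apply i)
                rw [lintegral_const_mul _ hG2, lintegral_pi_prod _ hG]
            _ ≤ _ := by gcongr; exact hb a ha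
        calc _ ≤ ENNReal.ofReal (rho a) * (ψ a * ENNReal.ofReal c ^ n) := by gcongr
          _ = _ := by ring
    _ ≤ _ := by
        rw [ENNReal.tsum_mul_right]
        gcongr
        exact tsum_pow_le_exp hc le_rfl

end FinProc

end Pool.Agent.MP_7cfdbb_an

end

-- part MP_7cfdbb_an.Mob
section

/-! Disc automorphisms. -/

namespace Pool.Agent.MP_7cfdbb_an

open MeasureTheory Metric
open scoped ENNReal ComplexConjugate

/-- The denominator of the disc automorphism. -/
noncomputable def den (a w : ℂ) : ℂ := 1 - conj a * w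

theorem phi_eq (a w : ℂ) : phi a w = (w - a) / den a w := rfl

theorem norm_den_ge (a w : ℂ) : 1 - ‖a‖ * ‖w‖ ≤ ‖den a w‖ := by
  have h := norm_sub_norm_le (1 : ℂ) (conj a * w)
  rwa [norm_one, norm_mul, Complex.norm_conj] at h

theorem norm_den_ge_left {a w : ℂ} (hw : ‖w‖ ≤ 1) : 1 - ‖a‖ ≤ ‖den a w‖ := by
  have := norm_den_ge a w
  nlinarith [norm_nonneg a, norm_nonneg w]

theorem norm_den_ge_right {a w : ℂ} (ha : ‖a‖ ≤ 1) : 1 - ‖w‖ ≤ ‖den a w‖ := by
  have := norm_den_ge a w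
  nlinarith [norm_nonneg a, norm_nonneg w]

theorem norm_den_pos {a w : ℂ} (ha : ‖a‖ < 1) (hw : ‖w‖ ≤ 1) : 0 < ‖den a w‖ :=
  lt_of_lt_of_le (by linarith) (norm_den_ge_left hw)

theorem den_ne {a w : ℂ} (ha : ‖a‖ < 1) (hw : ‖w‖ ≤ 1) : den a w ≠ 0 :=
  norm_pos_iff.mp (norm_den_pos ha hw)

theorem norm_den_symm (a w : ℂ) : ‖den a w‖ = ‖den w a‖ := by
  rw [← Complex.norm_conj]
  simp [den, mul_comm]

theorem norm_den_le_two {a w : ℂ} (ha : ‖a‖ ≤ 1) (hw : ‖w‖ ≤ 1) : ‖den a w‖ ≤ 2 := by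
  have h := norm_sub_le (1 : ℂ) (conj a * w)
  rw [norm_one, norm_mul, Complex.norm_conj] at h
  unfold den
  nlinarith [norm_nonneg a, norm_nonneg w]

theorem den_self (a : ℂ) : den a a = ((1 - ‖a‖ ^ 2 : ℝ) : ℂ) := by
  rw [den, mul_comm, Complex.mul_conj, Complex.normSq_eq_norm_sq]
  push_cast; rfl

theorem norm_den_sub (a w w' : ℂ) (ha : ‖a‖ ≤ 1) : ‖den a w - den a w'‖ ≤ ‖w - w'‖ := by
  have : den a w - den a w' = -(conj a * (w - w')) := by unfold den; ring
  rw [this, norm_neg, norm_mul, Complex.norm_conj]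
  nlinarith [norm_nonneg a, norm_nonneg (w - w')]

theorem norm_den_le (a w : ℂ) (ha : ‖a‖ ≤ 1) : ‖den a w‖ ≤ (1 - ‖a‖ ^ 2) + ‖w - a‖ := by
  have h1 := norm_den_sub a w a ha
  have h2 := norm_le_insert' (den a w) (den a a)
  have h3 : ‖den a a‖ = 1 - ‖a‖ ^ 2 := by
    rw [den_self, Complex.norm_real, Real.norm_eq_abs, abs_of_nonneg]
    nlinarith [norm_nonneg a]
  linarith

theorem key_identity (a w : ℂ) :
    ‖den a w‖ ^ 2 - ‖w - a‖ ^ 2 = (1 - ‖a‖ ^ 2) * (1 - ‖w‖ ^ 2) := by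
  simp only [den, ← Complex.normSq_eq_norm_sq, Complex.normSq_apply]
  simp
  ring

theorem norm_phi (a w : ℂ) : ‖phi a w‖ = ‖w - a‖ / ‖den a w‖ := by rw [phi_eq, norm_div]

theorem norm_phi_symm (a w : ℂ) : ‖phi a w‖ = ‖phi w a‖ := by
  rw [norm_phi, norm_phi, norm_den_symm, norm_sub_rev]

/-- The quantity `1 - |phi a w| ^ 2`. -/
noncomputable def tt (a w : ℂ) : ℝ := (1 - ‖a‖ ^ 2) * (1 - ‖w‖ ^ 2) / ‖den a w‖ ^ 2

theorem tt_symm (a w : ℂ) : tt a w = tt w a := by
  rw [tt, tt, norm_den_symm, mul_comm]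

theorem one_sub_sq_nonneg {a : ℂ} (ha : ‖a‖ ≤ 1) : 0 ≤ 1 - ‖a‖ ^ 2 := by
  nlinarith [norm_nonneg a]

theorem one_sub_sq_pos {a : ℂ} (ha : ‖a‖ < 1) : 0 < 1 - ‖a‖ ^ 2 := by
  nlinarith [norm_nonneg a]

theorem tt_nonneg {a w : ℂ} (ha : ‖a‖ ≤ 1) (hw : ‖w‖ ≤ 1) : 0 ≤ tt a w :=
  div_nonneg (mul_nonneg (one_sub_sq_nonneg ha) (one_sub_sq_nonneg hw)) (by positivity)

theorem norm_phi_sq {a w : ℂ} (ha : ‖a‖ < 1) (hw : ‖w‖ ≤ 1) : ‖phi a w‖ ^ 2 = 1 - tt a w := by
  have h := norm_den_pos ha hw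
  rw [norm_phi, tt, ← key_identity, div_pow]
  field_simp
  ring

theorem norm_phi_le_one {a w : ℂ} (ha : ‖a‖ < 1) (hw : ‖w‖ ≤ 1) : ‖phi a w‖ ≤ 1 := by
  have h := norm_phi_sq ha hw
  have := tt_nonneg ha.le hw
  nlinarith [norm_nonneg (phi a w)]

theorem tt_le_one {a w : ℂ} (ha : ‖a‖ < 1) (hw : ‖w‖ ≤ 1) : tt a w ≤ 1 := by
  have h := norm_phi_sq ha hw
  nlinarith [norm_nonneg (phi a w)]

theorem norm_phi_lt_one {a w : ℂ} (ha : ‖a‖ < 1) (hw : ‖w‖ < 1) : ‖phi a w‖ < 1 := by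
  have h := norm_phi_sq ha hw.le
  have : 0 < tt a w := div_pos (mul_pos (one_sub_sq_pos ha) (one_sub_sq_pos hw))
    (pow_pos (norm_den_pos ha hw.le) 2)
  nlinarith [norm_nonneg (phi a w)]

theorem phi_self (a : ℂ) : phi a a = 0 := by simp [phi]

theorem phi_zero (a : ℂ) : phi a 0 = -a := by simp [phi]

theorem phi_ne_zero {a w : ℂ} (ha : ‖a‖ < 1) (hw : ‖w‖ ≤ 1) (h : w ≠ a) : phi a w ≠ 0 :=
  div_ne_zero (sub_ne_zero.mpr h) (den_ne ha hw)

theorem den_neg_phi {a w : ℂ} (ha : ‖a‖ < 1) (hw : ‖w‖ ≤ 1) :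
    den (-a) (phi a w) = den a a / den a w := by
  have h := den_ne ha hw
  rw [phi_eq, eq_div_iff h]
  simp only [den] at h ⊢
  rw [map_neg]
  field_simp
  ring

theorem phi_neg_phi {a w : ℂ} (ha : ‖a‖ < 1) (hw : ‖w‖ ≤ 1) : phi (-a) (phi a w) = w := by
  have h := den_ne ha hw
  have h2 := den_ne ha ha.le
  rw [phi_eq (-a), den_neg_phi ha hw, phi_eq]
  field_simp
  simp only [den]
  ring

theorem phi_phi_neg {a w : ℂ} (ha : ‖a‖ < 1) (hw : ‖w‖ ≤ 1) : phi a (phi (-a) w) = w := by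
  have := phi_neg_phi (a := -a) (w := w) (by rwa [norm_neg]) hw
  rwa [neg_neg] at this

theorem phi_sub {a w w' : ℂ} (ha : ‖a‖ < 1) (hw : ‖w‖ ≤ 1) (hw' : ‖w'‖ ≤ 1) :
    phi a w - phi a w' = (w - w') * den a a / (den a w * den a w') := by
  have h := den_ne ha hw
  have h2 := den_ne ha hw'
  rw [phi_eq, phi_eq]
  field_simp
  simp only [den]
  ring

theorem hasDerivAt_den (a w : ℂ) : HasDerivAt (den a) (-conj a) w := by
  unfold den
  simpa using ((hasDerivAt_id w).const_mul (conj a)).const_sub 1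

theorem hasDerivAt_phi {a w : ℂ} (ha : ‖a‖ < 1) (hw : ‖w‖ ≤ 1) :
    HasDerivAt (phi a) (den a a / den a w ^ 2) w := by
  have h := ((hasDerivAt_id w).sub_const a).div (hasDerivAt_den a w) (den_ne ha hw)
  have e : (1 * den a w - (id w - a) * -conj a) / den a w ^ 2 = den a a / den a w ^ 2 := by
    simp only [den, id]; ring
  rw [e] at h
  exact h

theorem differentiableAt_phi {a w : ℂ} (ha : ‖a‖ < 1) (hw : ‖w‖ ≤ 1) :
    DifferentiableAt ℂ (phi a) w := (hasDerivAt_phi ha hw).differentiableAt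

theorem measurable_den : Measurable fun p : ℂ × ℂ => den p.1 p.2 := by
  unfold den
  exact measurable_const.sub ((Complex.continuous_conj.measurable.comp measurable_fst).mul
    measurable_snd)

theorem measurable_phi2 {α : Type*} [MeasurableSpace α] {f g : α → ℂ} (hf : Measurable f)
    (hg : Measurable g) : Measurable fun x => phi (f x) (g x) := by
  unfold phi
  exact (hg.sub hf).div
    (measurable_const.sub ((Complex.continuous_conj.measurable.comp hf).mul hg))

theorem measurable_tt2 {α : Type*} [MeasurableSpace α] {f g : α → ℂ} (hf : Measurable f)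
    (hg : Measurable g) : Measurable fun x => tt (f x) (g x) := by
  unfold tt den
  refine ((measurable_const.sub (hf.norm.pow_const 2)).mul
    (measurable_const.sub (hg.norm.pow_const 2))).div (Measurable.pow_const (Measurable.norm ?_) 2)
  exact measurable_const.sub ((Complex.continuous_conj.measurable.comp hf).mul hg)

/-- The Jacobian of the disc automorphism. -/
noncomputable def jac (a w : ℂ) : ℝ := (1 - ‖a‖ ^ 2) ^ 2 / ‖den a w‖ ^ 4

theorem jac_nonneg (a w : ℂ) : 0 ≤ jac a w := by unfold jac; positivity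

theorem measurable_jac (a : ℂ) : Measurable (jac a) := by
  unfold jac den
  fun_prop

theorem normSq_deriv (a w : ℂ) : ‖den a a / den a w ^ 2‖ ^ 2 = jac a w := by
  rw [norm_div, div_pow, norm_pow, den_self, Complex.norm_real, Real.norm_eq_abs, sq_abs, jac,
    ← pow_mul]

theorem det_smul_one (c : ℂ) : (c • (1 : ℂ →L[ℝ] ℂ)).det = ‖c‖ ^ 2 := by
  have : ((c • (1 : ℂ →L[ℝ] ℂ) : ℂ →L[ℝ] ℂ) : ℂ →ₗ[ℝ] ℂ) = Algebra.lmul ℝ ℂ c := by
    ext <;> simp
  rw [ContinuousLinearMap.det, this, ← Algebra.norm_apply, Algebra.norm_complex_apply,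
    Complex.normSq_eq_norm_sq]

theorem phi_image {a : ℂ} (ha : ‖a‖ < 1) : phi a '' ball 0 1 = ball 0 1 := by
  ext v
  simp only [Set.mem_image, mem_ball_zero_iff]
  constructor
  · rintro ⟨u, hu, rfl⟩
    exact norm_phi_lt_one ha hu
  · intro hv
    exact ⟨phi (-a) v, norm_phi_lt_one (by rwa [norm_neg]) hv, phi_phi_neg ha hv.le⟩

theorem phi_injOn {a : ℂ} (ha : ‖a‖ < 1) : Set.InjOn (phi a) (ball 0 1) := by
  intro u hu v hv h
  rw [mem_ball_zero_iff] at hu hv
  rw [← phi_neg_phi ha hu.le, h, phi_neg_phi ha hv.le]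

/-- Change of variables. -/
theorem lintegral_phi {a : ℂ} (ha : ‖a‖ < 1) (F : ℂ → ℝ≥0∞) :
    ∫⁻ u, ENNReal.ofReal (jac a u) * F (phi a u) ∂mr 1 = ∫⁻ v, F v ∂mr 1 := by
  have h := lintegral_image_eq_lintegral_abs_det_fderiv_mul (volume : Measure ℂ)
    (s := ball 0 1) (f := phi a) (f' := fun u => (den a a / den a u ^ 2) • (1 : ℂ →L[ℝ] ℂ))
    isOpen_ball.measurableSet
    (fun u hu => (hasDerivAt_phi ha
      (mem_ball_zero_iff.mp hu).le).complexToReal_fderiv.hasFDerivWithinAt) (phi_injOn ha) F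
  rw [phi_image ha] at h
  simp only [mr, mu0, Measure.restrict_smul, lintegral_smul_measure]
  rw [h]
  congr 1
  refine lintegral_congr fun u => ?_
  rw [det_smul_one, normSq_deriv, abs_of_nonneg (jac_nonneg _ _)]

theorem tt_sq_mul_rho1 {a u : ℂ} (ha : ‖a‖ < 1) (hu : ‖u‖ < 1) :
    rho1 u * tt a u ^ 2 = jac a u := by
  have h1 := one_sub_sq_pos hu
  have h2 := norm_den_pos ha hu.le
  unfold rho1 tt jac
  field_simp

end Pool.Agent.MP_7cfdbb_an

end

-- part MP_7cfdbb_an.Polar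
section

/-! Integrals over discs. -/

namespace Pool.Agent.MP_7cfdbb_an

open MeasureTheory Metric Set Real
open scoped ENNReal ComplexConjugate

theorem lintegral_circle {F : ℂ → ℝ} {c : ℂ} {ρ : ℝ} (hρ : 0 < ρ)
    (hc : ContinuousOn F (sphere c ρ)) (h0 : ∀ u ∈ sphere c ρ, 0 ≤ F u) :
    ∫⁻ θ in Ioo (-π) π, ENNReal.ofReal (F (circleMap c ρ θ)) =
      ENNReal.ofReal (2 * π * circleAverage F c ρ) := by
  have hcont : Continuous fun θ => F (circleMap c ρ θ) :=
    hc.comp_continuous (continuous_circleMap c ρ) fun θ => circleMap_mem_sphere c hρ.le θ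
  have hper : Function.Periodic (fun θ => F (circleMap c ρ θ)) (2 * π) :=
    fun θ => by simp only [periodic_circleMap c ρ θ]
  have h1 := hper.intervalIntegral_add_eq (-π) 0
  rw [zero_add, show -π + 2 * π = π by ring] at h1
  rw [circleAverage_def, smul_eq_mul, ← mul_assoc, mul_inv_cancel₀ (by positivity), one_mul, ← h1,
    intervalIntegral.integral_of_le (by linarith [pi_pos]), integral_Ioc_eq_integral_Ioo,
    ofReal_integral_eq_lintegral_ofReal]
  · exact (hcont.integrableOn_Icc (a := -π) (b := π)).mono_set Ioo_subset_Icc_self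
  · exact Filter.Eventually.of_forall fun θ => h0 _ (circleMap_mem_sphere c hρ.le θ)

theorem lintegral_ball_polar {F : ℂ → ℝ} (hF : Measurable F) (c : ℂ) {R : ℝ}
    (hc : ∀ ρ ∈ Ioo 0 R, ContinuousOn F (sphere c ρ))
    (h0 : ∀ ρ ∈ Ioo 0 R, ∀ u ∈ sphere c ρ, 0 ≤ F u) :
    ∫⁻ u in ball c R, ENNReal.ofReal (F u) ∂mu0 =
      ∫⁻ ρ in Ioo 0 R, ENNReal.ofReal (2 * ρ * circleAverage F c ρ) := by
  have hG : Measurable ((ball c R).indicator fun u => ENNReal.ofReal (F u)) :=
    hF.ennreal_ofReal.indicator isOpen_ball.measurableSet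
  have hsymm : ∀ p : ℝ × ℝ, Complex.polarCoord.symm p + c = circleMap c p.1 p.2 := by
    intro p
    rw [Complex.polarCoord_symm_apply, circleMap, Complex.exp_mul_I, add_comm]
    simp
  rw [mu0, Measure.restrict_smul, lintegral_smul_measure,
    ← lintegral_indicator isOpen_ball.measurableSet, ← lintegral_add_right_eq_self _ c,
    ← Complex.lintegral_comp_polarCoord_symm]
  simp only [hsymm, smul_eq_mul]
  have hm : Measurable fun p : ℝ × ℝ => ENNReal.ofReal p.1 *
      (ball c R).indicator (fun u => ENNReal.ofReal (F u)) (circleMap c p.1 p.2) := by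
    refine measurable_fst.ennreal_ofReal.mul (hG.comp ?_)
    unfold circleMap
    fun_prop
  rw [polarCoord_target, Measure.volume_eq_prod, ← Measure.prod_restrict,
    lintegral_prod _ hm.aemeasurable, ← lintegral_const_mul' _ _ (by simp [pi_pos]),
    ← lintegral_indicator measurableSet_Ioo, ← lintegral_indicator measurableSet_Ioi]
  refine lintegral_congr fun ρ => ?_
  by_cases h1 : 0 < ρ
  · rw [indicator_of_mem (show ρ ∈ Ioi 0 from h1)]
    have hd : ∀ θ, dist (circleMap c ρ θ) c = ρ := fun θ => circleMap_mem_sphere c h1.le θ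
    by_cases h2 : ρ < R
    · rw [indicator_of_mem (show ρ ∈ Ioo 0 R from ⟨h1, h2⟩)]
      have : ∀ θ, (ball c R).indicator (fun u => ENNReal.ofReal (F u)) (circleMap c ρ θ) =
          ENNReal.ofReal (F (circleMap c ρ θ)) := fun θ =>
        indicator_of_mem (by rw [mem_ball, hd]; exact h2) _
      simp only [this]
      rw [lintegral_const_mul' _ _ ENNReal.ofReal_ne_top,
        lintegral_circle h1 (hc ρ ⟨h1, h2⟩) (h0 ρ ⟨h1, h2⟩), ← ENNReal.ofReal_mul h1.le,
        ← ENNReal.ofReal_inv_of_pos pi_pos, ← ENNReal.ofReal_mul (by positivity)]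
      congr 1
      field_simp
    · rw [indicator_of_notMem (fun h : ρ ∈ Ioo 0 R => h2 h.2)]
      have : ∀ θ, (ball c R).indicator (fun u => ENNReal.ofReal (F u)) (circleMap c ρ θ) = 0 :=
        fun θ => indicator_of_notMem (by rw [mem_ball, hd]; exact h2) _
      simp [this]
  · rw [indicator_of_notMem (show ρ ∉ Ioi 0 from h1),
      indicator_of_notMem (fun h : ρ ∈ Ioo 0 R => h1 h.1)]

theorem lintegral_Ioo_deriv {g G : ℝ → ℝ} {R : ℝ} (hR : 0 ≤ R) (hg : ContinuousOn g (Icc 0 R))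
    (h0 : ∀ ρ ∈ Ioo 0 R, 0 ≤ g ρ) (hG : ∀ ρ ∈ Icc 0 R, HasDerivAt G (g ρ) ρ) :
    ∫⁻ ρ in Ioo 0 R, ENNReal.ofReal (g ρ) = ENNReal.ofReal (G R - G 0) := by
  have hi : IntervalIntegrable g volume 0 R := by
    apply ContinuousOn.intervalIntegrable; rwa [uIcc_of_le hR]
  rw [← intervalIntegral.integral_eq_sub_of_hasDerivAt (by rwa [uIcc_of_le hR]) hi,
    intervalIntegral.integral_of_le hR, integral_Ioc_eq_integral_Ioo,
    ofReal_integral_eq_lintegral_ofReal]
  · exact (hg.integrableOn_Icc).mono_set Ioo_subset_Icc_self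
  · filter_upwards [ae_restrict_mem measurableSet_Ioo] with ρ hρ using h0 ρ hρ

/-- Sub-mean value property. -/
theorem sub_mean {f : ℂ → ℂ} (hm : Measurable f) {c : ℂ} {R : ℝ} (hR : 0 ≤ R)
    (hf : DifferentiableOn ℂ f (ball c R)) :
    ENNReal.ofReal (‖f c‖ * R ^ 2) ≤ ∫⁻ u in ball c R, ENNReal.ofReal ‖f u‖ ∂mu0 := by
  have hsub : ∀ ρ ∈ Ioo 0 R, closedBall c ρ ⊆ ball c R := fun ρ hρ => closedBall_subset_ball hρ.2
  have hcs : ∀ ρ ∈ Ioo 0 R, ContinuousOn f (sphere c ρ) := fun ρ hρ =>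
    hf.continuousOn.mono (sphere_subset_closedBall.trans (hsub ρ hρ))
  rw [lintegral_ball_polar hm.norm c (fun ρ hρ => (hcs ρ hρ).norm) (fun _ _ _ _ => norm_nonneg _)]
  have h1 := lintegral_Ioo_deriv (g := fun ρ => 2 * ρ * ‖f c‖) (G := fun ρ => ‖f c‖ * ρ ^ 2) hR
    (by fun_prop) (fun ρ hρ => by have := hρ.1; positivity)
    (fun ρ _ => by
      have := (hasDerivAt_pow 2 ρ).const_mul ‖f c‖
      refine this.congr_deriv ?_
      simp; ring)
  simp only [ne_eq, OfNat.ofNat_ne_zero, not_false_eq_true, zero_pow, mul_zero, sub_zero] at h1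
  rw [← h1]
  refine setLIntegral_mono' measurableSet_Ioo fun ρ hρ => ENNReal.ofReal_le_ofReal ?_
  have h2 : DiffContOnCl ℂ f (ball c |ρ|) := by
    rw [abs_of_pos hρ.1]
    refine DifferentiableOn.diffContOnCl ?_
    rw [closure_ball c hρ.1.ne']
    exact hf.mono (hsub ρ hρ)
  have h3 : ‖f c‖ ≤ circleAverage (fun u => ‖f u‖) c ρ := by
    rw [← h2.circleAverage, circleAverage_def, circleAverage_def, norm_smul, smul_eq_mul,
      Real.norm_eq_abs, abs_of_pos (by positivity)]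
    gcongr
    exact intervalIntegral.norm_integral_le_integral_norm (by positivity)
  have := hρ.1
  gcongr

theorem circleAverage_inv_den {w : ℂ} (hw : ‖w‖ < 1) {ρ : ℝ} (h0 : 0 < ρ) (h1 : ρ < 1) :
    circleAverage (fun u => (‖den w u‖ ^ 2)⁻¹) 0 ρ = (1 - ‖w‖ ^ 2 * ρ ^ 2)⁻¹ := by
  have hpos : 0 < 1 - ‖w‖ ^ 2 * ρ ^ 2 := by
    have : ‖w‖ * ρ < 1 := by nlinarith [norm_nonneg w]
    nlinarith [mul_nonneg (norm_nonneg w) h0.le]
  have hd : DifferentiableOn ℂ (fun u => (2 - den w u) / den w u) (closedBall 0 ρ) := by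
    intro u hu
    have hu1 : ‖u‖ ≤ 1 := (mem_closedBall_zero_iff.mp hu).trans h1.le
    exact (((hasDerivAt_den w u).differentiableAt.const_sub 2).div
      (hasDerivAt_den w u).differentiableAt (den_ne hw hu1)).differentiableWithinAt
  have h2 : DiffContOnCl ℂ (fun u => (2 - den w u) / den w u) (ball 0 |ρ|) := by
    rw [abs_of_pos h0]
    refine DifferentiableOn.diffContOnCl ?_
    rwa [closure_ball 0 h0.ne']
  have h3 := h2.circleAverage
  have h4 := Complex.reCLM.circleAverage_comp_comm (c := 0) (R := ρ)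
    (f := fun u => (2 - den w u) / den w u)
    ((hd.continuousOn.mono sphere_subset_closedBall).circleIntegrable h0.le)
  rw [h3] at h4
  have h5 : Complex.reCLM ((2 - den w 0) / den w 0) = 1 := by
    simp [den]; norm_num
  rw [h5] at h4
  have h6 : circleAverage (fun u => (‖den w u‖ ^ 2)⁻¹) 0 ρ = circleAverage
      (fun u => (1 - ‖w‖ ^ 2 * ρ ^ 2)⁻¹ •
        (Complex.reCLM ∘ fun u => (2 - den w u) / den w u) u) 0 ρ := by
    refine circleAverage_congr_sphere fun u hu => ?_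
    rw [abs_of_pos h0, mem_sphere_zero_iff_norm] at hu
    have hne := norm_den_pos hw (hu.le.trans h1.le)
    simp only [Function.comp_apply, Complex.reCLM_apply, smul_eq_mul, Complex.div_re,
      Complex.normSq_eq_norm_sq]
    have e : ‖w‖ ^ 2 * ρ ^ 2 = (1 - (den w u).re) ^ 2 + (den w u).im ^ 2 := by
      have : 1 - den w u = conj w * u := by simp [den]
      have h7 : ‖1 - den w u‖ = ‖w‖ * ρ := by rw [this, norm_mul, Complex.norm_conj, hu]
      rw [← mul_pow, ← h7, Complex.sq_norm, Complex.normSq_apply]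
      simp; ring
    field_simp
    rw [e]
    simp; ring
  rw [h6, circleAverage_fun_smul, h4, smul_eq_mul, mul_one]

/-- The basic integral. -/
theorem lintegral_rho1_tt {w : ℂ} (hw : ‖w‖ < 1) {r : ℝ} (h0 : 0 ≤ r) (h1 : r < 1) :
    ∫⁻ u, ENNReal.ofReal (rho1 u * tt w u) ∂mr r =
      ENNReal.ofReal (Real.log (1 - ‖w‖ ^ 2 * r ^ 2) - Real.log (1 - r ^ 2)) := by
  have hw2 : ‖w‖ ^ 2 < 1 := by nlinarith [norm_nonneg w]
  have hw0 : 0 ≤ ‖w‖ ^ 2 := by positivity
  have hp1 : ∀ ρ ∈ Icc 0 r, 0 < 1 - ρ ^ 2 := fun ρ hρ => by nlinarith [hρ.1, hρ.2]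
  have hp2 : ∀ ρ ∈ Icc 0 r, 0 < 1 - ‖w‖ ^ 2 * ρ ^ 2 := fun ρ hρ => by
    nlinarith [hp1 ρ hρ, sq_nonneg ρ]
  have hform : ∀ ρ ∈ Ioo 0 r, ∀ u ∈ sphere (0 : ℂ) ρ, rho1 u * tt w u =
      ((1 - ‖w‖ ^ 2) / (1 - ρ ^ 2)) • (‖den w u‖ ^ 2)⁻¹ := by
    intro ρ hρ u hu
    rw [mem_sphere_zero_iff_norm] at hu
    have := hp1 ρ (Ioo_subset_Icc_self hρ)
    simp only [rho1, tt, hu, smul_eq_mul]
    field_simp
  rw [mr, lintegral_ball_polar (F := fun u => rho1 u * tt w u)
    (measurable_rho1.mul (measurable_tt2 measurable_const measurable_id))]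
  · have h2 := lintegral_Ioo_deriv
      (g := fun ρ => 2 * ρ * ((1 - ‖w‖ ^ 2) / (1 - ρ ^ 2) * (1 - ‖w‖ ^ 2 * ρ ^ 2)⁻¹))
      (G := fun ρ => Real.log (1 - ‖w‖ ^ 2 * ρ ^ 2) - Real.log (1 - ρ ^ 2)) h0 ?_ ?_ ?_
    · simp only [ne_eq, OfNat.ofNat_ne_zero, not_false_eq_true, zero_pow, mul_zero, sub_zero,
        log_one] at h2
      rw [← h2]
      refine setLIntegral_congr_fun measurableSet_Ioo fun ρ hρ => ?_
      rw [circleAverage_congr_sphere (f₂ := fun u =>
        ((1 - ‖w‖ ^ 2) / (1 - ρ ^ 2)) • (‖den w u‖ ^ 2)⁻¹), circleAverage_fun_smul,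
        circleAverage_inv_den hw hρ.1 (hρ.2.trans h1), smul_eq_mul]
      rw [abs_of_pos hρ.1]
      exact fun u hu => hform ρ hρ u hu
    · refine ContinuousOn.mul (by fun_prop) (ContinuousOn.mul (ContinuousOn.div (by fun_prop)
        (by fun_prop) fun ρ hρ => (hp1 ρ hρ).ne') (ContinuousOn.inv₀ (by fun_prop)
        fun ρ hρ => (hp2 ρ hρ).ne'))
    · intro ρ hρ
      have := hp1 ρ (Ioo_subset_Icc_self hρ)
      have := hp2 ρ (Ioo_subset_Icc_self hρ)
      have := hρ.1
      have : 0 < 1 - ‖w‖ ^ 2 := by linarith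
      positivity
    · intro ρ hρ
      have h3 := hp1 ρ hρ
      have h4 := hp2 ρ hρ
      have d1 := (((hasDerivAt_pow 2 ρ).const_mul (‖w‖ ^ 2)).const_sub 1).log h4.ne'
      have d2 := ((hasDerivAt_pow 2 ρ).const_sub 1).log h3.ne'
      refine (d1.sub d2).congr_deriv ?_
      simp only [Nat.cast_ofNat, Nat.add_one_sub_one, pow_one]
      field_simp
      ring
  · intro ρ hρ
    refine ContinuousOn.congr ?_ (hform ρ hρ)
    simp only [smul_eq_mul]
    refine ContinuousOn.mul continuousOn_const (ContinuousOn.inv₀ ?_ fun u hu => ?_)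
    · unfold den; fun_prop
    · rw [mem_sphere_zero_iff_norm] at hu
      exact (pow_pos (norm_den_pos hw (by rw [hu]; linarith [hρ.2])) 2).ne'
  · intro ρ hρ u hu
    rw [mem_sphere_zero_iff_norm] at hu
    exact mul_nonneg (rho1_nonneg u) (tt_nonneg hw.le (by rw [hu]; linarith [hρ.2]))

theorem lintegral_inv_norm : ∫⁻ v, ENNReal.ofReal ‖v‖⁻¹ ∂mr 1 = ENNReal.ofReal 2 := by
  rw [mr, lintegral_ball_polar (F := fun v => ‖v‖⁻¹) (by fun_prop)]
  · rw [setLIntegral_congr_fun measurableSet_Ioo (g := fun _ => ENNReal.ofReal 2)]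
    · simp
    · intro ρ hρ
      simp only
      rw [circleAverage_const_on_circle (a := ρ⁻¹)]
      · congr 1
        have := hρ.1
        field_simp
      · intro u hu
        rw [abs_of_pos hρ.1, mem_sphere_zero_iff_norm] at hu
        rw [hu]
  · intro ρ hρ
    refine ContinuousOn.inv₀ (by fun_prop) fun u hu => ?_
    rw [mem_sphere_zero_iff_norm] at hu
    rw [hu]; exact hρ.1.ne'
  · intro _ _ _ _
    positivity

theorem mr_le (r : ℝ) (h : r ≤ 1) : mr r ≤ mr 1 :=
  Measure.restrict_mono (ball_subset_ball h) le_rfl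

/-- The error integral. -/
theorem lintegral_rho1_tt_sq {w : ℂ} (hw : ‖w‖ < 1) {r : ℝ} (h1 : r ≤ 1) :
    ∫⁻ u, ENNReal.ofReal (rho1 u * tt w u ^ 2 * ‖phi w u‖⁻¹) ∂mr r ≤ ENNReal.ofReal 2 := by
  refine (lintegral_mono' (mr_le r h1) le_rfl).trans ?_
  rw [← lintegral_inv_norm, ← lintegral_phi hw fun v => ENNReal.ofReal ‖v‖⁻¹]
  refine le_of_eq (lintegral_congr_ae ?_)
  filter_upwards [ae_mr 1] with u hu
  rw [tt_sq_mul_rho1 hw hu, ENNReal.ofReal_mul (jac_nonneg _ _)]

/-- Bessel type inequality for polynomials. -/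
theorem lintegral_poly_le (N : ℕ) (c : ℕ → ℂ) {r : ℝ} (h0 : 0 ≤ r) (h1 : r ≤ 1) :
    ∫⁻ u, ENNReal.ofReal (‖∑ a ∈ Finset.range N, c a * u ^ a‖ ^ 2) ∂mr r ≤
      ENNReal.ofReal (∑ a ∈ Finset.range N, ‖c a‖ ^ 2 / (a + 1)) := by
  have havg : ∀ ρ : ℝ, 0 < ρ → circleAverage
      (fun u => ‖∑ a ∈ Finset.range N, c a * u ^ a‖ ^ 2) 0 ρ =
      ∑ a ∈ Finset.range N, ‖c a‖ ^ 2 * ρ ^ (2 * a) := by
    intro ρ hρ
    let p : Polynomial ℂ := ∑ a ∈ Finset.range N, Polynomial.monomial a (c a * ρ ^ a)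
    have hco : ∀ i, p.coeff i = if i ∈ Finset.range N then c i * ρ ^ i else 0 := by
      intro i
      simp only [p, Polynomial.finsetSum_coeff, Polynomial.coeff_monomial]
      rw [Finset.sum_ite_eq']
    have h := p.sum_sq_norm_coeff_eq_circleAverage
    rw [circleAverage_eq_circleAverage_zero_one]
    have e1 : (fun z : ℂ => ‖∑ a ∈ Finset.range N, c a * (ρ * z + 0) ^ a‖ ^ 2) =
        fun z => ‖p.eval z‖ ^ 2 := by
      funext z
      simp only [p, Polynomial.eval_finsetSum, Polynomial.eval_monomial, add_zero, mul_pow,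
        mul_assoc]
    rw [e1, ← h, Finset.sum_subset (s₂ := Finset.range N)]
    · refine Finset.sum_congr rfl fun a ha => ?_
      rw [hco, if_pos ha, norm_mul, norm_pow, Complex.norm_real, Real.norm_eq_abs, abs_of_pos hρ]
      ring
    · intro i hi
      rw [Polynomial.mem_support_iff, hco] at hi
      by_contra h'
      exact hi (if_neg h')
    · intro i _ hi
      rw [Polynomial.notMem_support_iff.mp hi]; simp
  rw [mr, lintegral_ball_polar (F := fun u => ‖∑ a ∈ Finset.range N, c a * u ^ a‖ ^ 2)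
    (by fun_prop) 0 (fun _ _ => by fun_prop) (fun _ _ _ _ => by positivity)]
  have h2 := lintegral_Ioo_deriv
    (g := fun ρ => 2 * ρ * ∑ a ∈ Finset.range N, ‖c a‖ ^ 2 * ρ ^ (2 * a))
    (G := fun ρ => ∑ a ∈ Finset.range N, ‖c a‖ ^ 2 / (a + 1) * ρ ^ (2 * a + 2)) h0
    (by fun_prop) (fun ρ hρ => by have := hρ.1; positivity)
    (fun ρ _ => by
      have := HasDerivAt.fun_sum (u := Finset.range N) fun a _ =>
        (hasDerivAt_pow (2 * a + 2) ρ).const_mul (‖c a‖ ^ 2 / (a + 1))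
      refine this.congr_deriv ?_
      rw [Finset.mul_sum]
      refine Finset.sum_congr rfl fun a _ => ?_
      simp only [Nat.add_one_sub_one]
      push_cast
      field_simp
      ring)
  rw [setLIntegral_congr_fun measurableSet_Ioo (g := fun ρ => ENNReal.ofReal
    (2 * ρ * ∑ a ∈ Finset.range N, ‖c a‖ ^ 2 * ρ ^ (2 * a))) fun ρ hρ => by
      simp only; rw [havg ρ hρ.1], h2]
  refine ENNReal.ofReal_le_ofReal ?_
  simp only [ne_eq, Nat.add_eq_zero_iff, mul_eq_zero, OfNat.ofNat_ne_zero, false_or, and_false,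
    not_false_eq_true, zero_pow, mul_zero, Finset.sum_const_zero, sub_zero]
  refine Finset.sum_le_sum fun a _ => ?_
  exact mul_le_of_le_one_right (by positivity) (pow_le_one₀ h0 h1)

end Pool.Agent.MP_7cfdbb_an

end

-- part MP_7cfdbb_an.Andreief
section

/-! Andreief's identity and diagonalisation of the truncated kernel. -/

namespace Pool.Agent.MP_7cfdbb_an

open MeasureTheory Metric Matrix
open scoped ENNReal ComplexConjugate ComplexOrder

theorem integrable_of_cont {E : Type*} [NormedAddCommGroup E] {g : ℂ → E} (hg : Continuous g)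
    (r : ℝ) : Integrable g (mr r) := by
  obtain ⟨C, hC⟩ := (isCompact_closedBall (0 : ℂ) r).exists_bound_of_continuousOn hg.continuousOn
  refine Integrable.of_bound hg.aestronglyMeasurable C ?_
  filter_upwards [ae_mr r] with u hu using hC u (mem_closedBall_zero_iff.mpr hu.le)

theorem det_diag_submatrix {β : Type*} [Fintype β] [DecidableEq β] {n : ℕ} (d : β → ℂ)
    (f : Fin n → β) [Decidable (Function.Injective f)] :
    ((Matrix.diagonal d).submatrix f f).det =
      if Function.Injective f then ∏ i, d (f i) else 0 := by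
  split_ifs with hf
  · rw [submatrix_diagonal _ _ hf, det_diagonal]; rfl
  · simp only [Function.Injective, not_forall] at hf
    obtain ⟨i, j, hij, hne⟩ := hf
    exact det_zero_of_row_eq hne (by funext k; simp [hij])

theorem andreief {β : Type*} [Fintype β] [DecidableEq β] {μ : Measure ℂ} [SigmaFinite μ]
    (ψ : β → ℂ → ℂ) (H : ℂ → ℂ) (d : β → ℂ)
    (hi : ∀ b c, Integrable (fun u => H u * (ψ b u * conj (ψ c u))) μ)
    (hd : ∀ b c, ∫ u, H u * (ψ b u * conj (ψ c u)) ∂μ = Matrix.diagonal d b c) (n : ℕ) :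
    ∫ a : Fin n → ℂ, (Matrix.of fun i j => ∑ b, ψ b (a i) * conj (ψ b (a j))).det * ∏ i, H (a i)
      ∂(Measure.pi fun _ => μ) = ∑ f ∈ tup (Fin n) (Finset.univ : Finset β), ∏ i, d (f i) := by
  classical
  have e1 : ∀ a : Fin n → ℂ,
      (Matrix.of fun i j => ∑ b, ψ b (a i) * conj (ψ b (a j))).det * ∏ i, H (a i) =
      ∑ f : Fin n → β, ∑ σ : Equiv.Perm (Fin n), ((Equiv.Perm.sign σ : ℤ) : ℂ) *
        ∏ j, (H (a j) * (ψ (f (σ⁻¹ j)) (a j) * conj (ψ (f j) (a j)))) := by
    intro a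
    rw [det_apply', Finset.sum_comm, Finset.sum_mul]
    refine Finset.sum_congr rfl fun σ _ => ?_
    simp only [of_apply]
    rw [Finset.prod_univ_sum, Fintype.piFinset_univ, ← Finset.mul_sum, mul_assoc, Finset.sum_mul]
    congr 1
    refine Finset.sum_congr rfl fun f _ => ?_
    simp only [Finset.prod_mul_distrib]
    rw [← Equiv.prod_comp σ (fun j => ψ (f (σ⁻¹ j)) (a j))]
    simp only [Equiv.Perm.coe_inv, Equiv.symm_apply_apply]
    ring
  have hint : ∀ (f : Fin n → β) (σ : Equiv.Perm (Fin n)), Integrable (fun a : Fin n → ℂ =>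
      ((Equiv.Perm.sign σ : ℤ) : ℂ) *
        ∏ j, (H (a j) * (ψ (f (σ⁻¹ j)) (a j) * conj (ψ (f j) (a j))))) (Measure.pi fun _ => μ) :=
    fun f σ => (Integrable.fintype_prod
      (f := fun j u => H u * (ψ (f (σ⁻¹ j)) u * conj (ψ (f j) u))) fun j => hi _ _).const_mul _
  simp only [e1]
  rw [integral_finsetSum _ fun f _ => integrable_finsetSum _ fun σ _ => hint f σ]
  rw [tup, Fintype.piFinset_univ, Finset.sum_filter]
  refine Finset.sum_congr rfl fun f _ => ?_
  rw [integral_finsetSum _ fun σ _ => hint f σ, ← det_diag_submatrix, det_apply',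
    ← Equiv.sum_comp (Equiv.inv (Equiv.Perm (Fin n)))]
  refine Finset.sum_congr rfl fun σ _ => ?_
  rw [integral_const_mul, integral_fintype_prod_eq_prod
    (f := fun j u => H u * (ψ (f ((Equiv.inv (Equiv.Perm (Fin n)) σ)⁻¹ j)) u * conj (ψ (f j) u)))]
  simp only [hd, Equiv.inv_apply, inv_inv, Equiv.Perm.sign_inv, submatrix_apply]

/-- Orthonormal monomials. -/
noncomputable def mono (a : ℕ) (u : ℂ) : ℂ := (Real.sqrt (a + 1) : ℂ) * u ^ a

theorem continuous_mono (a : ℕ) : Continuous (mono a) := by unfold mono; fun_prop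

theorem KN_eq (N : ℕ) (x y : ℂ) : KN N x y = ∑ a : Fin N, mono a x * conj (mono a y) := by
  rw [KN, ← Fin.sum_univ_eq_sum_range (fun a => ((a : ℂ) + 1) * (x * conj y) ^ a)]
  refine Finset.sum_congr rfl fun a _ => ?_
  have h : ((Real.sqrt ((a : ℕ) + 1) : ℝ) : ℂ) * (Real.sqrt ((a : ℕ) + 1) : ℝ) = ((a : ℕ) : ℂ) + 1 := by
    rw [← Complex.ofReal_mul, Real.mul_self_sqrt (by positivity)]
    push_cast; rfl
  simp only [mono, map_mul, map_pow, Complex.conj_ofReal, mul_pow]
  rw [← h]; ring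

theorem exists_diag {r : ℝ} (h0 : 0 ≤ r) (h1 : r ≤ 1) {h : ℂ → ℝ} (hm : Measurable h)
    (hb : ∀ u, ‖u‖ < r → 0 ≤ h u ∧ h u ≤ 1) (N : ℕ) :
    ∃ (ψ : Fin N → ℂ → ℂ) (d : Fin N → ℝ), (∀ b, Continuous (ψ b)) ∧
      (∀ x y, ∑ b, ψ b x * conj (ψ b y) = KN N x y) ∧
      (∀ b c, ∫ u, (h u : ℂ) * (ψ b u * conj (ψ c u)) ∂mr r =
        Matrix.diagonal (fun b => (d b : ℂ)) b c) ∧ ∀ b, d b ≤ 1 := by
  have hbd : ∀ᵐ u ∂mr r, ‖(h u : ℂ)‖ ≤ 1 := by
    filter_upwards [ae_mr r] with u hu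
    rw [Complex.norm_real, Real.norm_eq_abs, abs_of_nonneg (hb u hu).1]
    exact (hb u hu).2
  have hint : ∀ g : ℂ → ℂ, Continuous g → Integrable (fun u => (h u : ℂ) * g u) (mr r) :=
    fun g hg => (integrable_of_cont hg r).bdd_mul
      (Complex.measurable_ofReal.comp hm).aestronglyMeasurable hbd
  let M : Matrix (Fin N) (Fin N) ℂ :=
    Matrix.of fun a b => ∫ u, (h u : ℂ) * (mono a u * conj (mono b u)) ∂mr r
  have hM : M.IsHermitian := by
    ext a b
    simp only [M, conjTranspose_apply, of_apply, RCLike.star_def]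
    rw [← integral_conj]
    refine integral_congr_ae (Filter.Eventually.of_forall fun u => ?_)
    simp [mul_comm]
  set U : Matrix (Fin N) (Fin N) ℂ := (hM.eigenvectorUnitary : Matrix (Fin N) (Fin N) ℂ) with hU
  have hU1 : U * star U = 1 := hM.eigenvectorUnitary.2.2
  have hU2 : star U * U = 1 := hM.eigenvectorUnitary.2.1
  have hD : star U * M * U = Matrix.diagonal fun b => (hM.eigenvalues b : ℂ) := by
    conv_lhs => rw [Pool.Agent.Lib.MatrixWeyl.herm_eq hM]
    rw [← hU, ← mul_assoc, ← mul_assoc, hU2, one_mul, mul_assoc, hU2, mul_one]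
  let ψ : Fin N → ℂ → ℂ := fun b u => ∑ a, conj (U a b) * mono a u
  have hψ : ∀ b, Continuous (ψ b) := fun b =>
    continuous_finsetSum _ fun a _ => (continuous_mono a).const_mul _
  have hG : ∀ b c, ∫ u, (h u : ℂ) * (ψ b u * conj (ψ c u)) ∂mr r =
      Matrix.diagonal (fun b => (hM.eigenvalues b : ℂ)) b c := by
    intro b c
    have e : ∀ u, (h u : ℂ) * (ψ b u * conj (ψ c u)) =
        ∑ a', ∑ a, (conj (U a b) * U a' c) * ((h u : ℂ) * (mono a u * conj (mono a' u))) := by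
      intro u
      simp only [ψ, map_sum, map_mul, Complex.conj_conj, Finset.sum_mul, Finset.mul_sum]
      refine Finset.sum_congr rfl fun a' _ => Finset.sum_congr rfl fun a _ => ?_
      ring
    have hi : ∀ a a' : Fin N, Integrable (fun u => (conj (U a b) * U a' c) *
        ((h u : ℂ) * (mono a u * conj (mono a' u)))) (mr r) := fun a a' =>
      (hint _ ((continuous_mono a).mul
        (Complex.continuous_conj.comp (continuous_mono a')))).const_mul _
    simp only [e]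
    rw [integral_finsetSum _ fun a' _ => integrable_finsetSum _ fun a _ => hi a a', ← hD,
      mul_apply]
    refine Finset.sum_congr rfl fun a' _ => ?_
    rw [integral_finsetSum _ fun a _ => hi a a', mul_apply, Finset.sum_mul]
    refine Finset.sum_congr rfl fun a _ => ?_
    rw [integral_const_mul]
    simp only [M, of_apply, star_apply, RCLike.star_def]
    ring
  refine ⟨ψ, hM.eigenvalues, hψ, ?_, hG, ?_⟩
  · intro x y
    rw [KN_eq]
    have e : ∀ b, ψ b x * conj (ψ b y) =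
        ∑ a' : Fin N, ∑ a : Fin N, (mono a x * conj (mono a' y)) * (U a' b * conj (U a b)) := by
      intro b
      simp only [ψ, map_sum, map_mul, Complex.conj_conj, Finset.sum_mul, Finset.mul_sum]
      refine Finset.sum_congr rfl fun a' _ => Finset.sum_congr rfl fun a _ => ?_
      ring
    simp only [e]
    rw [Finset.sum_comm]
    refine Finset.sum_congr rfl fun a' _ => ?_
    rw [Finset.sum_comm]
    have e2 : ∀ a : Fin N, ∑ b, (mono a x * conj (mono a' y)) * (U a' b * conj (U a b)) =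
        (mono a x * conj (mono a' y)) * (1 : Matrix (Fin N) (Fin N) ℂ) a' a := by
      intro a
      rw [← Finset.mul_sum, ← hU1, mul_apply]
      rfl
    simp only [e2, one_apply]
    simp
  · intro b
    have h2 := hG b b
    rw [diagonal_apply_eq] at h2
    have e : ∀ u, (h u : ℂ) * (ψ b u * conj (ψ b u)) = ((h u * ‖ψ b u‖ ^ 2 : ℝ) : ℂ) := by
      intro u
      rw [Complex.mul_conj, Complex.normSq_eq_norm_sq]; push_cast; rfl
    simp only [e] at h2
    rw [integral_complex_ofReal] at h2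
    have h3 : hM.eigenvalues b = ∫ u, h u * ‖ψ b u‖ ^ 2 ∂mr r := by exact_mod_cast h2.symm
    have hi2 : Integrable (fun u => ‖ψ b u‖ ^ 2) (mr r) :=
      integrable_of_cont ((hψ b).norm.pow 2) r
    have h4 : ∫ u, h u * ‖ψ b u‖ ^ 2 ∂mr r ≤ ∫ u, ‖ψ b u‖ ^ 2 ∂mr r := by
      refine integral_mono_of_nonneg ?_ hi2 ?_
      · filter_upwards [ae_mr r] with u hu using mul_nonneg (hb u hu).1 (by positivity)
      · filter_upwards [ae_mr r] with u hu using mul_le_of_le_one_left (by positivity) (hb u hu).2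
    let c : ℕ → ℂ := fun a => if ha : a < N then conj (U ⟨a, ha⟩ b) * Real.sqrt (a + 1) else 0
    have h5 := lintegral_poly_le N c h0 h1
    have e3 : ∀ u, ∑ a ∈ Finset.range N, c a * u ^ a = ψ b u := by
      intro u
      rw [← Fin.sum_univ_eq_sum_range (fun a => c a * u ^ a)]
      refine Finset.sum_congr rfl fun a _ => ?_
      simp only [c, a.2, dif_pos, mono, Fin.eta]
      ring
    have e4 : ∑ a ∈ Finset.range N, ‖c a‖ ^ 2 / (a + 1) = 1 := by
      rw [← Fin.sum_univ_eq_sum_range (fun a => ‖c a‖ ^ 2 / (a + 1))]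
      have h6 : (star U * U) b b = 1 := by rw [hU2, one_apply_eq]
      rw [mul_apply] at h6
      have h7 : ((∑ a, ‖U a b‖ ^ 2 : ℝ) : ℂ) = 1 := by
        rw [← h6]
        push_cast
        refine Finset.sum_congr rfl fun a _ => ?_
        rw [star_apply, RCLike.star_def, mul_comm, Complex.mul_conj, Complex.normSq_eq_norm_sq]
        push_cast; rfl
      refine Eq.trans ?_ (show (∑ a, ‖U a b‖ ^ 2 : ℝ) = 1 by exact_mod_cast h7)
      refine Finset.sum_congr rfl fun a _ => ?_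
      simp only [c, a.2, dif_pos, Fin.eta, norm_mul, Complex.norm_conj, Complex.norm_real,
        Real.norm_eq_abs, mul_pow, sq_abs]
      rw [Real.sq_sqrt (by positivity)]
      field_simp
    simp only [e3, e4] at h5
    rw [← ofReal_integral_eq_lintegral_ofReal hi2
      (Filter.Eventually.of_forall fun u => by positivity),
      ENNReal.ofReal_le_ofReal_iff zero_le_one] at h5
    rw [h3]
    exact h4.trans h5

end Pool.Agent.MP_7cfdbb_an

end

-- part MP_7cfdbb_an.Laplace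
section

/-! Upper bound for multiplicative functionals smaller than one. -/

namespace Pool.Agent.MP_7cfdbb_an

open MeasureTheory Metric Matrix Filter
open scoped ENNReal ComplexConjugate ComplexOrder Topology

theorem KN_diag (N : ℕ) (u : ℂ) :
    (KN N u u).re = ∑ a ∈ Finset.range N, ((a : ℝ) + 1) * (‖u‖ ^ 2) ^ a := by
  have : KN N u u = ((∑ a ∈ Finset.range N, ((a : ℝ) + 1) * (‖u‖ ^ 2) ^ a : ℝ) : ℂ) := by
    simp only [KN, Complex.mul_conj, Complex.normSq_eq_norm_sq]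
    push_cast; rfl
  rw [this, Complex.ofReal_re]

theorem tendsto_KN_diag {u : ℂ} (hu : ‖u‖ < 1) :
    Tendsto (fun N => (KN N u u).re) atTop (𝓝 (rho1 u)) := by
  have := (Complex.continuous_re.tendsto _).comp (tendsto_KN hu hu)
  rwa [K_diag, Complex.ofReal_re] at this

theorem KN_diag_nonneg (N : ℕ) (u : ℂ) : 0 ≤ (KN N u u).re := by
  rw [KN_diag]; positivity

theorem KN_diag_le (N : ℕ) {u : ℂ} (hu : ‖u‖ < 1) : (KN N u u).re ≤ rho1 u := by
  refine Monotone.ge_of_tendsto (f := fun N => (KN N u u).re) ?_ (tendsto_KN_diag hu) N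
  refine monotone_nat_of_le_succ fun n => ?_
  simp only [KN_diag, Finset.sum_range_succ]
  have : 0 ≤ ((n : ℝ) + 1) * (‖u‖ ^ 2) ^ n := by positivity
  linarith

theorem rho1_le {r : ℝ} (h1 : r < 1) {u : ℂ} (hu : ‖u‖ < r) : rho1 u ≤ ((1 - r ^ 2) ^ 2)⁻¹ := by
  unfold rho1
  have h0 := norm_nonneg u
  have : 0 < 1 - r ^ 2 := by nlinarith
  have : 1 - r ^ 2 ≤ 1 - ‖u‖ ^ 2 := by nlinarith
  gcongr

/-- Truncated correlation function. -/
noncomputable def rhoN (N : ℕ) {n : ℕ} (a : Fin n → ℂ) : ℝ :=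
  (Matrix.det (Matrix.of fun i j => KN N (a i) (a j))).re

theorem continuous_detN (N n : ℕ) :
    Continuous fun a : Fin n → ℂ => Matrix.det (Matrix.of fun i j => KN N (a i) (a j)) := by
  refine Continuous.matrix_det (continuous_matrix fun i j => ?_)
  simp only [KN, of_apply]
  fun_prop

theorem rhoN_le (N : ℕ) {n : ℕ} (a : Fin n → ℂ) (ha : ∀ i, ‖a i‖ < 1) :
    rhoN N a ≤ ∏ i, rho1 (a i) :=
  (hadamard n (KN_psd N a)).trans
    (Finset.prod_le_prod (fun _ _ => KN_diag_nonneg N _) fun i _ => KN_diag_le N (ha i))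

theorem tendsto_rhoN {n : ℕ} (a : Fin n → ℂ) (ha : ∀ i, ‖a i‖ < 1) :
    Tendsto (fun N => rhoN N a) atTop (𝓝 (rho a)) := by
  refine (Complex.continuous_re.tendsto _).comp ?_
  refine ((continuous_id.matrix_det (R := ℂ) (n := Fin n)).tendsto _).comp ?_
  exact tendsto_pi_nhds.mpr fun i => tendsto_pi_nhds.mpr fun j => tendsto_KN (ha i) (ha j)

section

variable {r : ℝ} (h0 : 0 ≤ r) (h1 : r < 1) {h : ℂ → ℝ} (hm : Measurable h)
  (hb : ∀ u, ‖u‖ < r → 0 ≤ h u ∧ h u ≤ 1)
include h1 hm hb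

theorem integrable_rho1_mul : Integrable (fun u => rho1 u * h u) (mr r) := by
  refine Integrable.of_bound (measurable_rho1.mul hm).aestronglyMeasurable ((1 - r ^ 2) ^ 2)⁻¹ ?_
  filter_upwards [ae_mr r] with u hu
  rw [Real.norm_eq_abs, abs_of_nonneg (mul_nonneg (rho1_nonneg u) (hb u hu).1)]
  exact (mul_le_of_le_one_right (rho1_nonneg u) (hb u hu).2).trans (rho1_le h1 hu)

omit hm in
theorem bound_aux {n : ℕ} {ρ : (Fin n → ℂ) → ℝ}
    (hρ : ∀ a, (∀ i, ‖a i‖ < 1) → 0 ≤ ρ a ∧ ρ a ≤ ∏ i, rho1 (a i)) :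
    ∀ᵐ a ∂(Measure.pi fun _ : Fin n => mr r),
      ‖ρ a * ∏ i, h (a i)‖ ≤ ∏ i, (rho1 (a i) * h (a i)) := by
  filter_upwards [ae_pi_mr (ι := Fin n) r] with a ha
  have h2 := hρ a fun i => (ha i).trans h1
  have h3 : 0 ≤ ∏ i, h (a i) := Finset.prod_nonneg fun i _ => (hb _ (ha i)).1
  rw [Real.norm_eq_abs, abs_of_nonneg (mul_nonneg h2.1 h3), Finset.prod_mul_distrib]
  exact mul_le_mul_of_nonneg_right h2.2 h3

theorem integrable_bound (n : ℕ) : Integrable (fun a : Fin n → ℂ => ∏ i, (rho1 (a i) * h (a i)))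
    (Measure.pi fun _ : Fin n => mr r) :=
  Integrable.fintype_prod (f := fun _ u => rho1 u * h u) fun _ => integrable_rho1_mul h1 hm hb

theorem norm_integral_le {n : ℕ} {ρ : (Fin n → ℂ) → ℝ}
    (hρ : ∀ a, (∀ i, ‖a i‖ < 1) → 0 ≤ ρ a ∧ ρ a ≤ ∏ i, rho1 (a i)) :
    ‖∫ a, ρ a * ∏ i, h (a i) ∂(Measure.pi fun _ : Fin n => mr r)‖ ≤
      (∫ u, rho1 u * h u ∂mr r) ^ n := by
  refine (norm_integral_le_of_norm_le (integrable_bound h1 hm hb n) (bound_aux h1 hb hρ)).trans ?_
  rw [integral_fintype_prod_eq_pow (fun u => rho1 u * h u), Fintype.card_fin]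

include h0 in
theorem fredholm_trunc (N : ℕ) :
    ∑' n : ℕ, (n.factorial : ℝ)⁻¹ * ((-1) ^ n *
      ∫ a, rhoN N a * ∏ i, h (a i) ∂(Measure.pi fun _ : Fin n => mr r)) ≤
      Real.exp (-∫ u, (KN N u u).re * h u ∂mr r) := by
  obtain ⟨ψ, d, hψ, hK, hG, hd⟩ := exists_diag h0 h1.le hm hb N
  have hbd : ∀ᵐ u ∂mr r, ‖(h u : ℂ)‖ ≤ 1 := by
    filter_upwards [ae_mr r] with u hu
    rw [Complex.norm_real, Real.norm_eq_abs, abs_of_nonneg (hb u hu).1]
    exact (hb u hu).2
  have hint : ∀ b c, Integrable (fun u => (h u : ℂ) * (ψ b u * conj (ψ c u))) (mr r) :=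
    fun b c => (integrable_of_cont ((hψ b).mul (Complex.continuous_conj.comp (hψ c))) r).bdd_mul
      (Complex.measurable_ofReal.comp hm).aestronglyMeasurable hbd
  have e1 : ∀ n : ℕ, ∫ a, rhoN N a * ∏ i, h (a i) ∂(Measure.pi fun _ : Fin n => mr r) =
      ∑ f ∈ tup (Fin n) (Finset.univ : Finset (Fin N)), ∏ i, d (f i) := by
    intro n
    have h2 := andreief ψ (fun u => (h u : ℂ)) (fun b => (d b : ℂ)) hint hG n
    simp only [hK] at h2
    have h3 : ∀ a : Fin n → ℂ, (Matrix.of fun i j => KN N (a i) (a j)).det * ∏ i, (h (a i) : ℂ) =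
        ((rhoN N a * ∏ i, h (a i) : ℝ) : ℂ) := by
      intro a
      push_cast
      congr 1
      exact Complex.ext (by simp [rhoN]) (by simp [det_im_eq (KN_psd N a).1])
    simp only [h3] at h2
    rw [integral_complex_ofReal] at h2
    exact_mod_cast h2
  have e2 : ∫ u, (KN N u u).re * h u ∂mr r = ∑ b, d b := by
    have h2 : ∫ u, ∑ b, (h u : ℂ) * (ψ b u * conj (ψ b u)) ∂mr r = ∑ b, (d b : ℂ) := by
      rw [integral_finsetSum _ fun b _ => hint b b]
      simp only [hG, diagonal_apply_eq]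
    have h3 : ∀ u, ∑ b, (h u : ℂ) * (ψ b u * conj (ψ b u)) = (((KN N u u).re * h u : ℝ) : ℂ) := by
      intro u
      rw [← Finset.mul_sum, hK, mul_comm]
      push_cast
      congr 1
      have := (KN_psd N (fun _ : Fin 1 => u)).diag_nonneg (i := 0)
      exact Complex.ext (by simp) (by simpa using (Complex.le_def.mp this).2.symm)
    simp only [h3] at h2
    rw [integral_complex_ofReal] at h2
    exact_mod_cast h2
  have h4 := hasSum_prod_one_add (Finset.univ : Finset (Fin N)) fun b => -d b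
  simp only [Finset.prod_neg, Finset.card_univ, Fintype.card_fin, ← Finset.mul_sum] at h4
  simp only [e1, e2]
  rw [h4.tsum_eq, ← Finset.sum_neg_distrib, Real.exp_sum]
  refine Finset.prod_le_prod (fun b _ => by linarith [hd b]) fun b _ => ?_
  linarith [Real.add_one_le_exp (-d b)]

include h0 in
theorem fredholm :
    ∑' n : ℕ, (n.factorial : ℝ)⁻¹ * ((-1) ^ n *
      ∫ a, rho a * ∏ i, h (a i) ∂(Measure.pi fun _ : Fin n => mr r)) ≤
      Real.exp (-∫ u, rho1 u * h u ∂mr r) := by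
  have hρ : ∀ N n, ∀ a : Fin n → ℂ, (∀ i, ‖a i‖ < 1) →
      0 ≤ rhoN N a ∧ rhoN N a ≤ ∏ i, rho1 (a i) :=
    fun N n a ha => ⟨det_re_nonneg (KN_psd N a), rhoN_le N a ha⟩
  refine le_of_tendsto_of_tendsto' (b := atTop) ?_ ?_ (fredholm_trunc h0 h1 hm hb)
  · refine tendsto_tsum_of_dominated_convergence
      (bound := fun n => (∫ u, rho1 u * h u ∂mr r) ^ n / n.factorial)
      (Real.summable_pow_div_factorial _) (fun n => ?_) (Eventually.of_forall fun N n => ?_)
    · refine Tendsto.const_mul _ (Tendsto.const_mul _ ?_)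
      refine tendsto_integral_of_dominated_convergence _ (fun N => ?_)
        (integrable_bound h1 hm hb n) (fun N => bound_aux h1 hb (hρ N n)) ?_
      · refine Measurable.aestronglyMeasurable (Measurable.mul ?_ ?_)
        · exact (Complex.continuous_re.comp (continuous_detN N n)).measurable
        · exact Finset.measurable_prod _ fun i _ => hm.comp (measurable_pi_apply i)
      · filter_upwards [ae_pi_mr (ι := Fin n) r] with a ha
        exact (tendsto_rhoN a fun i => (ha i).trans h1).mul_const _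
    · rw [norm_mul, norm_mul, norm_pow, norm_neg, norm_one, one_pow, one_mul, div_eq_inv_mul,
        Real.norm_eq_abs, abs_of_nonneg (by positivity)]
      gcongr
      exact norm_integral_le h1 hm hb (hρ N n)
  · refine (Real.continuous_exp.tendsto _).comp (Tendsto.neg ?_)
    refine tendsto_integral_of_dominated_convergence _ (fun N => ?_)
      (integrable_rho1_mul h1 hm hb) (fun N => ?_) ?_
    · refine Measurable.aestronglyMeasurable (Measurable.mul ?_ hm)
      simp only [KN_diag]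
      fun_prop
    · filter_upwards [ae_mr r] with u hu
      rw [Real.norm_eq_abs, abs_of_nonneg (mul_nonneg (KN_diag_nonneg N u) (hb u hu).1)]
      exact mul_le_mul_of_nonneg_right (KN_diag_le N (hu.trans h1)) (hb u hu).1
    · filter_upwards [ae_mr r] with u hu
      exact (tendsto_KN_diag (hu.trans h1)).mul_const _

end

variable {Ω : Type*} [MeasurableSpace Ω] {P : Measure Ω} {r : ℝ} {S : Ω → Finset ℂ}

/-- Laplace functional bound. -/
theorem FinProc.laplace [IsProbabilityMeasure P] (hP : FinProc P r S) {h : ℂ → ℝ}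
    (hm : Measurable h) (hb : ∀ u, ‖u‖ < r → 0 ≤ h u ∧ h u ≤ 1) :
    ∫⁻ ω, ENNReal.ofReal (∏ x ∈ S ω, (1 - h x)) ∂P ≤
      ENNReal.ofReal (Real.exp (-∫ u, rho1 u * h u ∂mr r)) := by
  have h0 := hP.r_pos.le
  have h1 := hP.r_lt
  let E : ℕ → Ω → ℝ≥0∞ := fun n ω => ∑ a ∈ tup (Fin n) (S ω), ∏ i, ENNReal.ofReal (h (a i))
  let e : ℕ → Ω → ℝ := fun n ω => ∑ a ∈ tup (Fin n) (S ω), ∏ i, h (a i)
  have hmF : ∀ n, Measurable fun a : Fin n → ℂ => ∏ i, ENNReal.ofReal (h (a i)) := fun n =>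
    Finset.measurable_prod _ fun i _ => (hm.comp (measurable_pi_apply i)).ennreal_ofReal
  have hEm : ∀ n, Measurable (E n) := fun n =>
    measurable_sum_tup hP.meas (F := fun p => ∏ i, ENNReal.ofReal (h (p.2 i)))
      ((hmF n).comp measurable_snd)
  have hpos : ∀ n ω, ∀ a ∈ tup (Fin n) (S ω), ∀ i, 0 ≤ h (a i) := fun n ω a ha i =>
    (hb _ (hP.sub ω _ ((mem_tup.mp ha).1 i))).1
  have he0 : ∀ n ω, 0 ≤ e n ω := fun n ω =>
    Finset.sum_nonneg fun a ha => Finset.prod_nonneg fun i _ => hpos n ω a ha i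
  have heE : ∀ n ω, ENNReal.ofReal (e n ω) = E n ω := by
    intro n ω
    rw [ENNReal.ofReal_sum_of_nonneg fun a ha => Finset.prod_nonneg fun i _ => hpos n ω a ha i]
    exact Finset.sum_congr rfl fun a ha =>
      ENNReal.ofReal_prod_of_nonneg fun i _ => hpos n ω a ha i
  have hem : ∀ n, Measurable (e n) := by
    intro n
    have : e n = fun ω => (E n ω).toReal := by
      funext ω; rw [← heE, ENNReal.toReal_ofReal (he0 n ω)]
    rw [this]; exact (hEm n).ennreal_toReal
  have hρ : ∀ n, ∀ a : Fin n → ℂ, (∀ i, ‖a i‖ < 1) → 0 ≤ rho a ∧ rho a ≤ ∏ i, rho1 (a i) :=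
    fun n a ha => ⟨rho_nonneg a ha, rho_le_prod a ha⟩
  have hint : ∀ n, Integrable (fun a : Fin n → ℂ => rho a * ∏ i, h (a i))
      (Measure.pi fun _ => mr r) := fun n =>
    (integrable_bound h1 hm hb n).mono' (measurable_rho.mul
      (Finset.measurable_prod _ fun i _ => hm.comp (measurable_pi_apply i))).aestronglyMeasurable
      (bound_aux h1 hb (hρ n))
  have hnn : ∀ n, 0 ≤ᵐ[Measure.pi fun _ : Fin n => mr r] fun a => rho a * ∏ i, h (a i) := by
    intro n
    filter_upwards [ae_pi_mr (ι := Fin n) r] with a ha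
    exact mul_nonneg (rho_nonneg a fun i => (ha i).trans h1)
      (Finset.prod_nonneg fun i _ => (hb _ (ha i)).1)
  have hl : ∀ n, ∫⁻ ω, ENNReal.ofReal (e n ω) ∂P =
      ENNReal.ofReal (∫ a, rho a * ∏ i, h (a i) ∂(Measure.pi fun _ : Fin n => mr r)) := by
    intro n
    simp only [heE, E]
    rw [hP.corr_fin n (hmF n), ofReal_integral_eq_lintegral_ofReal (hint n) (hnn n)]
    refine lintegral_congr_ae ?_
    filter_upwards [ae_pi_mr (ι := Fin n) r] with a ha
    rw [ENNReal.ofReal_mul (rho_nonneg a fun i => (ha i).trans h1),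
      ENNReal.ofReal_prod_of_nonneg fun i _ => (hb _ (ha i)).1]
  have hei : ∀ n, Integrable (e n) P := fun n =>
    ⟨(hem n).aestronglyMeasurable, by
      rw [hasFiniteIntegral_iff_ofReal (Eventually.of_forall (he0 n)), hl]
      exact ENNReal.ofReal_lt_top⟩
  have hI : ∀ n, ∫ ω, e n ω ∂P =
      ∫ a, rho a * ∏ i, h (a i) ∂(Measure.pi fun _ : Fin n => mr r) := by
    intro n
    rw [integral_eq_lintegral_of_nonneg_ae (Eventually.of_forall (he0 n))
      (hem n).aestronglyMeasurable, hl, ENNReal.toReal_ofReal (integral_nonneg_of_ae (hnn n))]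
  have hs : ∀ ω, HasSum (fun n : ℕ => (n.factorial : ℝ)⁻¹ * ((-1) ^ n * e n ω))
      (∏ x ∈ S ω, (1 - h x)) := by
    intro ω
    have h4 := hasSum_prod_one_add (S ω) fun b => -h b
    simp only [Finset.prod_neg, Finset.card_univ, Fintype.card_fin, ← Finset.mul_sum,
      ← sub_eq_add_neg] at h4
    exact h4
  have h5 := hasSum_integral_of_summable_integral_norm (μ := P)
    (F := fun (n : ℕ) ω => (n.factorial : ℝ)⁻¹ * ((-1) ^ n * e n ω))
    (fun n => ((hei n).const_mul _).const_mul _) (by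
      refine Summable.of_nonneg_of_le (fun n => integral_nonneg fun ω => norm_nonneg _)
        (fun n => ?_) (Real.summable_pow_div_factorial (∫ u, rho1 u * h u ∂mr r))
      have : ∀ ω, ‖(n.factorial : ℝ)⁻¹ * ((-1) ^ n * e n ω)‖ = (n.factorial : ℝ)⁻¹ * e n ω := by
        intro ω
        rw [norm_mul, norm_mul, norm_pow, norm_neg, norm_one, one_pow, one_mul, Real.norm_eq_abs,
          Real.norm_eq_abs, abs_of_nonneg (by positivity), abs_of_nonneg (he0 n ω)]
      simp only [this]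
      rw [integral_const_mul, hI, div_eq_inv_mul]
      gcongr
      exact (le_abs_self _).trans (norm_integral_le h1 hm hb (hρ n)))
  simp only [fun ω => (hs ω).tsum_eq, integral_const_mul, hI] at h5
  have h6 := fredholm h0 h1 hm hb
  rw [h5.tsum_eq] at h6
  have hp0 : ∀ ω, 0 ≤ ∏ x ∈ S ω, (1 - h x) := fun ω =>
    Finset.prod_nonneg fun x hx => by linarith [(hb x (hP.sub ω x hx)).2]
  have hp1 : ∀ ω, ∏ x ∈ S ω, (1 - h x) ≤ 1 := fun ω =>
    Finset.prod_le_one (fun x hx => by linarith [(hb x (hP.sub ω x hx)).2])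
      fun x hx => by linarith [(hb x (hP.sub ω x hx)).1]
  have hpm : Measurable fun ω => ∏ x ∈ S ω, (1 - h x) :=
    measurable_of_tendsto_metrizable (f := fun N ω => ∑ n ∈ Finset.range N,
      (n.factorial : ℝ)⁻¹ * ((-1) ^ n * e n ω))
      (fun N => Finset.measurable_sum _ fun n _ => ((hem n).const_mul _).const_mul _)
      (tendsto_pi_nhds.mpr fun ω => (hs ω).tendsto_sum_nat)
  rw [← ofReal_integral_eq_lintegral_ofReal (Integrable.of_bound hpm.aestronglyMeasurable 1
    (Eventually.of_forall fun ω => by rw [Real.norm_eq_abs, abs_of_nonneg (hp0 ω)]; exact hp1 ω))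
    (Eventually.of_forall hp0)]
  exact ENNReal.ofReal_le_ofReal h6

end Pool.Agent.MP_7cfdbb_an

end

-- part MP_7cfdbb_an.Moments
section

/-! Positive and negative moments of the Blaschke product of the configuration. -/

namespace Pool.Agent.MP_7cfdbb_an

open MeasureTheory Metric Filter
open scoped ENNReal

/-- Finite Blaschke product. -/
noncomputable def Bl (T : Finset ℂ) (w : ℂ) : ℂ := ∏ a ∈ T, phi a w

theorem measurable_Bl (T : Finset ℂ) : Measurable (Bl T) :=
  Finset.measurable_prod _ fun _ _ => measurable_phi2 measurable_const measurable_id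

theorem differentiableAt_Bl {T : Finset ℂ} (hT : ∀ a ∈ T, ‖a‖ < 1) {w : ℂ} (hw : ‖w‖ ≤ 1) :
    DifferentiableAt ℂ (Bl T) w := by
  have := DifferentiableAt.fun_finsetProd (𝕜 := ℂ) (u := T) (f := fun a => phi a) (x := w)
    fun a ha => differentiableAt_phi (hT a ha) hw
  exact this

theorem norm_Bl_le_one {T : Finset ℂ} (hT : ∀ a ∈ T, ‖a‖ < 1) {w : ℂ} (hw : ‖w‖ ≤ 1) :
    ‖Bl T w‖ ≤ 1 := by
  rw [Bl, norm_prod]
  exact Finset.prod_le_one (fun _ _ => norm_nonneg _) fun a ha => norm_phi_le_one (hT a ha) hw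

/-- The basic integral. -/
noncomputable def Ir (r : ℝ) (w : ℂ) : ℝ := Real.log (1 - ‖w‖ ^ 2 * r ^ 2) - Real.log (1 - r ^ 2)

theorem one_sub_mul_pos {w : ℂ} (hw : ‖w‖ ≤ 1) {r : ℝ} (h0 : 0 ≤ r) (h1 : r < 1) :
    0 < 1 - r ^ 2 ∧ 1 - r ^ 2 ≤ 1 - ‖w‖ ^ 2 * r ^ 2 := by
  have : ‖w‖ ^ 2 ≤ 1 := by nlinarith [norm_nonneg w]
  constructor <;> nlinarith [sq_nonneg r]

theorem Ir_nonneg {w : ℂ} (hw : ‖w‖ ≤ 1) {r : ℝ} (h0 : 0 ≤ r) (h1 : r < 1) : 0 ≤ Ir r w := by
  have h := one_sub_mul_pos hw h0 h1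
  exact sub_nonneg.mpr (Real.log_le_log h.1 h.2)

theorem exp_neg_Ir {w : ℂ} (hw : ‖w‖ ≤ 1) {r : ℝ} (h0 : 0 ≤ r) (h1 : r < 1) :
    Real.exp (-Ir r w) = (1 - r ^ 2) / (1 - ‖w‖ ^ 2 * r ^ 2) := by
  have h := one_sub_mul_pos hw h0 h1
  rw [Ir, neg_sub, Real.exp_sub, Real.exp_log h.1, Real.exp_log (h.1.trans_le h.2)]

theorem one_sub_pow_le {t : ℝ} (h0 : 0 ≤ t) (h1 : t ≤ 1) (p : ℕ) :
    (1 - t) ^ p ≤ 1 - p * t + (p : ℝ) ^ 2 * t ^ 2 := by
  induction p with
  | zero => simp
  | succ p ih =>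
    rw [pow_succ]
    have h2 := mul_le_mul_of_nonneg_right ih (show 0 ≤ 1 - t by linarith)
    push_cast
    have hp : (0 : ℝ) ≤ p := p.cast_nonneg
    nlinarith [mul_nonneg (sq_nonneg (p : ℝ)) (mul_nonneg (sq_nonneg t) h0),
      mul_nonneg hp (sq_nonneg t), sq_nonneg t]

theorem lintegral_rho1_tt_sq' {w : ℂ} (hw : ‖w‖ < 1) {r : ℝ} (h1 : r ≤ 1) :
    ∫⁻ u, ENNReal.ofReal (rho1 u * tt w u ^ 2) ∂mr r ≤ ENNReal.ofReal 1 := by
  refine (lintegral_mono' (mr_le r h1) le_rfl).trans ?_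
  have h := lintegral_phi hw fun _ => 1
  simp only [mul_one, lintegral_const, one_mul] at h
  have h2 : mr 1 Set.univ = ENNReal.ofReal 1 := by
    rw [mr, Measure.restrict_apply_univ, mu0_ball]; simp
  rw [← h2, ← h]
  refine le_of_eq (lintegral_congr_ae ?_)
  filter_upwards [ae_mr 1] with u hu
  rw [tt_sq_mul_rho1 hw hu]

variable {Ω : Type*} [MeasurableSpace Ω] {P : Measure Ω} {r : ℝ} {S : Ω → Finset ℂ}

theorem FinProc.sub1 (hP : FinProc P r S) (ω : Ω) : ∀ a ∈ S ω, ‖a‖ < 1 :=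
  fun a ha => (hP.sub ω a ha).trans hP.r_lt

/-- Positive moments. -/
theorem FinProc.moment_pos [IsProbabilityMeasure P] (hP : FinProc P r S) {w : ℂ} (hw : ‖w‖ < 1)
    (p : ℕ) : ∫⁻ ω, ENNReal.ofReal (‖Bl (S ω) w‖ ^ (2 * p)) ∂P ≤
      ENNReal.ofReal (Real.exp ((p : ℝ) ^ 2) * ((1 - r ^ 2) / (1 - ‖w‖ ^ 2 * r ^ 2)) ^ p) := by
  have h0 := hP.r_pos.le
  have h1 := hP.r_lt
  have hmt : Measurable fun u => tt w u := measurable_tt2 measurable_const measurable_id
  have ht : ∀ u : ℂ, ‖u‖ < r → 0 ≤ tt w u ∧ tt w u ≤ 1 := fun u hu =>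
    ⟨tt_nonneg hw.le (hu.trans h1).le, tt_le_one hw (hu.trans h1).le⟩
  have hb : ∀ u : ℂ, ‖u‖ < r → 0 ≤ 1 - (1 - tt w u) ^ p ∧ 1 - (1 - tt w u) ^ p ≤ 1 := by
    intro u hu
    have := ht u hu
    exact ⟨sub_nonneg.mpr (pow_le_one₀ (by linarith) (by linarith)),
      sub_le_self _ (pow_nonneg (by linarith) _)⟩
  have hb2 : ∀ u : ℂ, ‖u‖ < r → 0 ≤ tt w u ^ 2 ∧ tt w u ^ 2 ≤ 1 := fun u hu =>
    ⟨sq_nonneg _, pow_le_one₀ (ht u hu).1 (ht u hu).2⟩
  have hm : Measurable fun u => 1 - (1 - tt w u) ^ p :=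
    measurable_const.sub ((measurable_const.sub hmt).pow_const p)
  have h := hP.laplace hm hb
  have e : ∀ ω, ‖Bl (S ω) w‖ ^ (2 * p) = ∏ x ∈ S ω, (1 - (1 - (1 - tt w x) ^ p)) := by
    intro ω
    rw [Bl, norm_prod, ← Finset.prod_pow]
    refine Finset.prod_congr rfl fun x hx => ?_
    rw [pow_mul, norm_phi_sq (hP.sub1 ω x hx) hw.le, tt_symm]; ring
  simp only [e]
  refine h.trans (ENNReal.ofReal_le_ofReal ?_)
  have i1 := integrable_rho1_mul h1 hmt ht
  have i2 := integrable_rho1_mul h1 (hmt.pow_const 2) hb2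
  have n1 : 0 ≤ᵐ[mr r] fun u => rho1 u * tt w u := by
    filter_upwards [ae_mr r] with u hu using mul_nonneg (rho1_nonneg u) (ht u hu).1
  have n2 : 0 ≤ᵐ[mr r] fun u => rho1 u * tt w u ^ 2 :=
    Eventually.of_forall fun u => mul_nonneg (rho1_nonneg u) (sq_nonneg _)
  have I1 : ∫ u, rho1 u * tt w u ∂mr r = Ir r w := by
    have := lintegral_rho1_tt hw h0 h1
    rw [← ofReal_integral_eq_lintegral_ofReal i1 n1] at this
    exact (ENNReal.ofReal_eq_ofReal_iff (integral_nonneg_of_ae n1) (Ir_nonneg hw.le h0 h1)).mp this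
  have I2 : ∫ u, rho1 u * tt w u ^ 2 ∂mr r ≤ 1 := by
    have := lintegral_rho1_tt_sq' hw h1.le
    rwa [← ofReal_integral_eq_lintegral_ofReal i2 n2,
      ENNReal.ofReal_le_ofReal_iff zero_le_one] at this
  have I3 : p * Ir r w - (p : ℝ) ^ 2 ≤ ∫ u, rho1 u * (1 - (1 - tt w u) ^ p) ∂mr r := by
    calc p * Ir r w - (p : ℝ) ^ 2
        ≤ p * Ir r w - (p : ℝ) ^ 2 * ∫ u, rho1 u * tt w u ^ 2 ∂mr r := by
          nlinarith [sq_nonneg (p : ℝ)]
      _ = ∫ u, (p * (rho1 u * tt w u) - (p : ℝ) ^ 2 * (rho1 u * tt w u ^ 2)) ∂mr r := by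
          rw [integral_sub (i1.const_mul _) (i2.const_mul _), integral_const_mul,
            integral_const_mul, I1]
      _ ≤ _ := by
          refine integral_mono_ae ((i1.const_mul _).sub (i2.const_mul _))
            (integrable_rho1_mul h1 hm hb) ?_
          filter_upwards [ae_mr r] with u hu
          have := one_sub_pow_le (ht u hu).1 (ht u hu).2 p
          nlinarith [rho1_nonneg u]
  rw [← exp_neg_Ir hw.le h0 h1, ← Real.exp_nat_mul, ← Real.exp_add]
  exact Real.exp_le_exp.mpr (by linarith)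

theorem measurable_norm_Bl (hS : ∀ B, MeasurableSet B → Measurable fun ω => cnt (S ω) B) (k : ℕ) :
    Measurable fun p : Ω × ℂ => ENNReal.ofReal (‖Bl (S p.1) p.2‖ ^ k) := by
  have h := measurable_prod_pts (Ω := Ω × ℂ) (S := fun p => S p.1)
    (fun B hB => (hS B hB).comp measurable_fst)
    (g := fun q => ENNReal.ofReal (‖phi q.2 q.1.2‖ ^ k))
    (((measurable_phi2 measurable_snd (measurable_snd.comp measurable_fst)).norm.pow_const
      k).ennreal_ofReal)
  have e : (fun p : Ω × ℂ => ENNReal.ofReal (‖Bl (S p.1) p.2‖ ^ k)) =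
      fun p => ∏ x ∈ S p.1, ENNReal.ofReal (‖phi x p.2‖ ^ k) := by
    funext p
    rw [Bl, norm_prod, ← Finset.prod_pow, ENNReal.ofReal_prod_of_nonneg fun _ _ => by positivity]
  rw [e]; exact h

theorem lintegral_neg {y : ℂ} (hy : ‖y‖ < 1) {r : ℝ} (h0 : 0 ≤ r) (h1 : r < 1) :
    ∫⁻ u, ENNReal.ofReal (rho1 u) * ((ENNReal.ofReal ‖phi u y‖)⁻¹ - 1) ∂mr r ≤
      ENNReal.ofReal (Ir r y / 2 + 3) := by
  have hmt : Measurable fun u => tt y u := measurable_tt2 measurable_const measurable_id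
  have hne : ∀ᵐ u ∂mr r, u ≠ y := by
    have : mr r {y} = 0 := by
      refine le_antisymm (Measure.restrict_le_self _ |>.trans ?_) zero_le
      simp [mu0]
    rw [ae_iff]; simpa using this
  calc _ ≤ ∫⁻ u, (ENNReal.ofReal (1 / 2) * ENNReal.ofReal (rho1 u * tt y u) +
        ENNReal.ofReal (3 / 2) * ENNReal.ofReal (rho1 u * tt y u ^ 2 * ‖phi y u‖⁻¹)) ∂mr r := by
        refine lintegral_mono_ae ?_
        filter_upwards [ae_mr r, hne] with u hu hne
        have hu1 := hu.trans h1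
        have hτ : 0 < ‖phi y u‖ := norm_pos_iff.mpr (phi_ne_zero hy hu1.le hne)
        have hτ1 := norm_phi_le_one hy hu1.le
        have ht := norm_phi_sq hy hu1.le
        have ht0 := tt_nonneg hy.le hu1.le
        have hρ := rho1_nonneg u
        rw [norm_phi_symm u y, ← ENNReal.ofReal_inv_of_pos hτ, ← ENNReal.ofReal_one,
          ← ENNReal.ofReal_sub _ zero_le_one, ← ENNReal.ofReal_mul hρ,
          ← ENNReal.ofReal_mul (by norm_num), ← ENNReal.ofReal_mul (by norm_num),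
          ← ENNReal.ofReal_add (by positivity) (by positivity)]
        refine ENNReal.ofReal_le_ofReal ?_
        generalize ‖phi y u‖ = τ at hτ hτ1 ht
        have e : tt y u = 1 - τ ^ 2 := by linarith
        have : τ⁻¹ - 1 ≤ 1 / 2 * tt y u + 3 / 2 * (tt y u ^ 2 * τ⁻¹) := by
          rw [e, ← sub_nonneg]
          have e2 : 1 / 2 * (1 - τ ^ 2) + 3 / 2 * ((1 - τ ^ 2) ^ 2 * τ⁻¹) - (τ⁻¹ - 1) =
              (1 - τ) ^ 2 * (3 * (1 + τ) ^ 2 - (2 + τ)) / (2 * τ) := by
            field_simp; ring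
          rw [e2]
          exact div_nonneg (mul_nonneg (sq_nonneg _) (by nlinarith)) (by positivity)
        nlinarith
    _ ≤ _ := by
        have m1 : Measurable fun u => ENNReal.ofReal (rho1 u * tt y u) :=
          (measurable_rho1.mul hmt).ennreal_ofReal
        rw [lintegral_add_left (m1.const_mul _), lintegral_const_mul' _ _ ENNReal.ofReal_ne_top,
          lintegral_const_mul' _ _ ENNReal.ofReal_ne_top, lintegral_rho1_tt hy h0 h1,
          ENNReal.ofReal_add (by linarith [Ir_nonneg hy.le h0 h1]) (by norm_num),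
          ← ENNReal.ofReal_mul (by norm_num)]
        refine add_le_add (le_of_eq (by rw [Ir]; congr 1; ring)) ?_
        calc _ ≤ ENNReal.ofReal (3 / 2) * ENNReal.ofReal 2 := by
              gcongr; exact lintegral_rho1_tt_sq hy h1.le
          _ = _ := by rw [← ENNReal.ofReal_mul (by norm_num)]; norm_num

theorem prod_inv_eq {T : Finset ℂ} (hT : ∀ a ∈ T, ‖a‖ < 1) {y : ℂ} (hy : ‖y‖ ≤ 1) :
    ∏ u ∈ T, (1 + ((ENNReal.ofReal ‖phi u y‖)⁻¹ - 1)) = (ENNReal.ofReal ‖Bl T y‖)⁻¹ := by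
  rw [Bl, norm_prod, ENNReal.ofReal_prod_of_nonneg fun _ _ => norm_nonneg _,
    ENNReal.prod_inv_distrib fun _ _ _ _ _ => Or.inr ENNReal.ofReal_ne_top]
  refine Finset.prod_congr rfl fun u hu => add_tsub_cancel_of_le ?_
  rw [ENNReal.one_le_inv, ENNReal.ofReal_le_one]
  exact norm_phi_le_one (hT u hu) hy

theorem FinProc.neg_eq (hP : FinProc P r S) {ι : Type*} [Fintype ι] [DecidableEq ι]
    {ψ : (ι → ℂ) → ℝ≥0∞} {y : (ι → ℂ) → ℂ} (hb : ∀ a, ψ a ≠ 0 → ‖y a‖ < 1) (ω : Ω) :
    ∑ a ∈ tup ι (S ω), ψ a * (ENNReal.ofReal ‖Bl (S ω \ Finset.univ.image a) (y a)‖)⁻¹ =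
      ∑ a ∈ tup ι (S ω), ψ a * ∏ u ∈ S ω \ Finset.univ.image a,
        (1 + ((ENNReal.ofReal ‖phi u (y a)‖)⁻¹ - 1)) := by
  refine Finset.sum_congr rfl fun a _ => ?_
  by_cases ha : ψ a = 0
  · simp [ha]
  · rw [prod_inv_eq (fun u hu => hP.sub1 ω u (Finset.mem_sdiff.mp hu).1) (hb a ha).le]

theorem measurable_neg_aux {ι : Type*} {y : (ι → ℂ) → ℂ} (hy : Measurable y) :
    Measurable fun q : (ι → ℂ) × ℂ => (ENNReal.ofReal ‖phi q.2 (y q.1)‖)⁻¹ - 1 :=
  (measurable_phi2 measurable_snd (hy.comp measurable_fst)).norm.ennreal_ofReal.inv.sub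
    measurable_const

theorem FinProc.measurable_neg (hP : FinProc P r S) {ι : Type*} [Fintype ι] [DecidableEq ι]
    {ψ : (ι → ℂ) → ℝ≥0∞} (hψ : Measurable ψ) {y : (ι → ℂ) → ℂ} (hy : Measurable y)
    (hb : ∀ a, ψ a ≠ 0 → ‖y a‖ < 1) : Measurable fun ω =>
    ∑ a ∈ tup ι (S ω), ψ a * (ENNReal.ofReal ‖Bl (S ω \ Finset.univ.image a) (y a)‖)⁻¹ := by
  simp only [hP.neg_eq hb]
  exact hP.measurable_palm_prod hψ
    (g := fun q : (ι → ℂ) × ℂ => (ENNReal.ofReal ‖phi q.2 (y q.1)‖)⁻¹ - 1) (measurable_neg_aux hy)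

/-- Negative moments under Palm measures. -/
theorem FinProc.moment_neg (hP : FinProc P r S) {ι : Type*} [Fintype ι] [DecidableEq ι]
    {ψ : (ι → ℂ) → ℝ≥0∞} (hψ : Measurable ψ) {y : (ι → ℂ) → ℂ} (hy : Measurable y) {c : ℝ}
    (hc : 0 ≤ c) (hb : ∀ a, ψ a ≠ 0 → ‖y a‖ < 1 ∧ Ir r (y a) / 2 + 3 ≤ c) :
    ∫⁻ ω, ∑ a ∈ tup ι (S ω), ψ a * (ENNReal.ofReal ‖Bl (S ω \ Finset.univ.image a) (y a)‖)⁻¹ ∂P ≤
      ENNReal.ofReal (Real.exp c) *
        ∫⁻ a, ENNReal.ofReal (rho a) * ψ a ∂(Measure.pi fun _ => mr r) := by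
  simp only [hP.neg_eq fun a ha => (hb a ha).1]
  refine hP.palm_prod hψ (g := fun q : (ι → ℂ) × ℂ => (ENNReal.ofReal ‖phi q.2 (y q.1)‖)⁻¹ - 1)
    (measurable_neg_aux hy) hc fun a ha => ?_
  exact (lintegral_neg (hb a ha).1 hP.r_pos.le hP.r_lt).trans
    (ENNReal.ofReal_le_ofReal (hb a ha).2)

theorem exp_Ir_half {w : ℂ} (hw : ‖w‖ ≤ 1) {r : ℝ} (h0 : 0 ≤ r) (h1 : r < 1) :
    Real.exp (Ir r w / 2) = Real.sqrt ((1 - ‖w‖ ^ 2 * r ^ 2) / (1 - r ^ 2)) := by
  have h := one_sub_mul_pos hw h0 h1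
  rw [Real.exp_half, Ir, Real.exp_sub, Real.exp_log h.1, Real.exp_log (h.1.trans_le h.2)]

/-- Lower tail of the Blaschke product at the origin. -/
theorem FinProc.tail_zero (hP : FinProc P r S) {θ : ℝ} (hθ : 0 < θ) :
    P {ω | ‖Bl (S ω) 0‖ < θ * Real.sqrt (1 - r ^ 2)} ≤ ENNReal.ofReal (Real.exp 3 * θ) := by
  have h0 := hP.r_pos.le
  have h1 := hP.r_lt
  have hε : 0 < 1 - r ^ 2 := (one_sub_mul_pos (w := 0) (by simp) h0 h1).1
  have hs : 0 < Real.sqrt (1 - r ^ 2) := Real.sqrt_pos.mpr hε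
  have e : ∀ ω, ∑ a ∈ tup (Fin 0) (S ω), (1 : ℝ≥0∞) *
      (ENNReal.ofReal ‖Bl (S ω \ Finset.univ.image a) 0‖)⁻¹ = (ENNReal.ofReal ‖Bl (S ω) 0‖)⁻¹ := by
    intro ω
    have : tup (Fin 0) (S ω) = {Fin.elim0} := by
      ext a
      simp only [mem_tup, IsEmpty.forall_iff, true_and, Finset.mem_singleton]
      exact ⟨fun _ => Subsingleton.elim _ _, fun _ i => i.elim0⟩
    simp [this]
  have hm := hP.measurable_neg (ι := Fin 0) (ψ := fun _ => 1) measurable_const (y := fun _ => 0)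
    measurable_const (by simp)
  have h := hP.moment_neg (ι := Fin 0) (ψ := fun _ => 1) measurable_const (y := fun _ => 0)
    measurable_const (c := Ir r 0 / 2 + 3) (by linarith [Ir_nonneg (w := 0) (by simp) h0 h1])
    (by simp)
  simp only [e] at hm h
  have e2 : ∫⁻ a : Fin 0 → ℂ, ENNReal.ofReal (rho a) * 1 ∂(Measure.pi fun _ => mr r) = 1 := by
    simp [rho]
  rw [e2, mul_one, Real.exp_add, exp_Ir_half (by simp) h0 h1] at h
  have h2 := meas_ge_le_lintegral_div (μ := P) hm.aemeasurable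
    (ε := (ENNReal.ofReal (θ * Real.sqrt (1 - r ^ 2)))⁻¹) (by simp) (by simp; positivity)
  refine le_trans (measure_mono fun ω hω => ?_) (h2.trans ?_)
  · exact ENNReal.inv_le_inv.mpr (ENNReal.ofReal_le_ofReal (le_of_lt hω))
  · rw [ENNReal.div_eq_inv_mul, inv_inv]
    refine (mul_le_mul_right h _).trans (le_of_eq ?_)
    rw [← ENNReal.ofReal_mul (by positivity)]
    congr 1
    simp only [norm_zero, ne_eq, OfNat.ofNat_ne_zero, not_false_eq_true, zero_pow, zero_mul,
      sub_zero, one_div, Real.sqrt_inv]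
    field_simp

end Pool.Agent.MP_7cfdbb_an

end

-- part MP_7cfdbb_an.Geo
section

/-! Boxes near the boundary circle, and good pairs. -/

namespace Pool.Agent.MP_7cfdbb_an

open MeasureTheory Metric Set
open scoped ENNReal ComplexConjugate

/-- A rotated rectangle. -/
def Rect (lam : ℂ) (a b c : ℝ) : Set ℂ :=
  {y | a < (conj lam * y).re ∧ (conj lam * y).re < b ∧ |(conj lam * y).im| < c}

theorem measurableSet_Rect (lam : ℂ) (a b c : ℝ) : MeasurableSet (Rect lam a b c) := by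
  have h1 : Measurable fun y : ℂ => (conj lam * y).re := by fun_prop
  have h2 : Measurable fun y : ℂ => |(conj lam * y).im| := by fun_prop
  exact (measurableSet_lt measurable_const h1).inter
    ((measurableSet_lt h1 measurable_const).inter (measurableSet_lt h2 measurable_const))

theorem mu0_Rect {lam : ℂ} (hl : ‖lam‖ = 1) {a b c : ℝ} (hab : a ≤ b) :
    mu0 (Rect lam a b c) = ENNReal.ofReal ((b - a) * (2 * c) / Real.pi) := by
  let u : Circle := ⟨conj lam, by simp [Submonoid.unitSphere, hl]⟩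
  have h1 := (rotation u).measurePreserving
  have h2 := Complex.volume_preserving_equiv_real_prod.comp h1
  have e : Rect lam a b c =
      (Complex.measurableEquivRealProd ∘ rotation u) ⁻¹' (Ioo a b ×ˢ Ioo (-c) c) := by
    ext y
    simp only [Rect, mem_ofPred_eq, mem_preimage, Function.comp_apply, mem_prod, mem_Ioo, abs_lt,
      Complex.measurableEquivRealProd_apply, and_assoc]
    rfl
  rw [mu0, Measure.smul_apply, e,
    h2.measure_preimage (measurableSet_Ioo.prod measurableSet_Ioo).nullMeasurableSet,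
    Measure.volume_eq_prod, Measure.prod_prod, Real.volume_Ioo, Real.volume_Ioo, smul_eq_mul,
    ← ENNReal.ofReal_mul (by linarith), ← ENNReal.ofReal_inv_of_pos Real.pi_pos,
    ← ENNReal.ofReal_mul (by positivity)]
  congr 1
  field_simp
  ring

theorem Rect_thick {lam : ℂ} (hl : ‖lam‖ = 1) {a b c e : ℝ} {y u : ℂ} (hy : y ∈ Rect lam a b c)
    (hu : ‖u - y‖ ≤ e) : u ∈ Rect lam (a - e) (b + e) (c + e) := by
  have h1 : ‖conj lam * u - conj lam * y‖ ≤ e := by
    rw [← mul_sub, norm_mul, Complex.norm_conj, hl, one_mul]; exact hu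
  have h2 := (Complex.abs_re_le_norm _).trans h1
  have h3 := (Complex.abs_im_le_norm _).trans h1
  rw [Complex.sub_re, abs_le] at h2
  rw [Complex.sub_im, abs_le] at h3
  obtain ⟨h4, h5, h6⟩ := hy
  rw [abs_lt] at h6
  exact ⟨by linarith, by linarith, abs_lt.mpr ⟨by linarith, by linarith⟩⟩

/-- The box of a sector. -/
def Box (lam : ℂ) (δ h κ : ℝ) : Set ℂ :=
  Rect lam (1 - δ * (1 + κ)) (1 - δ * (1 + κ / 2)) (h / 2)

/-- Conditions on the parameters of a level. -/
structure Par (δ h κ η : ℝ) : Prop where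
  δ_pos : 0 < δ
  δ_le : 8 * δ ≤ h
  h_le : h ≤ 1 / 8
  κ_pos : 0 < κ
  κ_le : κ ≤ 1 / 8
  h_sq : h ^ 2 ≤ 2 * δ * κ
  η_pos : 0 < η
  η_le : η ≤ 1 / 16

theorem Par.norm_ge {δ h κ η : ℝ} (_ : Par δ h κ η) {lam y : ℂ} (hl : ‖lam‖ = 1)
    (hy : y ∈ Box lam δ h κ) : 1 - δ * (1 + κ) ≤ ‖y‖ := by
  have h1 : ‖conj lam * y‖ = ‖y‖ := by rw [norm_mul, Complex.norm_conj, hl, one_mul]
  rw [← h1]
  exact hy.1.le.trans (Complex.re_le_norm _)

theorem Par.norm_le {δ h κ η : ℝ} (p : Par δ h κ η) {lam y : ℂ} (hl : ‖lam‖ = 1)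
    (hy : y ∈ Box lam δ h κ) : ‖y‖ ≤ 1 - δ := by
  have h1 : ‖conj lam * y‖ = ‖y‖ := by rw [norm_mul, Complex.norm_conj, hl, one_mul]
  obtain ⟨h2, h3, h4⟩ := hy
  have h5 := p.δ_pos; have h6 := p.δ_le; have h7 := p.h_le; have h8 := p.κ_pos
  have h9 := p.κ_le; have h10 := p.h_sq
  rw [← h1]
  generalize conj lam * y = v at h2 h3 h4
  have hδκ : δ * κ ≤ δ := by nlinarith
  have hδκ0 : 0 < δ * κ := by positivity
  refine abs_le_of_sq_le_sq' ?_ (by linarith) |>.2
  rw [Complex.sq_norm, Complex.normSq_apply]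
  have h11 : v.im * v.im ≤ h ^ 2 / 4 := by
    have := abs_lt.mp h4
    nlinarith
  have h12 : v.re * v.re ≤ (1 - δ * (1 + κ / 2)) ^ 2 := by nlinarith
  nlinarith

theorem Par.dist_le {δ h κ η : ℝ} (p : Par δ h κ η) {lam y : ℂ} (hl : ‖lam‖ = 1)
    (hy : y ∈ Box lam δ h κ) : ‖y - lam‖ ≤ 3 / 4 * h := by
  have h0 : conj lam * lam = 1 := by
    rw [mul_comm, Complex.mul_conj, Complex.normSq_eq_norm_sq, hl]; simp
  have h1 : ‖conj lam * y - 1‖ = ‖y - lam‖ := by
    rw [← h0, ← mul_sub, norm_mul, Complex.norm_conj, hl, one_mul]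
  obtain ⟨h2, h3, h4⟩ := hy
  have h5 := p.δ_pos; have h6 := p.δ_le; have h8 := p.κ_pos; have h9 := p.κ_le
  rw [← h1]
  refine (Complex.norm_le_abs_re_add_abs_im _).trans ?_
  have hδκ : δ * κ ≤ δ := by nlinarith
  have hδκ0 : 0 < δ * κ := by positivity
  have h7 : |(conj lam * y - 1).re| ≤ 2 * δ := by
    rw [Complex.sub_re, Complex.one_re, abs_le]; constructor <;> nlinarith
  have h10 : |(conj lam * y - 1).im| ≤ h / 2 := by
    rw [Complex.sub_im, Complex.one_im, sub_zero]; exact h4.le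
  linarith

/-- A good pair of points of `T` in the box. -/
structure Good (T : Finset ℂ) (lam : ℂ) (δ h κ η m M : ℝ) (y x : ℂ) : Prop where
  y_mem : y ∈ T
  x_mem : x ∈ T
  ne : x ≠ y
  box : y ∈ Box lam δ h κ
  close : ‖x - y‖ ≤ η * δ
  lower : m ≤ ‖Bl (T \ {y, x}) y‖
  upper : ∀ w, ‖w - y‖ ≤ δ / 4 → ‖Bl T w‖ ≤ M

end Pool.Agent.MP_7cfdbb_an

end
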