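import Mathlib
import Pool.Agent.MP_7cfdbb_an.Mg.Geo

-- part MP_7cfdbb_an.Poisson
section

/-! Discrete Poisson sums over roots of unity. -/

namespace Pool.Agent.MP_7cfdbb_an

open Finset
open scoped ComplexConjugate

/-- Roots of unity. -/
noncomputable def rt (n s : ℕ) : ℂ := Complex.exp (2 * Real.pi * Complex.I / n) ^ s

theorem norm_rt {n : ℕ} (hn : n ≠ 0) (s : ℕ) : ‖rt n s‖ = 1 := by
  rw [rt, norm_pow, (Complex.isPrimitiveRoot_exp n hn).norm'_eq_one hn, one_pow]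

theorem norm_one_sub_pow_le {u : ℂ} (hu : ‖u‖ = 1) (k : ℕ) : ‖1 - u ^ k‖ ≤ k * ‖1 - u‖ := by
  induction k with
  | zero => simp
  | succ k ih =>
    have e : 1 - u ^ (k + 1) = (1 - u ^ k) * u + (1 - u) := by ring
    rw [e]
    refine (norm_add_le _ _).trans ?_
    rw [norm_mul, hu]; push_cast; linarith

theorem root_sep {u : ℂ} {n : ℕ} (hn : n ≠ 0) (hu : ‖u‖ = 1) (h1 : u ^ n = 1) (h2 : u ≠ 1) :
    2 / n ≤ ‖1 - u‖ := by
  have h3 : ∑ k ∈ range n, u ^ k = 0 := by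
    rw [geom_sum_eq h2, h1, sub_self, zero_div]
  have h4 : (n : ℂ) = ∑ k ∈ range n, (1 - u ^ k) := by
    rw [sum_sub_distrib, h3]; simp
  have h5 : (n : ℝ) ≤ ∑ k ∈ range n, (k : ℝ) * ‖1 - u‖ := by
    have := norm_sum_le_of_le (range n) fun k _ => norm_one_sub_pow_le hu k
    rwa [← h4, Complex.norm_natCast] at this
  have h6 : ∀ m : ℕ, ∑ k ∈ range m, (k : ℝ) ≤ (m : ℝ) ^ 2 / 2 := by
    intro m
    induction m with
    | zero => simp
    | succ m ih => rw [sum_range_succ]; push_cast; nlinarith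
  rw [← sum_mul] at h5
  have hn0 : (0 : ℝ) < n := by positivity
  have h7 := mul_le_mul_of_nonneg_right (h6 n) (norm_nonneg (1 - u))
  rw [div_le_iff₀ hn0]
  nlinarith

theorem rt_sep {n s t : ℕ} (hs : s < n) (ht : t < n) (hst : s ≠ t) :
    2 / n ≤ ‖rt n s - rt n t‖ := by
  have hn : n ≠ 0 := by omega
  have hp := Complex.isPrimitiveRoot_exp n hn
  have h0 : rt n s ≠ 0 := by rw [← norm_pos_iff, norm_rt hn]; exact one_pos
  have h1 := root_sep (u := rt n t / rt n s) hn (by rw [norm_div, norm_rt hn, norm_rt hn, div_one])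
    (by rw [div_pow, rt, rt, ← pow_mul, ← pow_mul, mul_comm t, mul_comm s, pow_mul, pow_mul,
      hp.pow_eq_one, one_pow, one_pow, div_one])
    (fun h => hst (hp.pow_inj hs ht ((div_eq_one_iff_eq h0).mp h).symm))
  rwa [one_sub_div h0, norm_div, norm_rt hn, div_one] at h1

theorem sum_inv_den {n : ℕ} (hn : n ≠ 0) {a : ℂ} (ha : ‖a‖ < 1) :
    ∑ s ∈ range n, (den (rt n s) a)⁻¹ = n / (1 - a ^ n) := by
  have hp : IsPrimitiveRoot (conj (Complex.exp (2 * Real.pi * Complex.I / n))) n :=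
    (Complex.isPrimitiveRoot_exp n hn).map_of_injective (f := starRingEnd ℂ)
      (starRingEnd ℂ).injective
  set ζ := conj (Complex.exp (2 * Real.pi * Complex.I / n)) with hζ
  have han : 1 - a ^ n ≠ 0 := by
    intro h
    have h1 : ‖a ^ n‖ < 1 := by rw [norm_pow]; exact pow_lt_one₀ (norm_nonneg a) ha hn
    rw [← sub_eq_zero.mp h] at h1
    simp at h1
  have h1 : ∀ s, (den (rt n s) a)⁻¹ = (∑ k ∈ range n, (ζ ^ k) ^ s * a ^ k) / (1 - a ^ n) := by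
    intro s
    have h2 : den (rt n s) a = 1 - ζ ^ s * a := by rw [den, rt, map_pow]
    have h3 : den (rt n s) a ≠ 0 := by
      rw [← norm_pos_iff]
      exact lt_of_lt_of_le (by linarith) (norm_den_ge_right (norm_rt hn s).le)
    have h4 := mul_neg_geom_sum (ζ ^ s * a) n
    rw [mul_pow, ← pow_mul, mul_comm s, pow_mul, hp.pow_eq_one, one_pow, one_mul, ← h2] at h4
    rw [eq_div_iff han, ← h4, ← mul_assoc, inv_mul_cancel₀ h3, one_mul]
    refine sum_congr rfl fun k _ => ?_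
    rw [mul_pow, ← pow_mul, ← pow_mul, mul_comm s]
  simp only [h1]
  rw [← sum_div, sum_comm]
  congr 1
  rw [sum_eq_single 0]
  · simp
  · intro k hk hk0
    rw [← sum_mul, geom_sum_eq (hp.pow_ne_one_of_pos_of_lt hk0 (mem_range.mp hk)), ← pow_mul,
      mul_comm k, pow_mul, hp.pow_eq_one]
    simp
  · intro h; exact absurd (mem_range.mpr (Nat.pos_of_ne_zero hn)) h

/-- The Poisson kernel. -/
noncomputable def Pk (lam w : ℂ) : ℝ := (1 - ‖w‖ ^ 2) / ‖den lam w‖ ^ 2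

theorem Pk_nonneg (lam : ℂ) {w : ℂ} (hw : ‖w‖ ≤ 1) : 0 ≤ Pk lam w :=
  div_nonneg (one_sub_sq_nonneg hw) (by positivity)

theorem re_inv_one_sub {u : ℂ} (hu : 1 - u ≠ 0) :
    2 * (1 - u)⁻¹.re - 1 = (1 - ‖u‖ ^ 2) / ‖1 - u‖ ^ 2 := by
  have h : 0 < ‖1 - u‖ ^ 2 := by positivity
  rw [Complex.inv_re, eq_div_iff h.ne', Complex.normSq_eq_norm_sq]
  field_simp
  simp only [← Complex.normSq_eq_norm_sq, Complex.normSq_apply]
  simp
  ring

theorem sum_Pk {n : ℕ} (hn : n ≠ 0) {a : ℂ} (ha : ‖a‖ < 1) :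
    n - 2 / (1 - ‖a‖) ≤ ∑ s ∈ range n, Pk (rt n s) a ∧
      ∑ s ∈ range n, Pk (rt n s) a ≤ n + 2 / (1 - ‖a‖) := by
  have hn0 : (0 : ℝ) < n := by positivity
  have hd : 0 < 1 - ‖a‖ := by linarith
  have hb : ‖a ^ n‖ * (1 + n * (1 - ‖a‖)) ≤ 1 := by
    rw [norm_pow]
    have h1 := one_add_mul_le_pow (a := 1 - ‖a‖) (by linarith) n
    have h2 : (‖a‖ * (1 + (1 - ‖a‖))) ^ n ≤ 1 :=
      pow_le_one₀ (by positivity) (by nlinarith)
    rw [mul_pow] at h2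
    exact (mul_le_mul_of_nonneg_left h1 (by positivity)).trans h2
  have hb1 : ‖a ^ n‖ < 1 := by rw [norm_pow]; exact pow_lt_one₀ (norm_nonneg a) ha hn
  have h2 := norm_sub_norm_le 1 (a ^ n)
  have h3 := norm_sub_le 1 (a ^ n)
  rw [norm_one] at h2 h3
  have h4 : 0 < ‖1 - a ^ n‖ := by linarith
  have h1 : ∑ s ∈ range n, Pk (rt n s) a = n * ((1 - ‖a ^ n‖ ^ 2) / ‖1 - a ^ n‖ ^ 2) := by
    have h5 : ∀ s, Pk (rt n s) a = 2 * (den (rt n s) a)⁻¹.re - 1 := by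
      intro s
      have h6 : den (rt n s) a ≠ 0 := by
        rw [← norm_pos_iff]
        exact lt_of_lt_of_le hd (norm_den_ge_right (norm_rt hn s).le)
      rw [den, re_inv_one_sub h6, norm_mul, Complex.norm_conj, norm_rt hn, one_mul, Pk, den]
    simp only [h5]
    rw [sum_sub_distrib, ← mul_sum, ← Complex.re_sum, sum_inv_den hn ha,
      ← re_inv_one_sub (norm_pos_iff.mp h4), div_eq_mul_inv, ← Complex.ofReal_natCast,
      Complex.re_ofReal_mul]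
    simp
    ring
  rw [h1]
  have hβ := norm_nonneg (a ^ n)
  generalize ‖a ^ n‖ = β at *
  generalize ‖1 - a ^ n‖ = N at *
  generalize 1 - ‖a‖ = d at *
  have h5 : n * β ≤ 1 / d * (1 - β) := by
    rw [div_mul_eq_mul_div, le_div_iff₀ hd]; nlinarith
  have h6 : 0 < 1 / d := by positivity
  rw [show 2 / d = 2 * (1 / d) by ring]
  constructor
  · have h7 : 1 - 2 * β ≤ (1 - β ^ 2) / N ^ 2 := by
      rw [le_div_iff₀ (by positivity)]
      rcases le_total (1 - 2 * β) 0 with h | h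
      · nlinarith [sq_nonneg N]
      · have : N ^ 2 ≤ (1 + β) ^ 2 := by gcongr
        nlinarith [mul_nonneg hβ (sq_nonneg β)]
    nlinarith
  · have h7 : (1 - β ^ 2) / N ^ 2 ≤ (1 + β) / (1 - β) := by
      rw [div_le_div_iff₀ (by positivity) (by linarith)]
      have : (1 - β) ^ 2 ≤ N ^ 2 := by gcongr
      nlinarith
    refine (mul_le_mul_of_nonneg_left h7 hn0.le).trans ?_
    rw [← mul_div_assoc, div_le_iff₀ (by linarith)]
    nlinarith

theorem norm_den_sub_left (a b : ℂ) {w : ℂ} (hw : ‖w‖ ≤ 1) :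
    |‖den a w‖ - ‖den b w‖| ≤ ‖a - b‖ := by
  rw [norm_den_symm a, norm_den_symm b]
  exact (abs_norm_sub_norm_le _ _).trans (norm_den_sub w a b hw)

/-- The basic bound for a sum over one level. -/
theorem sum_inv_den_sq {n : ℕ} {δ : ℝ} (hδ : 0 < δ) (hn : δ ≤ 1 / n) {A : Finset ℕ}
    (hA : A ⊆ range n) {y : ℕ → ℂ} (hy : ∀ s ∈ A, ‖y s - rt n s‖ ≤ 1 / n ∧ ‖y s‖ ≤ 1 - δ)
    {w : ℂ} (hw : ‖w‖ ≤ 1) :
    ∑ s ∈ A, (‖den (y s) w‖ ^ 2)⁻¹ ≤
      224 * (((1 - ‖w‖ + δ) ^ 2)⁻¹ + n * (1 - ‖w‖ + δ)⁻¹) := by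
  have hn0 : n ≠ 0 := by rintro rfl; simp at hn; linarith
  have hn1 : (1 : ℝ) ≤ n := by exact_mod_cast Nat.pos_of_ne_zero hn0
  set h : ℝ := 1 / n with hh
  have hh0 : 0 < h := by positivity
  have hh1 : h ≤ 1 := by rw [hh, div_le_one (by linarith)]; exact hn1
  have hnh : n * h = 1 := by rw [hh]; field_simp
  set D := 1 - ‖w‖ + δ with hD
  have hD0 : 0 < D := by linarith
  set a : ℂ := ((1 - h : ℝ) : ℂ) * w with ha
  have hna : ‖a‖ = (1 - h) * ‖w‖ := by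
    rw [ha, norm_mul, Complex.norm_real, Real.norm_eq_abs, abs_of_nonneg (by linarith)]
  have hw0 := norm_nonneg w
  have hρ1 : h ≤ 1 - ‖a‖ := by nlinarith
  have hρ2 : D / 2 ≤ 1 - ‖a‖ := by nlinarith
  have haw : ‖w - a‖ ≤ h := by
    rw [show w - a = (h : ℂ) * w by rw [ha]; push_cast; ring, norm_mul, Complex.norm_real,
      Real.norm_eq_abs, abs_of_pos hh0]
    nlinarith
  have h1 := (sum_Pk hn0 (a := a) (by linarith)).2
  have h2 : ∀ s ∈ A, (‖den (y s) w‖ ^ 2)⁻¹ ≤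
      (4 + 64 * h ^ 2 * (D ^ 2)⁻¹) / (1 - ‖a‖) * Pk (rt n s) a := by
    intro s hs
    obtain ⟨y1, y2⟩ := hy s hs
    have e1 := norm_den_ge_left (a := y s) hw
    have e2 := norm_den_ge_right (a := y s) (w := w) (by linarith)
    have e3 := abs_le.mp (norm_den_sub_left (y s) (rt n s) hw)
    have e4 := abs_le.mp ((abs_norm_sub_norm_le _ _).trans
      (norm_den_sub (rt n s) w a (norm_rt hn0 s).le))
    have e5 := norm_den_ge_right (a := rt n s) (w := a) (norm_rt hn0 s).le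
    have e6 : (‖den (rt n s) a‖ ^ 2)⁻¹ ≤ (1 - ‖a‖)⁻¹ * Pk (rt n s) a := by
      rw [Pk, div_eq_mul_inv, ← mul_assoc]
      refine le_mul_of_one_le_left (by positivity) ?_
      rw [← div_eq_inv_mul, le_div_iff₀ (by linarith)]
      nlinarith [norm_nonneg a]
    rw [div_eq_mul_inv, mul_assoc]
    refine le_trans ?_ (mul_le_mul_of_nonneg_left e6 (by positivity))
    generalize ‖den (rt n s) a‖ = N at *
    generalize ‖den (y s) w‖ = Y at *
    have hN : 0 < N := by linarith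
    have hY : D / 2 ≤ Y := by linarith
    have hY0 : 0 < Y := by linarith
    rw [← div_eq_mul_inv, le_div_iff₀ (by positivity), ← div_eq_inv_mul,
      div_le_iff₀ (by positivity)]
    rcases le_total N (4 * h) with h' | h'
    · have e7 : N ^ 2 ≤ (4 * h) ^ 2 := by gcongr
      have e8 : (D / 2) ^ 2 ≤ Y ^ 2 := by gcongr
      have e9 : 64 * h ^ 2 * (D ^ 2)⁻¹ * (D / 2) ^ 2 = (4 * h) ^ 2 := by field_simp; norm_num
      have e10 : 0 ≤ 64 * h ^ 2 * (D ^ 2)⁻¹ := by positivity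
      nlinarith [mul_le_mul_of_nonneg_left e8 e10]
    · have e7 : N ^ 2 ≤ (2 * Y) ^ 2 := by gcongr; linarith
      have e10 : 0 ≤ 64 * h ^ 2 * (D ^ 2)⁻¹ * Y ^ 2 := by positivity
      nlinarith
  have h3 : ∑ s ∈ A, Pk (rt n s) a ≤ n + 2 / (1 - ‖a‖) :=
    (sum_le_sum_of_subset_of_nonneg hA fun s _ _ => Pk_nonneg _ (by linarith)).trans h1
  refine (sum_le_sum h2).trans ?_
  rw [← mul_sum]
  generalize 1 - ‖a‖ = ρ at *
  have hρ : 0 < ρ := by linarith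
  refine (mul_le_mul_of_nonneg_left h3 (by positivity)).trans ?_
  have e1 : ρ⁻¹ ≤ 2 * D⁻¹ := by
    rw [← div_eq_mul_inv, ← inv_div]; gcongr
  have e2 : h * ρ⁻¹ ≤ 1 := by rw [← div_eq_mul_inv, div_le_one hρ]; exact hρ1
  have e3 : 0 < ρ⁻¹ := by positivity
  have e4 : 0 < D⁻¹ := by positivity
  have e5 : ρ⁻¹ ^ 2 ≤ (2 * D⁻¹) ^ 2 := by gcongr
  have e6 : (h * ρ⁻¹) ^ 2 ≤ 1 := pow_le_one₀ (by positivity) e2
  have e7 : h ^ 2 * (n * ρ⁻¹ + 2 * ρ⁻¹ ^ 2) ≤ 3 := by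
    have : h ^ 2 * (n * ρ⁻¹) = h * ρ⁻¹ := by linear_combination (h * ρ⁻¹) * hnh
    nlinarith
  rw [← inv_pow]
  calc _ = 4 * (n * ρ⁻¹ + 2 * ρ⁻¹ ^ 2) + 64 * D⁻¹ ^ 2 * (h ^ 2 * (n * ρ⁻¹ + 2 * ρ⁻¹ ^ 2)) := by
        rw [div_eq_mul_inv, div_eq_mul_inv]; ring
    _ ≤ 4 * (n * (2 * D⁻¹) + 2 * (2 * D⁻¹) ^ 2) + 64 * D⁻¹ ^ 2 * 3 := by gcongr
    _ ≤ _ := by nlinarith [mul_pos (lt_of_lt_of_le one_pos hn1) e4]

theorem phi_le_exp {a w : ℂ} (ha : ‖a‖ < 1) (hw : ‖w‖ ≤ 1) {g : ℝ} (hg : g ≤ tt a w / 2) :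
    ‖phi a w‖ ≤ Real.exp (-g) := by
  refine abs_le_of_sq_le_sq' ?_ (Real.exp_pos _).le |>.2
  rw [norm_phi_sq ha hw, ← Real.exp_nat_mul]
  have := Real.add_one_le_exp ((2 : ℕ) * -g)
  push_cast at this ⊢
  linarith

theorem exp_le_phi {a w : ℂ} (ha : ‖a‖ < 1) (hw : ‖w‖ ≤ 1) {g : ℝ} (h1 : tt a w < 1)
    (hg : tt a w ≤ 2 * g * (1 - tt a w)) : Real.exp (-g) ≤ ‖phi a w‖ := by
  refine abs_le_of_sq_le_sq' ?_ (norm_nonneg _) |>.2
  rw [norm_phi_sq ha hw, ← Real.exp_nat_mul, mul_neg, Real.exp_neg, inv_eq_one_div,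
    div_le_iff₀ (Real.exp_pos _)]
  have := Real.add_one_le_exp ((2 : ℕ) * g)
  push_cast at this ⊢
  nlinarith

theorem phi_ge {a w : ℂ} (ha : ‖a‖ < 1) (hw : ‖w‖ ≤ 1) {c : ℝ} (hc : 0 ≤ c)
    (h : 1 - ‖a‖ ≤ c * ‖w - a‖) : 1 / (2 * c + 1) ≤ ‖phi a w‖ := by
  have h1 := norm_den_le a w ha.le
  rw [norm_phi, div_le_div_iff₀ (by positivity) (norm_den_pos ha hw)]
  nlinarith [norm_nonneg a]

variable {δ h κ η : ℝ} {lam y : ℂ}

theorem Par.norm_lt (p : Par δ h κ η) (hl : ‖lam‖ = 1) (hy : y ∈ Box lam δ h κ) : ‖y‖ < 1 := by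
  linarith [p.norm_le hl hy, p.δ_pos]

theorem Par.depth_le (p : Par δ h κ η) (hl : ‖lam‖ = 1) (hy : y ∈ Box lam δ h κ) :
    1 - ‖y‖ ≤ 9 / 8 * δ := by
  nlinarith [p.norm_ge hl hy, p.δ_pos, p.κ_le]

theorem Par.sq_le (p : Par δ h κ η) (hl : ‖lam‖ = 1) (hy : y ∈ Box lam δ h κ) :
    1 - ‖y‖ ^ 2 ≤ 9 / 4 * δ := by
  nlinarith [p.depth_le hl hy, sq_nonneg (1 - ‖y‖)]

theorem Par.phi_off (p : Par δ h κ η) (hl : ‖lam‖ = 1) (hy : y ∈ Box lam δ h κ) {w : ℂ}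
    (hw : ‖w‖ ≤ 1) (hoff : δ / 8 ≤ ‖w - y‖) : 1 / 20 ≤ ‖phi y w‖ := by
  have := phi_ge (p.norm_lt hl hy) hw (c := 9) (by norm_num) (by linarith [p.depth_le hl hy])
  linarith

theorem Par.x_lt (p : Par δ h κ η) (hl : ‖lam‖ = 1) (hy : y ∈ Box lam δ h κ) {x : ℂ}
    (hx : ‖x - y‖ ≤ η * δ) : ‖x - y‖ ≤ δ / 16 ∧ ‖x‖ ≤ 1 - δ / 2 := by
  have h1 : ‖x - y‖ ≤ δ / 16 := by nlinarith [p.δ_pos, p.η_le]
  have := norm_le_insert' x y
  exact ⟨h1, by linarith [p.norm_le hl hy, p.δ_pos]⟩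

theorem Par.phi_off' (p : Par δ h κ η) (hl : ‖lam‖ = 1) (hy : y ∈ Box lam δ h κ) {x : ℂ}
    (hx : ‖x - y‖ ≤ η * δ) {w : ℂ} (hw : ‖w‖ ≤ 1) (hoff : δ / 8 ≤ ‖w - y‖) :
    1 / 40 ≤ ‖phi x w‖ := by
  obtain ⟨h1, h2⟩ := p.x_lt hl hy hx
  have h3 := norm_sub_le_norm_sub_add_norm_sub w x y
  have h4 := norm_le_insert x y
  have := phi_ge (a := x) (by linarith [p.δ_pos]) hw (c := 19) (by norm_num)
    (by linarith [p.depth_le hl hy])
  linarith

theorem Par.exp_off (p : Par δ h κ η) (hl : ‖lam‖ = 1) (hy : y ∈ Box lam δ h κ) {w : ℂ}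
    (hw : ‖w‖ ≤ 1) (hoff : δ / 8 ≤ ‖w - y‖) :
    Real.exp (-(900 * ((1 - ‖w‖) * δ) * (‖den y w‖ ^ 2)⁻¹)) ≤ ‖phi y w‖ := by
  have h0 := p.norm_lt hl hy
  have h1 := p.phi_off hl hy hw hoff
  have h2 := norm_phi_sq h0 hw
  have h3 : 1 / 400 ≤ 1 - tt y w := by nlinarith
  have h4 : tt y w ≤ 9 / 2 * ((1 - ‖w‖) * δ) * (‖den y w‖ ^ 2)⁻¹ := by
    rw [tt, div_eq_mul_inv]
    refine mul_le_mul_of_nonneg_right ?_ (by positivity)
    have h5 : 1 - ‖w‖ ^ 2 ≤ 2 * (1 - ‖w‖) := by nlinarith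
    have := mul_le_mul (p.sq_le hl hy) h5 (one_sub_sq_nonneg hw) (by linarith [p.δ_pos])
    linarith
  have h5 := tt_nonneg h0.le hw
  refine exp_le_phi h0 hw (by linarith) ?_
  nlinarith

theorem far_aux1 {Q t κ e : ℝ} (hQ : 0 ≤ Q) (ht : 0 ≤ t) (hκ : 0 ≤ κ) (hκ1 : κ ≤ 1 / 8)
    (he0 : 0 < e) (he : e ≤ 1 / 64) (hP2 : Q ≤ e / 4)
    (t1 : t * (1 - e) ^ 2 ≤ 2 * Q * (1 + κ)) :
    t < 1 ∧ t ≤ 2 * (Q * (1 + κ + 5 * e)) * (1 - t) := by
  have t3 : t ≤ e := by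
    have : (63 / 64) ^ 2 ≤ (1 - e) ^ 2 := by gcongr; linarith
    nlinarith
  have a1 : 1 + κ ≤ (1 + κ + 5 * e) * (1 - e) * (1 - e) ^ 2 := by
    have : 1 - 3 * e ≤ (1 - e) * (1 - e) ^ 2 := by nlinarith [mul_pos he0 he0]
    nlinarith
  have a0 : 0 < 1 - e := by linarith
  have a2 : 0 < (1 - e) ^ 2 := by positivity
  have a3 : t ≤ 2 * Q * ((1 + κ + 5 * e) * (1 - e)) := by
    refine le_of_mul_le_mul_right ?_ a2
    nlinarith
  have a4 : 2 * Q * (1 + κ + 5 * e) * (1 - e) ≤ 2 * Q * (1 + κ + 5 * e) * (1 - t) := by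
    gcongr
  exact ⟨by linarith, by linarith⟩

theorem far_aux2 {Q t e : ℝ} (hQ : 0 ≤ Q) (he0 : 0 < e)
    (t2 : Q * (2 - e) ≤ t * (1 + e) ^ 2) : Q * (1 - 3 * e) ≤ t / 2 := by
  have a1 : 2 * (1 - 3 * e) * (1 + e) ^ 2 ≤ 2 - e := by nlinarith [mul_pos he0 he0]
  have a2 : 0 < (1 + e) ^ 2 := by positivity
  refine le_of_mul_le_mul_right ?_ a2
  nlinarith

/-- Precise bounds for a point seen from far. -/
theorem Par.far (p : Par δ h κ η) (hl : ‖lam‖ = 1) (hy : y ∈ Box lam δ h κ) {w : ℂ}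
    (hw : ‖w‖ < 1) {e : ℝ} (he : e ≤ 1 / 64) (hf : h ≤ (1 - ‖w‖) * e) :
    Real.exp (-(δ * Pk lam w * (1 + κ + 5 * e))) ≤ ‖phi y w‖ ∧
      ‖phi y w‖ ≤ Real.exp (-(δ * Pk lam w * (1 - 3 * e))) := by
  have h0 := p.norm_lt hl hy
  have hδ := p.δ_pos; have hδh := p.δ_le; have hκ := p.κ_pos; have hκ1 := p.κ_le
  have hw0 := norm_nonneg w
  have he0 : 0 < e := by
    by_contra hn
    nlinarith
  have e1 := abs_le.mp (norm_den_sub_left y lam hw.le)
  have e2 := norm_den_ge_right (a := lam) (w := w) hl.le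
  have e3 := p.dist_le hl hy
  have e4 := p.norm_ge hl hy
  have e5 := p.norm_le hl hy
  have hP0 := Pk_nonneg lam hw.le
  have hN : 0 < ‖den lam w‖ := by linarith
  have hP1 : Pk lam w * (1 - ‖w‖) ≤ 2 := by
    rw [Pk, div_mul_eq_mul_div, div_le_iff₀ (by positivity)]
    have : (1 - ‖w‖) ^ 2 ≤ ‖den lam w‖ ^ 2 := by gcongr
    nlinarith
  have hP2 : δ * Pk lam w ≤ e / 4 := by
    have : δ ≤ (1 - ‖w‖) * e / 8 := by linarith
    nlinarith [mul_le_mul_of_nonneg_right this hP0]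
  have hY1 : ‖den lam w‖ * (1 - e) ≤ ‖den y w‖ := by nlinarith
  have hY2 : ‖den y w‖ ≤ ‖den lam w‖ * (1 + e) := by nlinarith
  have hY := norm_den_pos h0 hw.le
  have ht : tt y w * ‖den y w‖ ^ 2 = (1 - ‖y‖ ^ 2) * Pk lam w * ‖den lam w‖ ^ 2 := by
    rw [tt, Pk]; field_simp
  have ht0 := tt_nonneg h0.le hw.le
  have hy1 : 1 - ‖y‖ ^ 2 ≤ 2 * δ * (1 + κ) := by nlinarith
  have hy2 : δ * (2 - e) ≤ 1 - ‖y‖ ^ 2 := by
    have : ‖y‖ ^ 2 ≤ (1 - δ) ^ 2 := by gcongr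
    have : δ ≤ e := by nlinarith
    nlinarith
  have hN2 : 0 < ‖den lam w‖ ^ 2 := by positivity
  have t1 : tt y w * (1 - e) ^ 2 ≤ 2 * (δ * Pk lam w) * (1 + κ) := by
    have : (‖den lam w‖ * (1 - e)) ^ 2 ≤ ‖den y w‖ ^ 2 := by
      gcongr; exact mul_nonneg hN.le (by linarith)
    have a1 := mul_le_mul_of_nonneg_left this ht0
    have a2 := mul_le_mul_of_nonneg_right (mul_le_mul_of_nonneg_right hy1 hP0) hN2.le
    refine le_of_mul_le_mul_right ?_ hN2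
    nlinarith
  have t2 : δ * Pk lam w * (2 - e) ≤ tt y w * (1 + e) ^ 2 := by
    have : ‖den y w‖ ^ 2 ≤ (‖den lam w‖ * (1 + e)) ^ 2 := by gcongr
    have a1 := mul_le_mul_of_nonneg_left this ht0
    have a2 := mul_le_mul_of_nonneg_right (mul_le_mul_of_nonneg_right hy2 hP0) hN2.le
    refine le_of_mul_le_mul_right ?_ hN2
    nlinarith
  have hQ : 0 ≤ δ * Pk lam w := by positivity
  obtain ⟨a1, a2⟩ := far_aux1 hQ ht0 hκ.le hκ1 he0 he hP2 t1
  exact ⟨exp_le_phi h0 hw.le a1 a2, phi_le_exp h0 hw.le (far_aux2 hQ he0 t2)⟩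

end Pool.Agent.MP_7cfdbb_an

end

-- part MP_7cfdbb_an.Lev
section

/-! Blocks, levels and sectors. -/

namespace Pool.Agent.MP_7cfdbb_an

open Finset

/-- A level: a block number and a depth exponent. -/
abbrev Lv := (_ : ℕ) × ℕ

/-- A sector: a level and an angle number. -/
abbrev Ix := (_ : Lv) × ℕ

/-- Number of levels of a block. -/
def LL (m : ℕ) : ℕ := 2 ^ (20 * m)

/-- The levels. -/
def lev (M : ℕ) : Finset Lv := (Icc 30 M).sigma fun m => Ico (LL m) (2 * LL m)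

/-- Number of sectors of a level. -/
def nl (l : Lv) : ℕ := 2 ^ (l.2 + 5 - 20 * l.1)

/-- Negative powers of two. -/
noncomputable def hf (j : ℕ) : ℝ := (1 / 2) ^ j

/-- Powers of two. -/
noncomputable def qq (m : ℕ) : ℝ := 2 ^ m

/-- The sectors. -/
def idx (M : ℕ) : Finset Ix := (lev M).sigma fun l => range (nl l)

/-- Centre of a sector on the circle. -/
noncomputable def lm (i : Ix) : ℂ := rt (nl i.1) i.2

theorem LL_succ (m : ℕ) : LL (m + 1) = 2 ^ 20 * LL m := by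
  rw [LL, LL, ← pow_add]; congr 1; ring

theorem lt_LL (m : ℕ) : m < LL m :=
  Nat.lt_two_pow_self.trans_le (Nat.pow_le_pow_right two_pos (by omega))

theorem LL_mono {a b : ℕ} (h : a ≤ b) : LL a ≤ LL b :=
  Nat.pow_le_pow_right two_pos (by omega)

theorem LL_gap {a b : ℕ} (h : a < b) : 2 * LL a + 50 * b ≤ LL b := by
  obtain ⟨c, rfl⟩ : ∃ c, b = c + 1 := ⟨b - 1, by omega⟩
  have := LL_mono (Nat.lt_succ_iff.mp h)
  have := lt_LL c
  rw [LL_succ]; omega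

theorem qq_pos (m : ℕ) : 0 < qq m := by unfold qq; positivity

theorem one_le_qq (m : ℕ) : 1 ≤ qq m := one_le_pow₀ one_le_two

theorem qq_mono {a b : ℕ} (h : a ≤ b) : qq a ≤ qq b := pow_le_pow_right₀ one_le_two h

theorem qq_big {m : ℕ} (h : 30 ≤ m) : 10 ^ 9 ≤ qq m :=
  le_trans (by norm_num [qq]) (qq_mono h)

theorem cast_LL (m : ℕ) : (LL m : ℝ) = qq m ^ 20 := by
  rw [LL, qq, ← pow_mul, mul_comm]; push_cast; rfl

theorem hf_pos (j : ℕ) : 0 < hf j := by unfold hf; positivity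

theorem hf_anti {a b : ℕ} (h : a ≤ b) : hf b ≤ hf a :=
  pow_le_pow_of_le_one (by norm_num) (by norm_num) h

theorem hf_le_one (j : ℕ) : hf j ≤ 1 := by simpa [hf] using hf_anti (Nat.zero_le j)

theorem hf_succ (j : ℕ) : hf (j + 1) = hf j / 2 := by rw [hf, hf, pow_succ]; ring

theorem hf_mul_le {a b m k : ℕ} (h : a + k * m ≤ b) : hf b * qq m ^ k ≤ hf a := by
  refine (mul_le_mul_of_nonneg_right (hf_anti h) (pow_pos (qq_pos m) k).le).trans (le_of_eq ?_)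
  rw [hf, hf, qq, pow_add, ← pow_mul, mul_comm m, mul_assoc, ← mul_pow]; norm_num

variable {M : ℕ} {l : Lv}

theorem mem_lev : l ∈ lev M ↔ (30 ≤ l.1 ∧ l.1 ≤ M) ∧ LL l.1 ≤ l.2 ∧ l.2 < 2 * LL l.1 := by
  simp [lev]

theorem mem_idx {i : Ix} : i ∈ idx M ↔ i.1 ∈ lev M ∧ i.2 < nl i.1 := by
  simp [idx]

theorem nl_ne (l : Lv) : nl l ≠ 0 := by unfold nl; positivity

theorem nl_pos (l : Lv) : (0 : ℝ) < nl l := by exact_mod_cast Nat.pos_of_ne_zero (nl_ne l)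

theorem norm_lm (i : Ix) : ‖lm i‖ = 1 := norm_rt (nl_ne _) _

theorem lev_big (hl : l ∈ lev M) : 50 * l.1 ≤ l.2 := by
  obtain ⟨⟨h1, -⟩, h2, -⟩ := mem_lev.mp hl
  have := LL_gap (a := 0) (b := l.1) (by omega)
  omega

theorem nl_mul (hl : l ∈ lev M) : nl l * hf l.2 = 32 / qq l.1 ^ 20 := by
  have h := lev_big hl
  have h1 : (nl l : ℝ) * qq l.1 ^ 20 = 2 ^ l.2 * 32 := by
    rw [nl, qq, ← pow_mul, show (32 : ℝ) = 2 ^ 5 by norm_num, ← pow_add]
    push_cast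
    rw [← pow_add]; congr 1; omega
  rw [eq_div_iff (pow_pos (qq_pos _) _).ne', mul_right_comm, h1, mul_right_comm, hf, ← mul_pow]
  norm_num

theorem inv_nl (hl : l ∈ lev M) : 1 / (nl l : ℝ) = hf l.2 * qq l.1 ^ 20 / 32 := by
  have h := nl_mul hl
  have := qq_pos l.1
  have := nl_pos l
  rw [eq_div_iff (by positivity)] at h
  field_simp
  linarith

theorem par_lev (hl : l ∈ lev M) :
    Par (hf l.2) (1 / nl l) (1 / qq l.1) (1 / qq l.1 ^ 4) := by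
  have h := lev_big hl
  have hq := qq_big (mem_lev.mp hl).1.1
  have h0 := hf_pos l.2
  have h1 : hf l.2 * qq l.1 ^ 41 ≤ 1 := by
    simpa [hf] using hf_mul_le (a := 0) (b := l.2) (m := l.1) (k := 41) (by omega)
  have hq1 := one_le_qq l.1
  have h2 : ∀ k, k ≠ 0 → qq l.1 ≤ qq l.1 ^ k := fun k hk => le_self_pow₀ hq1 hk
  have h3 : qq l.1 ^ 20 ≤ qq l.1 ^ 41 := pow_le_pow_right₀ hq1 (by norm_num)
  rw [inv_nl hl]
  refine ⟨h0, ?_, ?_, by positivity, ?_, ?_, by positivity, ?_⟩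
  · nlinarith [h2 20 (by norm_num)]
  · nlinarith
  · rw [div_le_div_iff₀ (by positivity) (by positivity)]; linarith
  · rw [mul_one_div, le_div_iff₀ (by positivity)]
    nlinarith
  · rw [div_le_div_iff₀ (by positivity) (by positivity)]; linarith [h2 4 (by norm_num)]

theorem sum_lev (F : ℕ → ℝ) :
    ∑ l ∈ lev M, nl l * hf l.2 * F l.1 = ∑ m ∈ Icc 30 M, 32 * F m := by
  rw [sum_congr rfl fun l hl => by rw [nl_mul hl], lev, sum_sigma]
  refine sum_congr rfl fun m _ => ?_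
  have := qq_pos m
  simp only [sum_const, Nat.card_Ico, nsmul_eq_mul]
  rw [show 2 * LL m - LL m = LL m by omega, cast_LL]
  field_simp

theorem sum_idx (F : ℕ → ℝ) :
    ∑ i ∈ idx M, hf i.1.2 * F i.1.1 = ∑ m ∈ Icc 30 M, 32 * F m := by
  rw [← sum_lev, idx, sum_sigma]
  simp [mul_assoc]

theorem sum_inv_qq (a M : ℕ) : ∑ m ∈ Icc a M, 1 / qq m ≤ 2 / qq a := by
  have h : ∀ n, ∑ m ∈ Ico a (a + n), 1 / qq m = 2 / qq a - 2 / qq (a + n) := by
    intro n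
    induction n with
    | zero => simp
    | succ n ih =>
      rw [← add_assoc, sum_Ico_succ_top (by omega), ih, qq, qq, qq, pow_succ]
      field_simp; ring
  have h1 : Icc a M ⊆ Ico a (a + (M + 1)) := fun m hm => by
    rw [mem_Icc] at hm; rw [mem_Ico]; omega
  refine (sum_le_sum_of_subset_of_nonneg h1 fun m _ _ => (one_div_pos.mpr (qq_pos m)).le).trans ?_
  rw [h]
  have := qq_pos (a + (M + 1))
  linarith [div_pos two_pos this]

theorem sum_inv_qq30 (M : ℕ) : ∑ m ∈ Icc 30 M, 1 / qq m ≤ 1 / 10 ^ 8 := by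
  refine (sum_inv_qq 30 M).trans ?_
  norm_num [qq]

theorem lev_inj {l l' : Lv} (hl : l ∈ lev M) (hl' : l' ∈ lev M) (h : l.2 = l'.2) : l = l' := by
  obtain ⟨-, h1, h2⟩ := mem_lev.mp hl
  obtain ⟨-, h3, h4⟩ := mem_lev.mp hl'
  have h5 : l.1 = l'.1 := by
    rcases lt_trichotomy l.1 l'.1 with h' | h' | h'
    · have := LL_gap h'; omega
    · exact h'
    · have := LL_gap h'; omega
  exact Sigma.ext h5 (heq_of_eq h)

theorem sum_lev_le {f : ℕ → ℝ} (h0 : ∀ j, 0 ≤ f j) :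
    ∑ l ∈ lev M, f l.2 ≤ ∑ j ∈ range (2 * LL M), f j := by
  rw [← sum_image (f := f) (g := fun l : Lv => l.2) fun l hl l' hl' h => lev_inj hl hl' h]
  refine sum_le_sum_of_subset_of_nonneg (fun j hj => ?_) fun j _ _ => h0 j
  obtain ⟨l, hl, rfl⟩ := mem_image.mp hj
  obtain ⟨⟨-, h1⟩, -, h2⟩ := mem_lev.mp hl
  have := LL_mono h1
  exact mem_range.mpr (by omega)

theorem sum_tele {d : ℝ} (hd : 0 ≤ d) :
    ∑ l ∈ lev M, d * hf l.2 * ((d + hf l.2) ^ 2)⁻¹ ≤ 2 := by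
  refine (sum_lev_le (f := fun j => d * hf j * ((d + hf j) ^ 2)⁻¹) fun j => by
    have := hf_pos j; positivity).trans ?_
  have h : ∀ n, ∑ j ∈ range n, d * hf j * ((d + hf j) ^ 2)⁻¹ ≤
      2 * (1 / (d + 1)) - 2 * (hf n / (d + hf n)) := by
    intro n
    induction n with
    | zero => simp [hf]
    | succ n ih =>
      rw [sum_range_succ, hf_succ]
      have := hf_pos n
      generalize hf n = t at *
      have e : 2 * (t / (d + t)) - 2 * (t / 2 / (d + t / 2)) = d * t * ((d + t) * (d + t / 2))⁻¹ := by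
        field_simp; ring
      have : d * t * ((d + t) ^ 2)⁻¹ ≤ d * t * ((d + t) * (d + t / 2))⁻¹ := by
        gcongr; nlinarith
      linarith
  refine (h _).trans ?_
  have := hf_pos (2 * LL M)
  have h1 : 1 / (d + 1) ≤ 1 := by rw [div_le_one (by linarith)]; linarith
  have h2 : 0 ≤ hf (2 * LL M) / (d + hf (2 * LL M)) := by positivity
  linarith

theorem sum_count {d : ℝ} (hd : 0 ≤ d) {m : ℕ} (hm : m < M → hf (LL (m + 1)) ≤ d) (hM : m ≤ M) :
    ∑ l ∈ lev M, hf l.2 * (d + hf l.2)⁻¹ ≤ LL (m + 1) + 2 := by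
  refine (sum_lev_le (f := fun j => hf j * (d + hf j)⁻¹) fun j => by
    have := hf_pos j; positivity).trans ?_
  have h1 : ∀ j, hf j * (d + hf j)⁻¹ ≤ 1 := fun j => by
    have := hf_pos j
    rw [← div_eq_mul_inv, div_le_one (by linarith)]; linarith
  rcases hM.lt_or_eq with h | h
  · have h2 := hm h
    generalize LL (m + 1) = L at *
    have h3 : ∀ n, ∑ j ∈ range (L + n), hf j * (d + hf j)⁻¹ ≤ L + 2 - 2 * hf n := by
      intro n
      induction n with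
      | zero => simpa [hf] using sum_le_card_nsmul (range L) _ 1 fun j _ => h1 j
      | succ n ih =>
        rw [← add_assoc, sum_range_succ, hf_succ]
        have e1 := hf_pos (L + n)
        have e2 := hf_pos n
        have : hf (L + n) * (d + hf (L + n))⁻¹ ≤ hf n := by
          rw [← div_eq_mul_inv, div_le_iff₀ (by linarith)]
          have : hf (L + n) = hf n * hf L := by rw [hf, hf, hf, pow_add, mul_comm]
          nlinarith
        linarith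
    refine le_trans (sum_le_sum_of_subset_of_nonneg (range_mono (Nat.le_add_left _ L))
      fun j _ _ => by have := hf_pos j; positivity) ((h3 _).trans ?_)
    linarith [hf_pos (2 * LL M)]
  · have h2 := sum_le_card_nsmul (range (2 * LL M)) _ 1 fun j _ => h1 j
    have h3 : 2 * LL M ≤ LL (m + 1) := by have := LL_gap (a := M) (b := m + 1) (by omega); omega
    have h4 : ((2 * LL M : ℕ) : ℝ) ≤ LL (m + 1) := by exact_mod_cast h3
    rw [card_range, nsmul_eq_mul, mul_one] at h2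
    linarith

end Pool.Agent.MP_7cfdbb_an

end

-- part MP_7cfdbb_an.Sums
section

/-! Sums over all sectors. -/

namespace Pool.Agent.MP_7cfdbb_an

open Finset

/-- One point in every box. -/
def InBox (M : ℕ) (y : Ix → ℂ) : Prop :=
  ∀ i ∈ idx M, y i ∈ Box (lm i) (hf i.1.2) (1 / nl i.1) (1 / qq i.1.1)

variable {M : ℕ} {y : Ix → ℂ} {i k : Ix} {l : Lv} {w : ℂ}

theorem par_idx (hi : i ∈ idx M) :
    Par (hf i.1.2) (1 / nl i.1) (1 / qq i.1.1) (1 / qq i.1.1 ^ 4) := par_lev (mem_idx.mp hi).1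

theorem InBox.norm_le (hy : InBox M y) (hi : i ∈ idx M) : ‖y i‖ ≤ 1 - hf i.1.2 :=
  (par_idx hi).norm_le (norm_lm i) (hy i hi)

theorem InBox.norm_lt (hy : InBox M y) (hi : i ∈ idx M) : ‖y i‖ < 1 :=
  (par_idx hi).norm_lt (norm_lm i) (hy i hi)

theorem InBox.depth_le (hy : InBox M y) (hi : i ∈ idx M) : 1 - ‖y i‖ ≤ 9 / 8 * hf i.1.2 :=
  (par_idx hi).depth_le (norm_lm i) (hy i hi)

theorem InBox.sq_le (hy : InBox M y) (hi : i ∈ idx M) : 1 - ‖y i‖ ^ 2 ≤ 9 / 4 * hf i.1.2 :=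
  (par_idx hi).sq_le (norm_lm i) (hy i hi)

theorem hf_small (hi : i ∈ idx M) : hf i.1.2 ≤ 1 / 64 := by
  linarith [(par_idx hi).δ_le, (par_idx hi).h_le]

theorem sig_le (hl : l ∈ lev M) : nl l * hf l.2 ≤ 1 / 8 := by
  have := (par_lev hl).δ_le
  rw [le_div_iff₀ (nl_pos l)] at this
  linarith

theorem InBox.level (hy : InBox M y) (hl : l ∈ lev M) (hw : ‖w‖ ≤ 1) :
    ∑ s ∈ range (nl l), (‖den (y ⟨l, s⟩) w‖ ^ 2)⁻¹ ≤
      224 * (((1 - ‖w‖ + hf l.2) ^ 2)⁻¹ + nl l * (1 - ‖w‖ + hf l.2)⁻¹) := by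
  have p := par_lev hl
  have h0 := hf_pos l.2
  refine sum_inv_den_sq h0 (by linarith [p.δ_le]) subset_rfl (fun s hs => ?_) hw
  have hi : (⟨l, s⟩ : Ix) ∈ idx M := mem_idx.mpr ⟨hl, mem_range.mp hs⟩
  have := p.dist_le (norm_lm ⟨l, s⟩) (hy _ hi)
  exact ⟨this.trans (by linarith [p.δ_le]), hy.norm_le hi⟩

theorem InBox.wsum (hy : InBox M y) (hw : ‖w‖ ≤ 1) {c : Lv → ℝ} (hc : ∀ l, 0 ≤ c l) :
    ∑ i ∈ idx M, c i.1 * (‖den (y i) w‖ ^ 2)⁻¹ ≤ ∑ l ∈ lev M,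
      224 * (c l * ((1 - ‖w‖ + hf l.2) ^ 2)⁻¹ + nl l * c l * (1 - ‖w‖ + hf l.2)⁻¹) := by
  rw [idx, sum_sigma]
  refine sum_le_sum fun l hl => ?_
  simp only
  rw [← mul_sum]
  refine (mul_le_mul_of_nonneg_left (hy.level hl hw) (hc l)).trans (le_of_eq (by ring))

theorem InBox.sep (hy : InBox M y) (hi : i ∈ idx M) (hk : k ∈ idx M) (h : i ≠ k) :
    (hf i.1.2 + hf k.1.2) / 5 ≤ ‖y i - y k‖ := by
  wlog hj : i.1.2 ≤ k.1.2 generalizing i k
  · rw [norm_sub_rev, add_comm]; exact this hk hi h.symm (by omega)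
  have a1 := hf_pos i.1.2
  rcases hj.lt_or_eq with hj | hj
  · have a2 := hf_anti (Nat.succ_le_of_lt hj)
    rw [hf_succ] at a2
    have a3 := norm_sub_norm_le (y k) (y i)
    rw [norm_sub_rev] at a3
    linarith [hy.norm_le hi, hy.depth_le hk]
  · obtain ⟨l, s⟩ := i
    obtain ⟨l', t⟩ := k
    obtain rfl : l = l' := lev_inj (mem_idx.mp hi).1 (mem_idx.mp hk).1 hj
    have p := par_idx hi
    have a2 := rt_sep (mem_idx.mp hi).2 (mem_idx.mp hk).2 fun h' => h (by simp only at h'; rw [h'])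
    have a3 := p.dist_le (norm_lm _) (hy _ hi)
    have a4 := (par_idx hk).dist_le (norm_lm _) (hy _ hk)
    have a5 := norm_sub_le_norm_sub_add_norm_sub (lm ⟨l, s⟩) (y ⟨l, s⟩) (lm ⟨l, t⟩)
    have a6 := norm_sub_le_norm_sub_add_norm_sub (y ⟨l, s⟩) (y ⟨l, t⟩) (lm ⟨l, t⟩)
    rw [norm_sub_rev (lm ⟨l, s⟩) (y _)] at a5
    have a7 := p.δ_le
    simp only [lm] at *
    rw [show (2 : ℝ) / nl l = 2 * (1 / nl l) by ring] at a2
    linarith

theorem InBox.off (hy : InBox M y) (hi : i ∈ idx M) (hk : k ∈ idx M) (h : i ≠ k)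
    (hw : ‖w - y k‖ ≤ hf k.1.2 / 8) : hf i.1.2 / 8 ≤ ‖w - y i‖ := by
  have a1 := hy.sep hi hk h
  have a2 := norm_sub_le_norm_sub_add_norm_sub (y i) w (y k)
  rw [norm_sub_rev (y i) w] at a2
  linarith [hf_pos i.1.2, hf_pos k.1.2]

theorem InBox.disc (hy : InBox M y) (hk : k ∈ idx M) (hw : ‖w - y k‖ ≤ hf k.1.2 / 8) :
    7 / 8 * hf k.1.2 ≤ 1 - ‖w‖ ∧ 1 - ‖w‖ ≤ 5 / 4 * hf k.1.2 := by
  have a1 := abs_le.mp (abs_norm_sub_norm_le w (y k))
  constructor <;> linarith [hy.norm_le hk, hy.depth_le hk]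

/-- The shadow sum. -/
noncomputable def Zs (M : ℕ) (y : Ix → ℂ) (w : ℂ) : ℝ :=
  ∑ i ∈ idx M, hf i.1.2 ^ 2 / qq i.1.1 ^ 2 * (‖den (y i) w‖ ^ 2)⁻¹

theorem Zs_nonneg (M : ℕ) (y : Ix → ℂ) (w : ℂ) : 0 ≤ Zs M y w :=
  sum_nonneg fun _ _ => by positivity

theorem InBox.Zs_le (hy : InBox M y) (hw : ‖w‖ ≤ 1) {m : ℕ}
    (hm : m < M → hf (LL (m + 1)) ≤ 1 - ‖w‖) (hM : m ≤ M) :
    1000 * Zs M y w ≤ LL (m + 1) + 2 := by
  refine le_trans ?_ (sum_count (by linarith) hm hM)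
  have h := hy.wsum hw (c := fun l => hf l.2 ^ 2 / qq l.1 ^ 2) fun l => by positivity
  refine (mul_le_mul_of_nonneg_left h (by norm_num)).trans ?_
  rw [mul_sum]
  refine sum_le_sum fun l hl => ?_
  have a1 := sig_le hl
  have a2 := hf_pos l.2
  have a3 := qq_big (mem_lev.mp hl).1.1
  have a4 : hf l.2 * (1 - ‖w‖ + hf l.2)⁻¹ ≤ 1 := by
    rw [← div_eq_mul_inv, div_le_one (by linarith)]; linarith
  have a5 : 0 < hf l.2 * (1 - ‖w‖ + hf l.2)⁻¹ := mul_pos a2 (inv_pos.mpr (by linarith))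
  have a6 : (qq l.1 ^ 2)⁻¹ ≤ (10 ^ 6)⁻¹ := by
    gcongr; nlinarith
  calc _ = 224000 * (qq l.1 ^ 2)⁻¹ * ((hf l.2 * (1 - ‖w‖ + hf l.2)⁻¹ + nl l * hf l.2) *
        (hf l.2 * (1 - ‖w‖ + hf l.2)⁻¹)) := by rw [← inv_pow, div_eq_mul_inv]; ring
    _ ≤ 224000 * (10 ^ 6)⁻¹ * ((1 + 1 / 8) * (hf l.2 * (1 - ‖w‖ + hf l.2)⁻¹)) := by gcongr
    _ ≤ _ := by linarith

theorem InBox.aux_sum (hy : InBox M y) (hw : ‖w‖ ≤ 1) {δ : ℝ} (h0 : 0 ≤ δ)
    (hδ : δ ≤ 2 * (1 - ‖w‖)) {F : ℕ → ℝ} (hF : ∀ m, 0 ≤ F m) (hF1 : ∀ m, F m ≤ 1) :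
    δ * ∑ i ∈ idx M, hf i.1.2 * F i.1.1 * (‖den (y i) w‖ ^ 2)⁻¹ ≤
      448 * (2 + ∑ m ∈ Icc 30 M, 32 * F m) := by
  have h := hy.wsum hw (c := fun l => hf l.2 * F l.1) fun l => mul_nonneg (hf_pos _).le (hF _)
  refine (mul_le_mul_of_nonneg_left h h0).trans ?_
  have h1 := sum_tele (M := M) (d := 1 - ‖w‖) (by linarith)
  rw [← sum_lev]
  refine le_trans ?_ (mul_le_mul_of_nonneg_left (add_le_add h1 le_rfl) (by norm_num))
  rw [← sum_add_distrib, mul_sum, mul_sum]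
  refine sum_le_sum fun l hl => ?_
  have a2 := hf_pos l.2
  have a3 := nl_pos l
  have a4 := hF l.1
  have a5 := hF1 l.1
  have hd : 0 ≤ 1 - ‖w‖ := by linarith
  generalize 1 - ‖w‖ = d at *
  have a6 : δ * (d + hf l.2)⁻¹ ≤ 2 := by
    rw [← div_eq_mul_inv, div_le_iff₀ (by linarith)]; linarith
  calc _ = 224 * (δ * F l.1 * (hf l.2 * ((d + hf l.2) ^ 2)⁻¹) +
        nl l * hf l.2 * F l.1 * (δ * (d + hf l.2)⁻¹)) := by ring
    _ ≤ 224 * (2 * d * 1 * (hf l.2 * ((d + hf l.2) ^ 2)⁻¹) + nl l * hf l.2 * F l.1 * 2) := by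
        gcongr
    _ = _ := by ring

theorem inv_qq_le_one (m : ℕ) : 1 / qq m ≤ 1 := by
  rw [div_le_one (qq_pos m)]; exact one_le_qq m

theorem InBox.Zs_mass (hy : InBox M y) :
    ∑ k ∈ idx M, hf k.1.2 * (1 / qq k.1.1) * (1000 * Zs M y (y k)) ≤ 1 := by
  have h1 : ∀ i ∈ idx M, hf i.1.2 * ∑ k ∈ idx M, hf k.1.2 * (1 / qq k.1.1) *
      (‖den (y k) (y i)‖ ^ 2)⁻¹ ≤ 1344 := by
    intro i hi
    refine (hy.aux_sum (hy.norm_lt hi).le (hf_pos _).le
      (by linarith [hy.norm_le hi, hf_pos i.1.2]) (F := fun m => 1 / qq m)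
      (fun m => (one_div_pos.mpr (qq_pos m)).le) inv_qq_le_one).trans ?_
    rw [← mul_sum]
    linarith [sum_inv_qq30 M]
  calc _ = ∑ i ∈ idx M, 1000 * (hf i.1.2 * (1 / qq i.1.1 ^ 2)) * (hf i.1.2 *
        ∑ k ∈ idx M, hf k.1.2 * (1 / qq k.1.1) * (‖den (y k) (y i)‖ ^ 2)⁻¹) := by
        simp only [Zs, mul_sum]
        rw [sum_comm]
        refine sum_congr rfl fun i _ => sum_congr rfl fun k _ => ?_
        rw [norm_den_symm]; ring
    _ ≤ ∑ i ∈ idx M, 1000 * (hf i.1.2 * (1 / qq i.1.1 ^ 2)) * 1344 :=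
        sum_le_sum fun i hi => mul_le_mul_of_nonneg_left (h1 i hi)
          (by have := hf_pos i.1.2; positivity)
    _ = 1344000 * ∑ m ∈ Icc 30 M, 32 * (1 / qq m ^ 2) := by
        rw [← sum_idx (F := fun m => 1 / qq m ^ 2), mul_sum]
        exact sum_congr rfl fun i _ => by ring
    _ ≤ 1344000 * ∑ m ∈ Icc 30 M, 32 / 10 ^ 9 * (1 / qq m) := by
        refine mul_le_mul_of_nonneg_left (sum_le_sum fun m hm => ?_) (by norm_num)
        have := qq_big (mem_Icc.mp hm).1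
        rw [mul_one_div, mul_one_div, div_div]
        gcongr
        nlinarith
    _ ≤ 1 := by
        rw [← mul_sum]
        linarith [sum_inv_qq30 M]

theorem InBox.Pk_mass (hy : InBox M y) {lam : ℂ} (hl : ‖lam‖ = 1) (m : ℕ) :
    ∑ k ∈ idx M with 22 * k.1.1 ≤ m, hf k.1.2 * qq k.1.1 * Pk lam (y k) ≤ qq m / 2 := by
  have h := hy.wsum hl.le
    (c := fun l => if 22 * l.1 ≤ m then 9 / 4 * hf l.2 ^ 2 * qq l.1 else 0) fun l => by
      have := qq_pos l.1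
      split_ifs <;> positivity
  have hq := qq_pos m
  calc _ ≤ ∑ i ∈ idx M, (if 22 * i.1.1 ≤ m then 9 / 4 * hf i.1.2 ^ 2 * qq i.1.1 else 0) *
        (‖den (y i) lam‖ ^ 2)⁻¹ := by
        rw [sum_filter]
        refine sum_le_sum fun k hk => ?_
        split_ifs
        · have a1 := hy.sq_le hk
          have a2 := hf_pos k.1.2
          have a3 := qq_pos k.1.1
          rw [Pk, norm_den_symm, div_eq_mul_inv]
          calc _ ≤ hf k.1.2 * qq k.1.1 * (9 / 4 * hf k.1.2 * (‖den (y k) lam‖ ^ 2)⁻¹) := by gcongr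
            _ = _ := by ring
        · simp
    _ ≤ _ := h
    _ ≤ ∑ l ∈ lev M, nl l * hf l.2 * (20 * qq m * (1 / qq l.1)) := by
        refine sum_le_sum fun l hl' => ?_
        have a2 := hf_pos l.2
        have a3 := qq_pos l.1
        have a4 := nl_pos l
        split_ifs with h'
        · have a5 : qq l.1 ^ 22 ≤ qq m := by
            rw [qq, ← pow_mul, mul_comm]; exact qq_mono h'
          have a6 := sig_le hl'
          rw [hl, sub_self, zero_add]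
          calc _ = 504 * qq l.1 * (1 + nl l * hf l.2) := by field_simp; ring
            _ ≤ 504 * qq l.1 * (1 + 1 / 8) := by gcongr
            _ ≤ 32 / qq l.1 ^ 20 * (20 * qq l.1 ^ 22 * (1 / qq l.1)) := by
                rw [show 32 / qq l.1 ^ 20 * (20 * qq l.1 ^ 22 * (1 / qq l.1)) = 640 * qq l.1 by
                  field_simp; norm_num]
                linarith
            _ ≤ _ := by rw [nl_mul hl']; gcongr
        · simp only [zero_mul, mul_zero, add_zero]; positivity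
    _ ≤ _ := by
        rw [sum_lev (F := fun m' => 20 * qq m * (1 / qq m')), ← mul_sum, ← mul_sum]
        nlinarith [sum_inv_qq30 M]

end Pool.Agent.MP_7cfdbb_an

end

-- part MP_7cfdbb_an.Prods
section

/-! Products of Blaschke factors over the selected points. -/

namespace Pool.Agent.MP_7cfdbb_an

open Finset

variable {M : ℕ} {y : Ix → ℂ} {i k : Ix} {l : Lv} {w : ℂ}

theorem exp_le_prod {ι : Type*} {S : Finset ι} {g a : ι → ℝ}
    (h : ∀ i ∈ S, Real.exp (-g i) ≤ a i) : Real.exp (-∑ i ∈ S, g i) ≤ ∏ i ∈ S, a i := by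
  rw [← sum_neg_distrib, Real.exp_sum]
  exact prod_le_prod (fun _ _ => (Real.exp_pos _).le) h

theorem prod_le_exp {ι : Type*} {S : Finset ι} {g a : ι → ℝ} (h0 : ∀ i ∈ S, 0 ≤ a i)
    (h : ∀ i ∈ S, a i ≤ Real.exp (-g i)) : ∏ i ∈ S, a i ≤ Real.exp (-∑ i ∈ S, g i) := by
  rw [← sum_neg_distrib, Real.exp_sum]
  exact prod_le_prod h0 h

/-- Relative error for a far level. -/
noncomputable def ee (l : Lv) : ℝ := nl l * hf l.2 * (1 / qq l.1)

theorem ee_pos (l : Lv) : 0 < ee l := by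
  have := nl_pos l; have := hf_pos l.2; have := qq_pos l.1
  unfold ee; positivity

theorem ee_le (hl : l ∈ lev M) : ee l ≤ 1 / qq l.1 / 8 ∧ 1 / qq l.1 ≤ 1 / 8 := by
  have h1 := sig_le hl
  have h2 := (par_lev hl).κ_pos
  exact ⟨by unfold ee; nlinarith, (par_lev hl).κ_le⟩

theorem far_cond (hl : l ∈ lev M) {c : ℕ} (hc : c < l.1) (hd : hf (LL c) ≤ 1 - ‖w‖) :
    1 / (nl l : ℝ) ≤ (1 - ‖w‖) * ee l := by
  have h1 := LL_gap hc
  have h2 := (mem_lev.mp hl).2.1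
  have h3 := (hf_mul_le (a := LL c) (b := l.2) (m := l.1) (k := 41) (by omega)).trans hd
  have := qq_pos l.1
  have := hf_pos l.2
  rw [ee, nl_mul hl, inv_nl hl, show hf l.2 * qq l.1 ^ 20 / 32 =
    hf l.2 * qq l.1 ^ 41 * (32⁻¹ / qq l.1 ^ 20 * (1 / qq l.1)) by field_simp]
  gcongr
  · linarith [hf_pos (LL c)]
  · norm_num

theorem far_level (hl : l ∈ lev M) {c : ℕ} (hc : c < l.1) (hd : hf (LL c) ≤ 1 - ‖w‖) :
    ∑ s ∈ range (nl l), hf l.2 * Pk (lm ⟨l, s⟩) w * (1 + 1 / qq l.1 + 5 * ee l) ≤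
      nl l * hf l.2 * (1 + 2 * (1 / qq l.1)) ∧
    nl l * hf l.2 * (1 - 1 / qq l.1) ≤
      ∑ s ∈ range (nl l), hf l.2 * Pk (lm ⟨l, s⟩) w * (1 - 3 * ee l) := by
  have hd0 : 0 < 1 - ‖w‖ := (hf_pos _).trans_le hd
  obtain ⟨h1, h2⟩ := sum_Pk (nl_ne l) (a := w) (by linarith)
  have h3 := far_cond hl hc hd
  have h4 := (par_lev hl).δ_le
  have h5 : hf l.2 * (2 / (1 - ‖w‖)) ≤ ee l / 4 := by
    rw [← mul_div_assoc, div_le_iff₀ hd0]; linarith
  obtain ⟨h6, h7⟩ := ee_le hl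
  have h8 := ee_pos l
  have h9 := hf_pos l.2
  have h10 := (par_lev hl).κ_pos
  have h11 : 0 < nl l * hf l.2 := mul_pos (nl_pos l) h9
  rw [← sum_mul, ← mul_sum, ← sum_mul, ← mul_sum]
  simp only [lm]
  have h12 := mul_le_mul_of_nonneg_left h1 h9.le
  have h13 := mul_le_mul_of_nonneg_left h2 h9.le
  have he : ee l = nl l * hf l.2 * (1 / qq l.1) := rfl
  generalize hf l.2 * ∑ s ∈ range (nl l), Pk (rt (nl l) s) w = X at *
  generalize 1 / qq l.1 = κ at *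
  have a1 : X ≤ nl l * hf l.2 * (1 + κ / 4) := by linarith
  have a2 : nl l * hf l.2 * (1 - κ / 4) ≤ X := by linarith
  generalize nl l * hf l.2 = σ at *
  constructor
  · calc _ ≤ σ * (1 + κ / 4) * (1 + κ + 5 * (κ / 8)) := by gcongr
      _ ≤ _ := by rw [mul_assoc]; gcongr; nlinarith
  · calc _ ≤ σ * (1 - κ / 4) * (1 - 3 * (κ / 8)) := by rw [mul_assoc]; gcongr; nlinarith
      _ ≤ _ := by gcongr <;> nlinarith

/-- Number of blocks from `c` on. -/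
noncomputable def NF (M c : ℕ) : ℝ := ∑ m ∈ Icc 30 M, if c ≤ m then 1 else 0

theorem sum_idx_filter (c : ℕ) (g : Ix → ℝ) : ∑ i ∈ idx M with c ≤ i.1.1, g i =
    ∑ l ∈ lev M, if c ≤ l.1 then ∑ s ∈ range (nl l), g ⟨l, s⟩ else 0 := by
  rw [sum_filter, idx, sum_sigma]
  refine sum_congr rfl fun l _ => ?_
  split_ifs <;> simp

theorem InBox.far_ge (hy : InBox M y) {S : Finset Ix} (hS : S ⊆ idx M) {c c' : ℕ} (hc : c < c')
    (hd : c' ≤ M → hf (LL c) ≤ 1 - ‖w‖) :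
    Real.exp (-(32 * NF M c' + 1)) ≤ ∏ i ∈ S with c' ≤ i.1.1, ‖phi (y i) w‖ := by
  have hd' : ∀ l ∈ lev M, c' ≤ l.1 → hf (LL c) ≤ 1 - ‖w‖ := fun l hl h =>
    hd (h.trans (mem_lev.mp hl).1.2)
  refine le_trans (Real.exp_le_exp.mpr (neg_le_neg ?_)) (exp_le_prod
    (g := fun i => hf i.1.2 * Pk (lm i) w * (1 + 1 / qq i.1.1 + 5 * ee i.1)) fun i hi => ?_)
  · refine (sum_le_sum_of_subset_of_nonneg (filter_subset_filter _ hS) fun i hi _ => ?_).trans ?_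
    · have hi1 := mem_filter.mp hi
      have := hd' _ (mem_idx.mp hi1.1).1 hi1.2
      have := Pk_nonneg (lm i) (w := w) (by linarith [hf_pos (LL c)])
      have := hf_pos i.1.2; have := qq_pos i.1.1; have := ee_pos i.1
      positivity
    rw [sum_idx_filter]
    calc _ ≤ ∑ l ∈ lev M, nl l * hf l.2 * ((if c' ≤ l.1 then 1 else 0) + 2 * (1 / qq l.1)) := by
          refine sum_le_sum fun l hl => ?_
          split_ifs with h
          · exact (far_level hl (hc.trans_le h) (hd' l hl h)).1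
          · have := hf_pos l.2; have := qq_pos l.1
            positivity
      _ ≤ _ := by
          rw [sum_lev (F := fun m => (if c' ≤ m then 1 else 0) + 2 * (1 / qq m)), ← mul_sum,
            sum_add_distrib, ← mul_sum, NF]
          linarith [sum_inv_qq30 M]
  · have hi1 := mem_filter.mp hi
    have hi2 := hS hi1.1
    have hl := (mem_idx.mp hi2).1
    have h1 := hd' _ hl hi1.2
    exact ((par_idx hi2).far (norm_lm i) (hy i hi2) (by linarith [hf_pos (LL c)])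
      (by linarith [(ee_le hl).1, (ee_le hl).2]) (far_cond hl (hc.trans_le hi1.2) h1)).1

theorem InBox.far_le (hy : InBox M y) {S : Finset Ix} (hS : S ⊆ idx M) {c c' : ℕ} (hc : c < c')
    (hd : hf (LL c) ≤ 1 - ‖w‖)
    (hm : ∑ i ∈ idx M \ S with c' ≤ i.1.1, hf i.1.2 * Pk (lm i) w ≤ 1) :
    ∏ i ∈ S with c' ≤ i.1.1, ‖phi (y i) w‖ ≤ Real.exp (-(32 * NF M c' - 2)) := by
  have hw : ‖w‖ < 1 := by linarith [hf_pos (LL c)]
  refine le_trans (prod_le_exp (fun _ _ => norm_nonneg _)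
    (g := fun i => hf i.1.2 * Pk (lm i) w * (1 - 3 * ee i.1)) fun i hi => ?_)
    (Real.exp_le_exp.mpr (neg_le_neg ?_))
  · have hi1 := mem_filter.mp hi
    have hi2 := hS hi1.1
    have hl := (mem_idx.mp hi2).1
    exact ((par_idx hi2).far (norm_lm i) (hy i hi2) hw
      (by linarith [(ee_le hl).1, (ee_le hl).2]) (far_cond hl (hc.trans_le hi1.2) hd)).2
  have h1 : 32 * NF M c' - 1 ≤
      ∑ i ∈ idx M with c' ≤ i.1.1, hf i.1.2 * Pk (lm i) w * (1 - 3 * ee i.1) := by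
    rw [sum_idx_filter]
    calc _ ≤ ∑ l ∈ lev M, nl l * hf l.2 * ((if c' ≤ l.1 then 1 else 0) - 1 / qq l.1) := by
          rw [sum_lev (F := fun m => (if c' ≤ m then 1 else 0) - 1 / qq m), ← mul_sum,
            sum_sub_distrib, NF]
          linarith [sum_inv_qq30 M]
      _ ≤ _ := by
          refine sum_le_sum fun l hl => ?_
          split_ifs with h
          · exact (far_level hl (hc.trans_le h) hd).2
          · have := hf_pos l.2; have := qq_pos l.1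
            have : 0 ≤ nl l * hf l.2 * (1 / qq l.1) := by positivity
            linarith
  have h2 : ∑ i ∈ idx M \ S with c' ≤ i.1.1, hf i.1.2 * Pk (lm i) w * (1 - 3 * ee i.1) ≤ 1 := by
    refine le_trans (sum_le_sum fun i _ => ?_) hm
    have := mul_nonneg (mul_nonneg (hf_pos i.1.2).le (Pk_nonneg (lm i) hw.le)) (ee_pos i.1).le
    linarith
  rw [← sdiff_union_of_subset hS, filter_union, sum_union
    (disjoint_filter_filter sdiff_disjoint)] at h1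
  linarith

/-- The zone of a point of the closed disc. -/
structure Zone (M m : ℕ) (w : ℂ) : Prop where
  le_one : ‖w‖ ≤ 1
  ge : 29 ≤ m
  le : m ≤ M
  lo : m < M → hf (LL (m + 1)) ≤ 1 - ‖w‖
  hi : 30 < m → 1 - ‖w‖ ≤ 4 * hf (LL m)

theorem NF_le {m : ℕ} (h : m ≤ M) : NF M (m + 2) ≤ M - m := by
  rw [NF, sum_boole, ← Nat.cast_sub h, Nat.cast_le, ← Nat.card_Ioc]
  refine card_le_card fun a ha => ?_
  rw [mem_filter, mem_Icc] at ha
  rw [mem_Ioc]; omega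

theorem InBox.prod_ge (hy : InBox M y) {S : Finset Ix} (hS : S ⊆ idx M) {m : ℕ}
    (hz : Zone M m w) (hoff : ∀ i ∈ S, hf i.1.2 / 8 ≤ ‖w - y i‖) :
    Real.exp (-(32 * (M - m) + 2 * 10 ^ 7)) ≤ ∏ i ∈ S, ‖phi (y i) w‖ := by
  have hw := hz.le_one
  have hd : 0 ≤ 1 - ‖w‖ := by linarith
  have h1 := hy.far_ge (w := w) hS (Nat.lt_succ_self (m + 1)) fun h => hz.lo (by omega)
  have h2 := exp_le_prod (S := S.filter fun i => ¬ m + 2 ≤ i.1.1)
    (g := fun i => 900 * ((1 - ‖w‖) * hf i.1.2) * (‖den (y i) w‖ ^ 2)⁻¹)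
    (a := fun i => ‖phi (y i) w‖) fun i hi =>
      (par_idx (hS (mem_filter.mp hi).1)).exp_off (norm_lm i) (hy i (hS (mem_filter.mp hi).1)) hw
        (hoff i (mem_filter.mp hi).1)
  rw [← prod_filter_mul_prod_filter_not S fun i => m + 2 ≤ i.1.1]
  refine le_trans ?_ (mul_le_mul h1 h2 (Real.exp_pos _).le (prod_nonneg fun _ _ => norm_nonneg _))
  rw [← Real.exp_add, Real.exp_le_exp]
  have h3 := NF_le hz.le
  have h4 := hy.wsum hw (c := fun l => if m + 2 ≤ l.1 then 0 else (1 - ‖w‖) * hf l.2) fun l => by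
    have := hf_pos l.2
    split_ifs <;> positivity
  have h5 : ∑ i ∈ S with ¬ m + 2 ≤ i.1.1,
      900 * ((1 - ‖w‖) * hf i.1.2) * (‖den (y i) w‖ ^ 2)⁻¹ ≤ 900 * ∑ i ∈ idx M,
        (if m + 2 ≤ i.1.1 then 0 else (1 - ‖w‖) * hf i.1.2) * (‖den (y i) w‖ ^ 2)⁻¹ := by
    refine (sum_le_sum_of_subset_of_nonneg (filter_subset_filter _ hS) fun i _ _ => by
      have := hf_pos i.1.2; positivity).trans (le_of_eq ?_)
    rw [sum_filter, mul_sum]
    refine sum_congr rfl fun i _ => ?_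
    split_ifs <;> ring
  have h6 := sum_tele (M := M) hd
  have h7 : ∑ m' ∈ Icc 30 M, 32 * ((if m' = m then 1 else 0) + (if m' = m + 1 then 1 else 0) +
      1 / qq m') ≤ (65 : ℝ) := by
    rw [← mul_sum, sum_add_distrib, sum_add_distrib, sum_ite_eq', sum_ite_eq']
    have := sum_inv_qq30 M
    split_ifs <;> linarith
  rw [← sum_lev (F := fun m' => (if m' = m then 1 else 0) + (if m' = m + 1 then 1 else 0) +
      1 / qq m')] at h7
  have h8 := h4.trans (sum_le_sum (g := fun l => 224 * ((1 - ‖w‖) * hf l.2 *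
    ((1 - ‖w‖ + hf l.2) ^ 2)⁻¹ + nl l * hf l.2 * ((if l.1 = m then 1 else 0) +
      (if l.1 = m + 1 then 1 else 0) + 1 / qq l.1))) fun l hl => ?_)
  · rw [← mul_sum, sum_add_distrib] at h8
    linarith
  have a1 := hf_pos l.2
  have a2 := qq_pos l.1
  have a3 := nl_pos l
  by_cases hl2 : m + 2 ≤ l.1
  · simp only [if_pos hl2, zero_mul, mul_zero, add_zero]
    positivity
  simp only [if_neg hl2]
  refine mul_le_mul_of_nonneg_left (add_le_add le_rfl ?_) (by norm_num)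
  rw [show nl l * ((1 - ‖w‖) * hf l.2) * (1 - ‖w‖ + hf l.2)⁻¹ =
    nl l * hf l.2 * ((1 - ‖w‖) / (1 - ‖w‖ + hf l.2)) by ring]
  refine mul_le_mul_of_nonneg_left ?_ (by positivity)
  have a4 : (1 - ‖w‖) / (1 - ‖w‖ + hf l.2) ≤ 1 := by rw [div_le_one (by linarith)]; linarith
  have a5 : 0 < 1 / qq l.1 := by positivity
  by_cases hl3 : l.1 < m
  · obtain ⟨⟨b1, -⟩, -, b2⟩ := mem_lev.mp hl
    have b3 := hz.hi (by omega)
    have b4 := LL_gap hl3
    have b5 := hf_mul_le (a := l.2) (b := LL m) (m := l.1) (k := 2) (by omega)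
    have b6 := qq_big b1
    rw [if_neg hl3.ne, if_neg (by omega), zero_add, zero_add, div_le_div_iff₀ (by linarith) a2]
    have b7 := hf_pos (LL m)
    nlinarith [mul_pos b7 a2]
  · split_ifs <;> first | linarith | omega

theorem InBox.prod_zero (hy : InBox M y) {S : Finset Ix} (hS : S ⊆ idx M) (hM : 29 ≤ M) :
    ∏ i ∈ S, ‖phi (y i) 0‖ ≤ Real.exp (-(32 * (M - 29) - ∑ i ∈ idx M \ S, hf i.1.2)) := by
  have h1 := sum_idx (M := M) fun _ => 1
  simp only [mul_one, sum_const, Nat.card_Icc, nsmul_eq_mul] at h1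
  rw [show M + 1 - 30 = M - 29 by omega, Nat.cast_sub hM, ← sum_sdiff hS] at h1
  refine le_trans (prod_le_exp (fun _ _ => norm_nonneg _) (g := fun i => hf i.1.2) fun i hi => ?_)
    (Real.exp_le_exp.mpr (by push_cast at h1; linarith))
  rw [phi_zero, norm_neg]
  linarith [hy.norm_le (hS hi), Real.add_one_le_exp (-hf i.1.2)]

end Pool.Agent.MP_7cfdbb_an

end

-- part MP_7cfdbb_an.Select
section

/-! Selection of the sectors which are used. -/

namespace Pool.Agent.MP_7cfdbb_an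

open Finset

theorem select {ι : Type*} [DecidableEq ι] {I S1 : Finset ι} (h1 : S1 ⊆ I) {ω : ι → ℝ}
    {a : ι → ι → ℝ} (hω : ∀ i ∈ I, 0 ≤ ω i) (ha : ∀ k ∈ I, ∀ i, 0 ≤ a k i)
    (hs : ∀ i ∈ I, ∑ k ∈ I, ω k * a k i ≤ ω i / 2) :
    ∃ S ⊆ S1, (∀ k ∈ S, ∑ i ∈ I \ S, a k i ≤ 1) ∧ ∑ i ∈ I \ S, ω i ≤ 2 * ∑ i ∈ I \ S1, ω i := by
  classical
  obtain ⟨S, hS, hmin⟩ := exists_min_image
    (S1.powerset.filter fun S => ∀ s ∈ S1 \ S, 1 < ∑ i ∈ I \ S, a s i) card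
    ⟨S1, by simp +contextual⟩
  rw [mem_filter, mem_powerset] at hS
  refine ⟨S, hS.1, fun k hk => ?_, ?_⟩
  · by_contra hn
    have h2 : ∀ s ∈ I, ∑ i ∈ I \ S, a s i ≤ ∑ i ∈ I \ S.erase k, a s i := fun s hs' =>
      sum_le_sum_of_subset_of_nonneg (sdiff_subset_sdiff subset_rfl (erase_subset _ _))
        fun i _ _ => ha s hs' i
    have h3 := hmin (S.erase k) (mem_filter.mpr ⟨mem_powerset.mpr ((erase_subset _ _).trans hS.1),
      fun s hs' => by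
        have h4 := mem_sdiff.mp hs'
        refine lt_of_lt_of_le ?_ (h2 s (h1 h4.1))
        by_cases h5 : s = k
        · rw [h5]; exact not_le.mp hn
        · exact hS.2 s (mem_sdiff.mpr ⟨h4.1, fun h => h4.2 (mem_erase.mpr ⟨h5, h⟩)⟩)⟩)
    exact absurd h3 (not_le.mpr (card_erase_lt_of_mem hk))
  · have h2 : ∑ s ∈ S1 \ S, ω s ≤ ∑ i ∈ I \ S, ω i / 2 := by
      calc _ ≤ ∑ s ∈ S1 \ S, ω s * ∑ i ∈ I \ S, a s i := sum_le_sum fun s hs' =>
            le_mul_of_one_le_right (hω s (h1 (mem_sdiff.mp hs').1)) (hS.2 s hs').le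
        _ ≤ ∑ s ∈ I, ω s * ∑ i ∈ I \ S, a s i :=
            sum_le_sum_of_subset_of_nonneg (sdiff_subset.trans h1) fun s hs' _ =>
              mul_nonneg (hω s hs') (sum_nonneg fun i _ => ha s hs' i)
        _ ≤ _ := by
            simp only [mul_sum]
            rw [sum_comm]
            exact sum_le_sum fun i hi => hs i (mem_sdiff.mp hi).1
    have h3 := sum_sdiff (f := ω) (sdiff_subset_sdiff h1 subset_rfl : S1 \ S ⊆ I \ S)
    have h4 : (I \ S) \ (S1 \ S) = I \ S1 := by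
      ext u
      have := @hS.1 u
      simp only [mem_sdiff]
      tauto
    rw [h4] at h3
    rw [← sum_div] at h2
    linarith

variable {M : ℕ} {y : Ix → ℂ}

theorem InBox.exists_sel (hy : InBox M y) {G : Finset Ix} (hG : G ⊆ idx M) :
    ∃ S ⊆ G, (∀ k ∈ S, 1000 * Zs M y (y k) ≤ qq k.1.1 ^ 2) ∧
      (∀ k ∈ S, ∑ i ∈ idx M \ S with 22 * k.1.1 ≤ i.1.1, hf i.1.2 * Pk (lm i) (y k) ≤ 1) ∧
      ∑ i ∈ idx M \ S, hf i.1.2 ≤ 2 * (∑ i ∈ idx M \ G, hf i.1.2 * qq i.1.1 + 1) := by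
  obtain ⟨S, h1, h2, h3⟩ := select (I := idx M)
    (S1 := G.filter fun k => 1000 * Zs M y (y k) ≤ qq k.1.1 ^ 2) ((filter_subset _ _).trans hG)
    (ω := fun i => hf i.1.2 * qq i.1.1)
    (a := fun k i => if 22 * k.1.1 ≤ i.1.1 then hf i.1.2 * Pk (lm i) (y k) else 0)
    (fun i _ => mul_nonneg (hf_pos _).le (qq_pos _).le)
    (fun k hk i => by
      split_ifs
      · exact mul_nonneg (hf_pos _).le (Pk_nonneg _ (hy.norm_lt hk).le)
      · exact le_rfl)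
    (fun i _ => by
      have h := mul_le_mul_of_nonneg_left (hy.Pk_mass (norm_lm i) i.1.1) (hf_pos i.1.2).le
      rw [sum_filter, mul_sum, ← mul_div_assoc] at h
      refine le_trans (le_of_eq (sum_congr rfl fun k _ => ?_)) h
      split_ifs <;> ring)
  refine ⟨S, h1.trans (filter_subset _ _), fun k hk => (mem_filter.mp (h1 hk)).2,
    fun k hk => by rw [sum_filter]; exact h2 k hk, ?_⟩
  refine le_trans (sum_le_sum fun i _ => le_mul_of_one_le_right (hf_pos _).le (one_le_qq _))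
    (h3.trans (mul_le_mul_of_nonneg_left ?_ two_pos.le))
  have h4 := sum_sdiff (f := fun i : Ix => hf i.1.2 * qq i.1.1)
    (sdiff_subset_sdiff subset_rfl (filter_subset _ _) : idx M \ G ⊆
      idx M \ G.filter fun k => 1000 * Zs M y (y k) ≤ qq k.1.1 ^ 2)
  rw [← h4, add_comm]
  refine add_le_add le_rfl (le_trans ?_ hy.Zs_mass)
  refine le_trans (sum_le_sum fun k hk => ?_) (sum_le_sum_of_subset_of_nonneg
    (sdiff_subset.trans sdiff_subset) fun k _ _ => ?_)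
  · have h5 : qq k.1.1 ^ 2 ≤ 1000 * Zs M y (y k) := by
      simp only [mem_sdiff, mem_filter] at hk
      by_contra hn
      have := (not_le.mp hn).le
      tauto
    have := qq_pos k.1.1
    rw [mul_assoc]
    refine mul_le_mul_of_nonneg_left ?_ (hf_pos _).le
    rw [one_div, ← div_eq_inv_mul, le_div_iff₀ this]
    linarith
  · have := hf_pos k.1.2; have := qq_pos k.1.1; have := Zs_nonneg M y (y k)
    positivity

end Pool.Agent.MP_7cfdbb_an

end
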