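import Mathlib
import Pool.Agent.MP_7cfdbb_an.Mg.Select
import Pool.Agent.MP_7cfdbb_an.Mg.Geo
import Pool.Agent.MP_7cfdbb_an.Defs

-- part MP_7cfdbb_an.Ratio
section

/-! The correcting functions are almost constant on their pair. -/

namespace Pool.Agent.MP_7cfdbb_an

open Finset Metric

/-- A selected family of good pairs. -/
structure Sel (M : ℕ) (T : Finset ℂ) (ε : ℝ) (y x : Ix → ℂ) (S : Finset Ix) : Prop where
  box : InBox M y
  sub : S ⊆ idx M
  T_lt : ∀ a ∈ T, ‖a‖ < 1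
  ε_pos : 0 < ε
  good : ∀ k ∈ S, Good T (lm k) (hf k.1.2) (1 / nl k.1) (1 / qq k.1.1) (1 / qq k.1.1 ^ 4)
    (Real.sqrt (ε / hf k.1.2) / qq k.1.1 ^ 2) (Real.sqrt (ε / hf k.1.2) * qq k.1.1) (y k) (x k)
  zs : ∀ k ∈ S, 1000 * Zs M y (y k) ≤ qq k.1.1 ^ 2
  miss : ∀ k ∈ S, ∑ i ∈ idx M \ S with 22 * k.1.1 ≤ i.1.1, hf i.1.2 * Pk (lm i) (y k) ≤ 1

/-- A normalised kernel. -/
noncomputable def kap (a w : ℂ) : ℂ := w * (den a a / den a w) ^ 2

theorem kap_self {a : ℂ} (ha : ‖a‖ < 1) : kap a a = a := by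
  rw [kap, div_self (den_ne ha ha.le), one_pow, mul_one]

theorem norm_den_self {a : ℂ} (ha : ‖a‖ ≤ 1) : ‖den a a‖ = 1 - ‖a‖ ^ 2 := by
  rw [den_self, Complex.norm_real, Real.norm_eq_abs, abs_of_nonneg (one_sub_sq_nonneg ha)]

theorem norm_kap_le {a w : ℂ} (ha : ‖a‖ < 1) (hw : ‖w‖ ≤ 1) {c : ℝ} (hc : 1 - ‖a‖ ^ 2 ≤ c) :
    ‖kap a w‖ ≤ c ^ 2 * (‖den a w‖ ^ 2)⁻¹ := by
  have := one_sub_sq_pos ha
  rw [kap, norm_mul, norm_pow, norm_div, norm_den_self ha.le, div_pow, div_eq_mul_inv]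
  refine (mul_le_of_le_one_left (by positivity) hw).trans ?_
  gcongr

theorem differentiableAt_kap {a w : ℂ} (ha : ‖a‖ < 1) (hw : ‖w‖ ≤ 1) :
    DifferentiableAt ℂ (kap a) w :=
  differentiableAt_id.mul (((differentiableAt_const _).div (hasDerivAt_den a w).differentiableAt
    (den_ne ha hw)).pow 2)

theorem max_disc {f : ℂ → ℂ} {c : ℂ} {R C : ℝ} (hR : 0 < R)
    (hf : ∀ w, ‖w - c‖ ≤ R → DifferentiableAt ℂ f w) (hC : ∀ w, ‖w - c‖ = R → ‖f w‖ ≤ C)
    {w : ℂ} (hw : ‖w - c‖ ≤ R) : ‖f w‖ ≤ C := by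
  refine Complex.norm_le_of_forall_mem_frontier_norm_le (U := ball c R) isBounded_ball
    (DifferentiableOn.diffContOnCl fun u hu => ?_) (fun u hu => ?_) ?_
  · rw [closure_ball c hR.ne', mem_closedBall, dist_eq_norm] at hu
    exact (hf u hu).differentiableWithinAt
  · rw [frontier_ball c hR.ne', mem_sphere, dist_eq_norm] at hu
    exact hC u hu
  · rwa [closure_ball c hR.ne', mem_closedBall, dist_eq_norm]

theorem schwarz_disc {f : ℂ → ℂ} {c : ℂ} {R C : ℝ} (hR : 0 < R)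
    (hf : ∀ w, ‖w - c‖ ≤ R → DifferentiableAt ℂ f w) (hC : ∀ w, ‖w - c‖ = R → ‖f w‖ ≤ C)
    {w : ℂ} (hw : ‖w - c‖ < R) : ‖f w - f c‖ ≤ 2 * C / R * ‖w - c‖ := by
  have h := Complex.dist_le_div_mul_dist_of_mapsTo_ball (f := f) (c := c) (R₁ := R) (R₂ := 2 * C)
    (z := w) (fun u hu => (hf u (mem_ball_iff_norm.mp hu).le).differentiableWithinAt)
    (fun u hu => by
      rw [mem_closedBall, dist_eq_norm]
      linarith [norm_sub_le (f u) (f c), max_disc hR hf hC (mem_ball_iff_norm.mp hu).le,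
        max_disc hR hf hC (w := c) (by simpa using hR.le)]) (mem_ball_iff_norm.mpr hw)
  rwa [dist_eq_norm, dist_eq_norm] at h

namespace Sel

variable {M : ℕ} {T : Finset ℂ} {ε : ℝ} {y x : Ix → ℂ} {S : Finset Ix} (h : Sel M T ε y x S)
  {i k : Ix} {w : ℂ}
include h

theorem y_lt (hk : k ∈ S) : ‖y k‖ < 1 := h.box.norm_lt (h.sub hk)

theorem x_near (hk : k ∈ S) : ‖x k - y k‖ ≤ hf k.1.2 / 16 :=
  ((par_idx (h.sub hk)).x_lt (norm_lm k) (h.box k (h.sub hk)) (h.good k hk).close).1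

theorem x_lt (hk : k ∈ S) : ‖x k‖ < 1 := h.T_lt _ (h.good k hk).x_mem

theorem x_off (hi : i ∈ S) (hk : k ∈ S) (hik : i ≠ k) : hf i.1.2 / 8 ≤ ‖x k - y i‖ :=
  h.box.off (h.sub hi) (h.sub hk) hik (by linarith [h.x_near hk, hf_pos k.1.2])

theorem y_off (hi : i ∈ S) (hk : k ∈ S) (hik : i ≠ k) : hf i.1.2 / 8 ≤ ‖y k - y i‖ :=
  h.box.off (h.sub hi) (h.sub hk) hik (by simpa using (div_pos (hf_pos _) (by norm_num)).le)

theorem y_inj : Set.InjOn y S := fun i hi k hk hy => by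
  by_contra hn
  have := h.y_off hi hk hn
  rw [hy, sub_self, norm_zero] at this
  linarith [hf_pos i.1.2]

theorem x_ne_y (hi : i ∈ S) (hk : k ∈ S) : x k ≠ y i := by
  by_cases hik : i = k
  · rw [hik]; exact (h.good k hk).ne
  · intro hy
    have := h.x_off hi hk hik
    rw [hy, sub_self, norm_zero] at this
    linarith [hf_pos i.1.2]

theorem x_ne_x (hi : i ∈ S) (hk : k ∈ S) (hik : i ≠ k) : x k ≠ x i := by
  intro hx
  have := h.x_off hi hk hik
  rw [hx] at this
  linarith [hf_pos i.1.2, h.x_near hi]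

theorem x_mem (hk : k ∈ S) : x k ∈ T \ S.image y := by
  refine mem_sdiff.mpr ⟨(h.good k hk).x_mem, fun hn => ?_⟩
  obtain ⟨i, hi, hy⟩ := mem_image.mp hn
  exact h.x_ne_y hi hk hy.symm

theorem Bl_eq (w : ℂ) : Bl (T \ S.image y) w * ∏ i ∈ S, phi (y i) w = Bl T w := by
  rw [← prod_image (f := fun a => phi a w) h.y_inj]
  refine prod_sdiff fun a ha => ?_
  obtain ⟨i, hi, rfl⟩ := mem_image.mp ha
  exact (h.good i hi).y_mem

theorem Bl_erase (hk : k ∈ S) (w : ℂ) :
    phi (x k) w * Bl ((T \ S.image y).erase (x k)) w = Bl (T \ S.image y) w :=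
  mul_prod_erase _ (fun a => phi a w) (h.x_mem hk)

theorem Bl_pair (hk : k ∈ S) (w : ℂ) :
    Bl ((T \ S.image y).erase (x k)) w * ∏ i ∈ S.erase k, phi (y i) w = Bl (T \ {y k, x k}) w := by
  rw [← prod_image (f := fun a => phi a w) (h.y_inj.mono (coe_subset.mpr (erase_subset _ _)))]
  have e : (T \ S.image y).erase (x k) = (T \ {y k, x k}) \ (S.erase k).image y := by
    ext a
    simp only [mem_erase, mem_sdiff, mem_image, mem_insert, mem_singleton, not_or, not_exists,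
      not_and]
    constructor
    · rintro ⟨h1, h2, h3⟩
      exact ⟨⟨h2, fun h4 => h3 k hk h4.symm, h1⟩, fun i hi => h3 i hi.2⟩
    · rintro ⟨⟨h1, h2, h3⟩, h4⟩
      refine ⟨h3, h1, fun i hi => ?_⟩
      by_cases hik : i = k
      · rw [hik]; exact fun h5 => h2 h5.symm
      · exact h4 i ⟨hik, hi⟩
  rw [e]
  refine prod_sdiff fun a ha => ?_
  obtain ⟨i, hi, rfl⟩ := mem_image.mp ha
  obtain ⟨h1, h2⟩ := mem_erase.mp hi
  simp only [mem_sdiff, mem_insert, mem_singleton, not_or]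
  exact ⟨(h.good i h2).y_mem, fun h3 => h1 (h.y_inj h2 hk h3), (h.x_ne_y h2 hk).symm⟩

theorem lt_one_of_erase (a : ℂ) : ∀ u ∈ (T \ S.image y).erase a, ‖u‖ < 1 := fun u hu =>
  h.T_lt u (mem_sdiff.mp (mem_of_mem_erase hu)).1

theorem near_ratio (hk : k ∈ S) :
    ∃ ρ : ℂ, ‖ρ - 1‖ ≤ 1 / 4 ∧ (∏ i ∈ S.erase k with ¬ 22 * k.1.1 ≤ i.1.1, phi (y i) (x k)) * ρ =
      ∏ i ∈ S.erase k with ¬ 22 * k.1.1 ≤ i.1.1, phi (y i) (y k) := by
  have hk' := h.sub hk
  have hδ := hf_pos k.1.2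
  have hq := qq_big (mem_lev.mp (mem_idx.mp hk').1).1.1
  have hx := h.x_lt hk
  have hy := h.y_lt hk
  have h1 : ∀ i ∈ (S.erase k).filter fun i => ¬ 22 * k.1.1 ≤ i.1.1,
      1 / 20 ≤ ‖phi (y i) (x k)‖ := fun i hi => by
    obtain ⟨a1, a2⟩ := mem_erase.mp (mem_filter.mp hi).1
    exact (par_idx (h.sub a2)).phi_off (norm_lm i) (h.box i (h.sub a2)) hx.le (h.x_off a2 hk a1)
  refine ⟨∏ i ∈ S.erase k with ¬ 22 * k.1.1 ≤ i.1.1,
    (1 + (phi (y i) (y k) - phi (y i) (x k)) / phi (y i) (x k)), ?_, ?_⟩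
  swap
  · rw [← prod_mul_distrib]
    refine prod_congr rfl fun i hi => ?_
    have : phi (y i) (x k) ≠ 0 := norm_pos_iff.mp (lt_of_lt_of_le (by norm_num) (h1 i hi))
    field_simp
    ring
  let F : ℕ → ℝ := fun m => if 22 * k.1.1 ≤ m then 0 else 1
  have hF : ∀ m, 0 ≤ F m := fun m => by simp only [F]; split_ifs <;> norm_num
  have hF1 : ∀ m, F m ≤ 1 := fun m => by simp only [F]; split_ifs <;> norm_num
  have hF2 : ∑ m ∈ Icc 30 M, 32 * F m ≤ 704 * qq k.1.1 := by
    have e1 : ∑ m ∈ Icc 30 M, F m ≤ (22 * k.1.1 : ℕ) := by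
      have e0 : ∀ m, F m = if ¬ 22 * k.1.1 ≤ m then 1 else 0 := fun m => (ite_not _ _ _).symm
      simp only [e0]
      rw [sum_boole, Nat.cast_le]
      refine le_trans (card_le_card fun a ha => ?_) (card_range _).le
      exact mem_range.mpr (not_le.mp (mem_filter.mp ha).2)
    have e2 : (k.1.1 : ℝ) ≤ qq k.1.1 := by
      rw [qq]; exact_mod_cast Nat.lt_two_pow_self.le
    rw [← mul_sum]
    push_cast at e1
    linarith
  have d1 := (h.box.disc hk' (w := x k) (by linarith [h.x_near hk])).1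
  have d2 := h.box.norm_le hk'
  have s1 := h.box.aux_sum hx.le hδ.le (by linarith) hF hF1
  have s2 := h.box.aux_sum hy.le hδ.le (by linarith) hF hF1
  have h2 : ∑ i ∈ S.erase k with ¬ 22 * k.1.1 ≤ i.1.1,
      ‖(phi (y i) (y k) - phi (y i) (x k)) / phi (y i) (x k)‖ ≤ 1 / 8 := by
    calc _ ≤ ∑ i ∈ S.erase k with ¬ 22 * k.1.1 ≤ i.1.1, 45 / 2 * (1 / qq k.1.1 ^ 4 * hf k.1.2) *
          (hf i.1.2 * F i.1.1 * (‖den (y i) (x k)‖ ^ 2)⁻¹ +
            hf i.1.2 * F i.1.1 * (‖den (y i) (y k)‖ ^ 2)⁻¹) := by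
          refine sum_le_sum fun i hi => ?_
          have a2 := (mem_erase.mp (mem_filter.mp hi).1).2
          have a3 := h.y_lt a2
          have a4 := h.box.sq_le (h.sub a2)
          have a5 := (h.good k hk).close
          have a6 := hf_pos i.1.2
          have a7 : F i.1.1 = 1 := if_neg (mem_filter.mp hi).2
          have a8 := norm_den_pos a3 hx.le
          have a9 := norm_den_pos a3 hy.le
          rw [a7, mul_one, norm_div, phi_sub a3 hy.le hx.le, norm_div, norm_mul, norm_mul,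
            norm_den_self a3.le, norm_sub_rev]
          have a10 : (‖den (y i) (y k)‖ * ‖den (y i) (x k)‖)⁻¹ ≤
              ((‖den (y i) (x k)‖ ^ 2)⁻¹ + (‖den (y i) (y k)‖ ^ 2)⁻¹) / 2 := by
            rw [mul_inv, ← inv_pow, ← inv_pow]
            nlinarith [sq_nonneg (‖den (y i) (y k)‖⁻¹ - ‖den (y i) (x k)‖⁻¹)]
          have a11 := one_sub_sq_pos a3
          calc _ ≤ 1 / qq k.1.1 ^ 4 * hf k.1.2 * (9 / 4 * hf i.1.2) *
                (((‖den (y i) (x k)‖ ^ 2)⁻¹ + (‖den (y i) (y k)‖ ^ 2)⁻¹) / 2) / (1 / 20) := by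
                rw [div_eq_mul_inv (_ * _) (_ * _)]
                gcongr
                exact h1 i hi
            _ = _ := by ring
      _ ≤ ∑ i ∈ idx M, 45 / 2 * (1 / qq k.1.1 ^ 4 * hf k.1.2) *
          (hf i.1.2 * F i.1.1 * (‖den (y i) (x k)‖ ^ 2)⁻¹ +
            hf i.1.2 * F i.1.1 * (‖den (y i) (y k)‖ ^ 2)⁻¹) :=
          sum_le_sum_of_subset_of_nonneg
            ((filter_subset _ _).trans ((erase_subset _ _).trans h.sub)) fun i _ _ => by
              have := hf_pos i.1.2; have := hF i.1.1; positivity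
      _ ≤ 45 / 2 * (1 / qq k.1.1 ^ 4) * (2 * (448 * (2 + 704 * qq k.1.1))) := by
          rw [← mul_sum, sum_add_distrib, ← mul_assoc, mul_assoc _ (hf k.1.2), mul_add (hf k.1.2)]
          gcongr
          linarith
      _ ≤ _ := by
          rw [mul_one_div, div_mul_eq_mul_div, div_le_iff₀ (by positivity)]
          have : qq k.1.1 ^ 2 ≤ qq k.1.1 ^ 4 := pow_le_pow_right₀ (one_le_qq _) (by norm_num)
          nlinarith
  refine (norm_prod_one_add_sub_one_le _ _).trans ?_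
  have h3 := Real.abs_exp_sub_one_le (x := 1 / 8) (by norm_num [abs_of_pos])
  rw [abs_of_pos (by norm_num : (0 : ℝ) < 1 / 8)] at h3
  linarith [Real.exp_le_exp.mpr h2, le_abs_self (Real.exp (1 / 8) - 1)]

theorem hf_zone (hk : k ∈ S) : hf (LL (k.1.1 + 1)) ≤ hf k.1.2 / 2 := by
  have h1 := (mem_lev.mp (mem_idx.mp (h.sub hk)).1).2.2
  have h2 := LL_gap (Nat.lt_add_one k.1.1)
  rw [← hf_succ]
  exact hf_anti (by omega)

theorem ratio (hk : k ∈ S) :
    ‖Bl ((T \ S.image y).erase (x k)) (x k) * kap (y k) (x k) -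
      Bl ((T \ S.image y).erase (x k)) (y k) * kap (y k) (y k)‖ ≤
    ‖Bl ((T \ S.image y).erase (x k)) (y k) * kap (y k) (y k)‖ := by
  have hk' := h.sub hk
  have p := par_idx hk'
  have hδ := hf_pos k.1.2
  have hm := (mem_lev.mp (mem_idx.mp hk').1).1.1
  have hq := qq_big hm
  have hx := h.x_lt hk
  have hy := h.y_lt hk
  have g := h.good k hk
  obtain ⟨ρ, hρ, hN⟩ := h.near_ratio hk
  set A := Bl ((T \ S.image y).erase (x k)) with hA
  let N : ℂ → ℂ := fun w => ∏ i ∈ S.erase k with ¬ 22 * k.1.1 ≤ i.1.1, phi (y i) w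
  let Φ : ℂ → ℂ := fun w => A w * N w * kap (y k) w
  have hfar : (S.erase k).filter (fun i => 22 * k.1.1 ≤ i.1.1) =
      S.filter fun i => 22 * k.1.1 ≤ i.1.1 := by
    rw [filter_erase, erase_eq_of_notMem]
    rw [mem_filter]; omega
  have hP : ∀ w, ‖A w * N w‖ * ∏ i ∈ S with 22 * k.1.1 ≤ i.1.1, ‖phi (y i) w‖ =
      ‖Bl (T \ {y k, x k}) w‖ := by
    intro w
    rw [← h.Bl_pair hk, ← prod_filter_mul_prod_filter_not (S.erase k)
      fun i => 22 * k.1.1 ≤ i.1.1, hfar, ← norm_prod, ← norm_mul]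
    congr 1; ring
  set ty := Real.sqrt (ε / hf k.1.2) with hty
  have hty0 : 0 < ty := Real.sqrt_pos.mpr (div_pos h.ε_pos hδ)
  set E := Real.exp (32 * NF M (22 * k.1.1)) with hE
  have hE0 : 0 < E := Real.exp_pos _
  have he1 : Real.exp 1 ≤ 3 := Real.exp_one_lt_d9.le.trans (by norm_num)
  have hz := h.hf_zone hk
  have hdisc : ∀ w, ‖w - y k‖ ≤ hf k.1.2 / 8 → ‖w‖ ≤ 1 := fun w hw => by
    linarith [(h.box.disc hk' hw).1]
  have hC : ∀ w, ‖w - y k‖ = hf k.1.2 / 8 → ‖Φ w‖ ≤ 14400 * (ty * qq k.1.1) * E := by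
    intro w hw
    have w1 := hdisc w hw.le
    have a1 := h.box.far_ge (w := w) h.sub (c := k.1.1 + 1) (c' := 22 * k.1.1) (by omega)
      fun _ => by linarith [(h.box.disc hk' hw.le).1]
    have a2 := p.phi_off (norm_lm k) g.box w1 hw.ge
    have a3 := p.phi_off' (norm_lm k) g.box g.close w1 hw.ge
    have a4 := g.upper w (by linarith)
    have a5 : Bl (T \ {y k, x k}) w * (phi (y k) w * phi (x k) w) = Bl T w := by
      rw [← prod_pair (f := fun a => phi a w) g.ne.symm]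
      refine prod_sdiff fun a ha => ?_
      rcases mem_insert.mp ha with rfl | ha
      · exact g.y_mem
      · rw [mem_singleton.mp ha]; exact g.x_mem
    rw [← a5, norm_mul, norm_mul, ← hP] at a4
    have a6 : ‖A w * N w‖ * Real.exp (-(32 * NF M (22 * k.1.1) + 1)) * (1 / 20 * (1 / 40)) ≤
        ty * qq k.1.1 := le_trans (by gcongr) a4
    rw [Real.exp_neg, Real.exp_add, ← hE] at a6
    have a7 : ‖A w * N w‖ ≤ 800 * (ty * qq k.1.1) * (E * Real.exp 1) := by
      rw [← div_le_iff₀ (by positivity), div_eq_mul_inv]; linarith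
    have a8 := norm_kap_le hy w1 (h.box.sq_le hk')
    have a9 : hf k.1.2 ≤ ‖den (y k) w‖ := by
      linarith [norm_den_ge_left (a := y k) w1, h.box.norm_le hk']
    have a10 : ‖kap (y k) w‖ ≤ 6 := by
      refine a8.trans ?_
      rw [← div_eq_mul_inv, div_le_iff₀ (pow_pos (hδ.trans_le a9) 2)]
      nlinarith
    calc ‖Φ w‖ = ‖A w * N w‖ * ‖kap (y k) w‖ := norm_mul _ _
      _ ≤ 800 * (ty * qq k.1.1) * (E * 3) * 6 := by
          refine mul_le_mul (a7.trans ?_) a10 (norm_nonneg _) (by positivity)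
          gcongr
      _ = _ := by ring
  have hD : ∀ w, ‖w - y k‖ ≤ hf k.1.2 / 8 → DifferentiableAt ℂ Φ w := fun w hw =>
    ((differentiableAt_Bl (h.lt_one_of_erase _) (hdisc w hw)).mul
      (DifferentiableAt.fun_finsetProd fun i hi => differentiableAt_phi
        (h.y_lt (mem_erase.mp (mem_filter.mp hi).1).2) (hdisc w hw))).mul
      (differentiableAt_kap hy (hdisc w hw))
  have h1 := schwarz_disc (by positivity) hD hC (w := x k) (by linarith [h.x_near hk])
  have h2 : ty / qq k.1.1 ^ 2 * E / 18 ≤ ‖Φ (y k)‖ := by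
    have a1 := h.box.far_le (w := y k) h.sub (c := k.1.1 + 1) (c' := 22 * k.1.1) (by omega)
      (by linarith [h.box.norm_le hk']) (h.miss k hk)
    have a2 := g.lower
    rw [← hP] at a2
    have a3 := a2.trans (mul_le_mul_of_nonneg_left a1 (norm_nonneg _))
    rw [neg_sub, Real.exp_sub, ← hE, ← mul_div_assoc, le_div_iff₀ hE0,
      show (2 : ℝ) = 1 + 1 by norm_num, Real.exp_add] at a3
    have a4 : 1 / 2 ≤ ‖y k‖ := by linarith [h.box.depth_le hk', hf_small hk']
    have a5 : ‖Φ (y k)‖ = ‖A (y k) * N (y k)‖ * ‖y k‖ := by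
      simp only [Φ]; rw [norm_mul _ (kap _ _), kap_self hy]
    have a6 : Real.exp 1 * Real.exp 1 ≤ 3 * 3 := by gcongr
    rw [a5]
    nlinarith [norm_nonneg (A (y k) * N (y k))]
  have h3 : ‖Φ (x k) - Φ (y k)‖ ≤ ‖Φ (y k)‖ / 4 := by
    refine h1.trans ((mul_le_mul_of_nonneg_left g.close (by positivity)).trans ?_)
    refine le_trans ?_ (div_le_div_of_nonneg_right h2 (by norm_num))
    rw [show 2 * (14400 * (ty * qq k.1.1) * E) / (hf k.1.2 / 8) * (1 / qq k.1.1 ^ 4 * hf k.1.2) =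
      ty / qq k.1.1 ^ 2 * E * (230400 / qq k.1.1) by field_simp; ring, div_div,
      div_eq_mul_one_div _ (18 * 4 : ℝ)]
    refine mul_le_mul_of_nonneg_left ?_ (by positivity)
    rw [div_le_div_iff₀ (by positivity) (by norm_num)]; linarith
  have hN0 : N (x k) ≠ 0 := prod_ne_zero_iff.mpr fun i hi => by
    obtain ⟨a1, a2⟩ := mem_erase.mp (mem_filter.mp hi).1
    exact phi_ne_zero (h.y_lt a2) hx.le (h.x_ne_y a2 hk)
  have e1 : Φ (y k) = N (x k) * (ρ * (A (y k) * kap (y k) (y k))) := by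
    simp only [Φ, N]; rw [← hN]; ring
  have e2 : Φ (x k) = N (x k) * (A (x k) * kap (y k) (x k)) := by
    simp only [Φ]; ring
  rw [e1, e2, ← mul_sub, norm_mul, norm_mul, mul_div_assoc,
    mul_le_mul_iff_right₀ (norm_pos_iff.mpr hN0), norm_mul] at h3
  generalize A (x k) * kap (y k) (x k) = a at *
  generalize A (y k) * kap (y k) (y k) = b at *
  have e3 := norm_sub_le_norm_sub_add_norm_sub a (ρ * b) b
  rw [← sub_one_mul ρ b, norm_mul] at e3
  have e4 : ‖ρ‖ ≤ 5 / 4 := by linarith [norm_le_insert' ρ 1, norm_one (α := ℂ)]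
  nlinarith [norm_nonneg b]

end Sel

end Pool.Agent.MP_7cfdbb_an

end

-- part MP_7cfdbb_an.Build
section

/-! The test function. -/

namespace Pool.Agent.MP_7cfdbb_an

open Finset Metric MeasureTheory
open scoped ENNReal

/-- Radii of the zones. -/
noncomputable def RR (m : ℕ) : ℝ := 1 - hf (LL (m + 1))

theorem RR_lt (m : ℕ) : RR m < 1 := sub_lt_self _ (hf_pos _)

theorem RR_pos (m : ℕ) : 0 < RR m := by
  have h := hf_anti (a := 1) (b := LL (m + 1)) (by have := lt_LL (m + 1); omega)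
  rw [hf, hf] at h
  rw [RR, hf]
  linarith

/-- Weighted square integrals of the Blaschke product. -/
noncomputable def WW (M : ℕ) (T : Finset ℂ) : ℝ≥0∞ :=
  ∑ m ∈ Icc 29 M, ENNReal.ofReal (1 / qq m ^ 24) *
    ∫⁻ w, ENNReal.ofReal (‖Bl T w‖ ^ 2) ∂mr (RR m)

theorem Bl_zero {T : Finset ℂ} {a : ℂ} (ha : a ∈ T) : Bl T a = 0 :=
  prod_eq_zero ha (phi_self a)

theorem qq_le_exp (m : ℕ) : qq m ≤ Real.exp m := by
  rw [qq, ← mul_one (m : ℝ), Real.exp_nat_mul]
  gcongr
  linarith [Real.add_one_le_exp 1]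

namespace Sel

variable {M : ℕ} {T : Finset ℂ} {ε : ℝ} {y x : Ix → ℂ} {S : Finset Ix} (h : Sel M T ε y x S)
  {i k : Ix} {w : ℂ}
include h

theorem term_le (hi : i ∈ S) (hw : ‖w‖ ≤ 1) (hoff : hf i.1.2 / 8 ≤ ‖w - y i‖) :
    4 / qq i.1.1 ^ 2 * ‖Bl ((T \ S.image y).erase (x i)) w * kap (y i) w‖ ≤
      ‖Bl (T \ S.image y) w‖ *
        (810 * (hf i.1.2 ^ 2 / qq i.1.1 ^ 2 * (‖den (y i) w‖ ^ 2)⁻¹)) := by
  have a1 := (par_idx (h.sub hi)).phi_off' (norm_lm i) (h.good i hi).box (h.good i hi).close hw hoff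
  have a2 := norm_kap_le (h.y_lt hi) hw (h.box.sq_le (h.sub hi))
  rw [← h.Bl_erase hi, norm_mul, norm_mul]
  calc _ ≤ 4 / qq i.1.1 ^ 2 * (‖Bl ((T \ S.image y).erase (x i)) w‖ *
        ((9 / 4 * hf i.1.2) ^ 2 * (‖den (y i) w‖ ^ 2)⁻¹)) := by gcongr
    _ = 1 / 40 * ‖Bl ((T \ S.image y).erase (x i)) w‖ *
        (810 * (hf i.1.2 ^ 2 / qq i.1.1 ^ 2 * (‖den (y i) w‖ ^ 2)⁻¹)) := by ring
    _ ≤ _ := by gcongr

theorem sum_le {U : Finset Ix} (hU : U ⊆ S) (hw : ‖w‖ ≤ 1)
    (hoff : ∀ i ∈ U, hf i.1.2 / 8 ≤ ‖w - y i‖) {v : Ix → ℂ} (hv : ∀ i, ‖v i‖ = 1) :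
    ‖∑ i ∈ U, ((4 / qq i.1.1 ^ 2 : ℝ) : ℂ) *
      (v i * (Bl ((T \ S.image y).erase (x i)) w * kap (y i) w))‖ ≤
      ‖Bl (T \ S.image y) w‖ * (810 * Zs M y w) := by
  refine (norm_sum_le_of_le _ fun i hi => le_trans (le_of_eq ?_)
    (h.term_le (hU hi) hw (hoff i hi))).trans ?_
  · rw [norm_mul, norm_mul, hv, one_mul, Complex.norm_real, Real.norm_eq_abs,
      abs_of_nonneg (by positivity)]
  · rw [← mul_sum, ← mul_sum]
    gcongr
    exact sum_le_sum_of_subset_of_nonneg (hU.trans h.sub) fun i _ _ => by positivity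

theorem exists_fun0 : ∃ F : ℂ → ℂ, (∀ w, ‖w‖ ≤ 1 → DifferentiableAt ℂ F w) ∧
    (∀ t ∈ T, 0 ≤ (F t).re) ∧ F 0 = -‖Bl (T \ S.image y) 0‖ ∧
    ∀ w, ‖w‖ ≤ 1 → (∀ i ∈ S, hf i.1.2 / 8 ≤ ‖w - y i‖) →
      ‖F w‖ ≤ ‖Bl (T \ S.image y) w‖ * (1 + 810 * Zs M y w) := by
  obtain ⟨u, hu, hu0⟩ := Complex.exists_norm_eq_mul_self (Bl (T \ S.image y) 0)
  choose v hv hv0 using fun i =>
    Complex.exists_norm_eq_mul_self (Bl ((T \ S.image y).erase (x i)) (y i) * kap (y i) (y i))
  refine ⟨fun w => -(u * Bl (T \ S.image y) w) + ∑ i ∈ S, ((4 / qq i.1.1 ^ 2 : ℝ) : ℂ) *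
    (v i * (Bl ((T \ S.image y).erase (x i)) w * kap (y i) w)), fun w hw => ?_, fun t ht => ?_,
    by simp [kap, hu0], fun w hw hoff => ?_⟩
  · exact ((differentiableAt_Bl (fun a ha => h.T_lt a (mem_sdiff.mp ha).1) hw).const_mul _).neg.add
      (DifferentiableAt.fun_sum fun i hi => (((differentiableAt_Bl (h.lt_one_of_erase _) hw).mul
        (differentiableAt_kap (h.y_lt hi) hw)).const_mul _).const_mul _)
  · by_cases h1 : t ∈ S.image y
    · obtain ⟨k, hk, rfl⟩ := mem_image.mp h1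
      have hy := h.y_lt hk
      have hk' := h.sub hk
      have a1 := h.sum_le (erase_subset k S) hy.le (fun i hi =>
        h.y_off (mem_erase.mp hi).2 hk (mem_erase.mp hi).1) hv
      have a2 := (abs_le.mp ((Complex.abs_re_le_norm _).trans a1)).1
      have a3 := Complex.re_le_norm (u * Bl (T \ S.image y) (y k))
      rw [norm_mul, hu, one_mul] at a3
      beta_reduce
      rw [← add_sum_erase _ _ hk, ← hv0, ← Complex.ofReal_mul, Complex.add_re, Complex.add_re,
        Complex.neg_re, Complex.ofReal_re, norm_mul, kap_self hy]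
      have a4 : 1 / 2 ≤ ‖y k‖ := by linarith [h.box.depth_le hk', hf_small hk']
      have hδ := hf_pos k.1.2
      have hq := qq_big (mem_lev.mp (mem_idx.mp hk').1).1.1
      have a5 : ‖phi (x k) (y k)‖ ≤ 1 / qq k.1.1 ^ 4 := by
        have : hf k.1.2 ≤ ‖den (y k) (x k)‖ := by
          linarith [norm_den_ge_left (a := y k) (h.x_lt hk).le, h.box.norm_le hk']
        rw [norm_phi_symm, norm_phi, div_le_iff₀ (hδ.trans_le this)]
        exact (h.good k hk).close.trans (by gcongr)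
      have a6 : ‖Bl (T \ S.image y) (y k)‖ * (1 + 810 * Zs M y (y k)) ≤
          4 / qq k.1.1 ^ 2 * (‖Bl ((T \ S.image y).erase (x k)) (y k)‖ * ‖y k‖) := by
        have := Zs_nonneg M y (y k)
        have a7 : 1 + 810 * Zs M y (y k) ≤ 2 * qq k.1.1 ^ 2 := by nlinarith [h.zs k hk]
        rw [← h.Bl_erase hk, norm_mul]
        calc _ ≤ 1 / qq k.1.1 ^ 4 * ‖Bl ((T \ S.image y).erase (x k)) (y k)‖ *
              (2 * qq k.1.1 ^ 2) := by gcongr
          _ = 4 / qq k.1.1 ^ 2 * (‖Bl ((T \ S.image y).erase (x k)) (y k)‖ * (1 / 2)) := by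
              field_simp; norm_num
          _ ≤ _ := by gcongr
      linarith
    have h2 : t ∈ T \ S.image y := mem_sdiff.mpr ⟨ht, h1⟩
    beta_reduce
    rw [Bl_zero h2, mul_zero, neg_zero, zero_add, Complex.re_sum]
    refine sum_nonneg fun i hi => ?_
    by_cases h3 : t = x i
    · rw [Complex.re_ofReal_mul, h3]
      refine mul_nonneg (by positivity) ?_
      have a1 := h.ratio hi
      have a2 := hv0 i
      generalize Bl ((T \ S.image y).erase (x i)) (x i) * kap (y i) (x i) = a at *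
      generalize Bl ((T \ S.image y).erase (x i)) (y i) * kap (y i) (y i) = b at *
      have a3 := (abs_le.mp (Complex.abs_re_le_norm (v i * (a - b)))).1
      rw [norm_mul, hv, one_mul, mul_sub, ← a2, Complex.sub_re, Complex.ofReal_re] at a3
      linarith
    · rw [Bl_zero (mem_erase.mpr ⟨h3, h2⟩)]; simp
  · refine (norm_add_le _ _).trans ?_
    rw [norm_neg, norm_mul, hu, one_mul, mul_add, mul_one]
    exact add_le_add le_rfl (h.sum_le subset_rfl hw hoff hv)

theorem exists_fun1 (hM : 29 ≤ M) : ∃ F : ℂ → ℂ, (∀ w, ‖w‖ ≤ 1 → DifferentiableAt ℂ F w) ∧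
    (∀ t ∈ T, 0 ≤ (F t).re) ∧
    (F 0).re ≤ -(Real.exp (-(3 * 10 ^ 7 + ∑ i ∈ idx M \ S, hf i.1.2)) * ‖Bl T 0‖) ∧
    ∀ m w, Zone M m w → (∀ i ∈ S, hf i.1.2 / 8 ≤ ‖w - y i‖) →
      ‖F w‖ ≤ ‖Bl T w‖ / qq m ^ 12 := by
  obtain ⟨F, h1, h2, h3, h4⟩ := h.exists_fun0
  set c := Real.exp (-(32 * (M - 29) + 3 * 10 ^ 7)) with hc
  have hc0 : 0 < c := Real.exp_pos _
  refine ⟨fun w => c * F w, fun w hw => (h1 w hw).const_mul _, fun t ht => ?_, ?_,
    fun m w hz hoff => ?_⟩
  · rw [Complex.re_ofReal_mul]; exact mul_nonneg hc0.le (h2 t ht)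
  · rw [Complex.re_ofReal_mul, h3, Complex.neg_re, Complex.ofReal_re, mul_neg, neg_le_neg_iff,
      ← h.Bl_eq 0, norm_mul, norm_prod]
    calc _ ≤ Real.exp (-(3 * 10 ^ 7 + ∑ i ∈ idx M \ S, hf i.1.2)) * (‖Bl (T \ S.image y) 0‖ *
          Real.exp (-(32 * (M - 29) - ∑ i ∈ idx M \ S, hf i.1.2))) := by
          gcongr; exact h.box.prod_zero h.sub hM
      _ = _ := by rw [mul_left_comm, ← Real.exp_add, mul_comm, hc]; congr 2; ring
  · have a1 := h.box.prod_ge h.sub hz hoff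
    have a2 := h.box.Zs_le hz.le_one hz.lo hz.le
    have a3 := h4 w hz.le_one hoff
    have hq := qq_pos m
    have a4 : 1 + 810 * Zs M y w ≤ Real.exp 21 * qq m ^ 20 := by
      have b1 : (1 : ℝ) ≤ qq m ^ 20 := one_le_pow₀ (one_le_qq m)
      have b2 : (2 : ℝ) ^ 21 ≤ Real.exp 21 := by
        have := qq_le_exp 21
        rwa [qq, Nat.cast_ofNat] at this
      rw [LL_succ] at a2
      push_cast at a2
      rw [cast_LL] at a2
      nlinarith [Zs_nonneg M y w]
    have a5 : qq m ^ 32 ≤ Real.exp (32 * m) := by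
      rw [show (32 : ℝ) = (32 : ℕ) by norm_num, Real.exp_nat_mul]
      gcongr; exact qq_le_exp m
    rw [norm_mul, Complex.norm_real, Real.norm_eq_abs, abs_of_pos hc0, le_div_iff₀ (by positivity),
      ← h.Bl_eq w, norm_mul, norm_prod]
    calc _ ≤ c * (‖Bl (T \ S.image y) w‖ * (Real.exp 21 * qq m ^ 20)) * qq m ^ 12 := by
          gcongr
          exact a3.trans (by gcongr)
      _ = ‖Bl (T \ S.image y) w‖ * (c * Real.exp 21 * qq m ^ 32) := by ring
      _ ≤ ‖Bl (T \ S.image y) w‖ * (c * Real.exp 21 * Real.exp (32 * m)) := by gcongr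
      _ ≤ _ := by
          refine mul_le_mul_of_nonneg_left (le_trans ?_ a1) (norm_nonneg _)
          rw [hc, ← Real.exp_add, ← Real.exp_add, Real.exp_le_exp]
          linarith

theorem norm_le (hM : 29 ≤ M) (hε : ε = 1 - RR M ^ 2) {F : ℂ → ℂ}
    (h1 : ∀ w, ‖w‖ ≤ 1 → DifferentiableAt ℂ F w)
    (h4 : ∀ m w, Zone M m w → (∀ i ∈ S, hf i.1.2 / 8 ≤ ‖w - y i‖) →
      ‖F w‖ ≤ ‖Bl T w‖ / qq m ^ 12) :
    ∫⁻ w, ENNReal.ofReal (‖F w‖ ^ 2) ∂mr 1 ≤ WW M T + 2 * ENNReal.ofReal ε := by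
  have hdisc : ∀ k ∈ S, ∀ w, ‖w - y k‖ ≤ hf k.1.2 / 8 →
      ‖F w‖ ^ 2 ≤ ε / hf k.1.2 * (1 / qq k.1.1) := by
    intro k hk w hw
    have hk' := h.sub hk
    have hl := mem_lev.mp (mem_idx.mp hk').1
    have hδ := hf_pos k.1.2
    have hq := qq_pos k.1.1
    have a1 := max_disc (f := F) (C := Real.sqrt (ε / hf k.1.2) * qq k.1.1 / qq k.1.1 ^ 12)
      (by positivity) (fun u hu => h1 u (by linarith [(h.box.disc hk' hu).1])) (fun u hu => by
        obtain ⟨b1, b2⟩ := h.box.disc hk' hu.le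
        refine (h4 k.1.1 u ⟨by linarith, by omega, hl.1.2, fun _ => by linarith [h.hf_zone hk],
          fun _ => by linarith [hf_anti hl.2.1]⟩ fun i hi => ?_).trans ?_
        · by_cases hik : i = k
          · rw [hik]; exact hu.ge
          · exact h.box.off (h.sub hi) hk' hik hu.le
        · gcongr
          exact (h.good k hk).upper u (by linarith)) hw
    have a2 := div_pos h.ε_pos hδ
    refine (pow_le_pow_left₀ (norm_nonneg _) a1 2).trans ?_
    rw [mul_div_assoc, mul_pow, Real.sq_sqrt a2.le]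
    gcongr
    rw [show (qq k.1.1 / qq k.1.1 ^ 12) ^ 2 = 1 / qq k.1.1 ^ 22 by field_simp]
    gcongr
    exact le_self_pow₀ (one_le_qq _) (by norm_num)
  have hmB : Measurable fun w => ENNReal.ofReal (‖Bl T w‖ ^ 2) :=
    ((measurable_Bl T).norm.pow_const 2).ennreal_ofReal
  have hpt : ∀ w ∈ ball (0 : ℂ) 1, ENNReal.ofReal (‖F w‖ ^ 2) ≤
      ∑ m ∈ Icc 29 M, (ball 0 (RR m)).indicator
        (fun w => ENNReal.ofReal (1 / qq m ^ 24) * ENNReal.ofReal (‖Bl T w‖ ^ 2)) w +
      ((ball 0 1 \ ball 0 (RR M)).indicator 1 w + ∑ k ∈ S, (ball (y k) (hf k.1.2 / 8)).indicator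
        (fun _ => ENNReal.ofReal (ε / hf k.1.2 * (1 / qq k.1.1))) w) := by
    intro w hw
    have hw1 := mem_ball_zero_iff.mp hw
    by_cases hoff : ∀ i ∈ S, hf i.1.2 / 8 ≤ ‖w - y i‖
    swap
    · push Not at hoff
      obtain ⟨k, hk, hlt⟩ := hoff
      refine le_add_left (le_add_left (le_trans ?_ (single_le_sum (fun _ _ => zero_le) hk)))
      rw [Set.indicator_of_mem (mem_ball_iff_norm.mpr hlt)]
      exact ENNReal.ofReal_le_ofReal (hdisc k hk w hlt.le)
    by_cases hR : ‖w‖ < RR M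
    · obtain ⟨m, b1, b2, b3, b5⟩ : ∃ m, 29 ≤ m ∧ ‖w‖ < RR m ∧ m ≤ M ∧
          ∀ n, 29 ≤ n → n < m → RR n ≤ ‖w‖ := by
        have hex : ∃ m, 29 ≤ m ∧ ‖w‖ < RR m := ⟨M, hM, hR⟩
        classical
        exact ⟨Nat.find hex, (Nat.find_spec hex).1, (Nat.find_spec hex).2,
          Nat.find_min' hex ⟨hM, hR⟩, fun n hn hn' =>
            not_lt.mp fun h' => Nat.find_min hex hn' ⟨hn, h'⟩⟩
      have b4 := h4 m w ⟨hw1.le, b1, b3, fun _ => by unfold RR at b2; linarith,
        fun h' => by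
          have := b5 (m - 1) (by omega) (by omega)
          rw [RR, show m - 1 + 1 = m by omega] at this
          linarith [hf_pos (LL m)]⟩ hoff
      refine le_add_right (le_trans ?_
        (single_le_sum (fun _ _ => zero_le) (mem_Icc.mpr ⟨b1, b3⟩)))
      have := qq_pos m
      rw [Set.indicator_of_mem (mem_ball_zero_iff.mpr b2), ← ENNReal.ofReal_mul (by positivity)]
      refine ENNReal.ofReal_le_ofReal ((pow_le_pow_left₀ (norm_nonneg _) b4 2).trans (le_of_eq ?_))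
      field_simp
    · have b4 := h4 M w ⟨hw1.le, hM, le_rfl, fun h' => absurd h' (lt_irrefl _), fun _ => by
        have := hf_anti (LL_mono (Nat.le_add_right M 1))
        unfold RR at hR
        linarith [hf_pos (LL M)]⟩ hoff
      refine le_add_left (le_add_right ?_)
      rw [Set.indicator_of_mem (s := ball 0 1 \ ball 0 (RR M))
        ⟨hw, fun h' => hR (mem_ball_zero_iff.mp h')⟩, Pi.one_apply, ENNReal.ofReal_le_one]
      refine pow_le_one₀ (norm_nonneg _) (b4.trans ?_)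
      rw [div_le_one (pow_pos (qq_pos M) _)]
      exact (norm_Bl_le_one h.T_lt hw1.le).trans (one_le_pow₀ (one_le_qq M))
  refine (setLIntegral_mono' measurableSet_ball hpt).trans
    ((setLIntegral_le_lintegral _ _).trans ?_)
  have hm1 : ∀ m ∈ Icc 29 M, Measurable ((ball 0 (RR m)).indicator
      fun w => ENNReal.ofReal (1 / qq m ^ 24) * ENNReal.ofReal (‖Bl T w‖ ^ 2)) := fun m _ =>
    (hmB.const_mul _).indicator measurableSet_ball
  rw [lintegral_add_left (Finset.measurable_fun_sum _ hm1), lintegral_finsetSum _ hm1,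
    lintegral_add_left (measurable_one.indicator (measurableSet_ball.diff measurableSet_ball)),
    lintegral_finsetSum _ fun k _ => measurable_const.indicator measurableSet_ball,
    lintegral_indicator_one (measurableSet_ball.diff measurableSet_ball), two_mul]
  refine add_le_add (le_of_eq (sum_congr rfl fun m _ => ?_)) (add_le_add ?_ ?_)
  · rw [lintegral_indicator measurableSet_ball, lintegral_const_mul _ hmB, mr]
  · rw [measure_sdiff (ball_subset_ball (RR_lt M).le)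
      measurableSet_ball.nullMeasurableSet (by rw [mu0_ball]; finiteness), mu0_ball, mu0_ball, hε,
      ENNReal.ofReal_sub _ (sq_nonneg _), ENNReal.ofReal_pow (RR_pos M).le]
    simp
  · have b1 := h.ε_pos
    calc _ = ∑ k ∈ S, ENNReal.ofReal (ε / 64 * (hf k.1.2 * (1 / qq k.1.1))) := by
          refine sum_congr rfl fun k _ => ?_
          have := hf_pos k.1.2; have := qq_pos k.1.1
          rw [lintegral_indicator_const measurableSet_ball, mu0_ball,
            ← ENNReal.ofReal_pow (by positivity), ← ENNReal.ofReal_mul (by positivity)]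
          congr 1; field_simp; norm_num
      _ ≤ _ := by
          have b2 : ∀ k : Ix, 0 ≤ hf k.1.2 * (1 / qq k.1.1) := fun k => by
            have := hf_pos k.1.2; have := qq_pos k.1.1; positivity
          rw [← ENNReal.ofReal_sum_of_nonneg fun k _ => mul_nonneg (by positivity) (b2 k),
            ← mul_sum]
          refine ENNReal.ofReal_le_ofReal ?_
          have b3 := sum_le_sum_of_subset_of_nonneg h.sub fun k _ _ => b2 k
          rw [sum_idx (F := fun m => 1 / qq m), ← mul_sum] at b3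
          nlinarith [sum_inv_qq30 M]

end Sel

end Pool.Agent.MP_7cfdbb_an

end

-- part MP_7cfdbb_an.Pairs
section

/-! Counting close pairs in a box. -/

namespace Pool.Agent.MP_7cfdbb_an

open MeasureTheory Metric Set
open scoped ENNReal ComplexConjugate

theorem cheb {Ω : Type*} [MeasurableSpace Ω] {P : Measure Ω} [IsProbabilityMeasure P]
    {N : Ω → ℝ≥0∞} (hN : Measurable N) (hfin : ∀ ω, N ω ≠ ⊤) {ν C : ℝ≥0∞} (hν : ν ≠ ⊤)
    (hν0 : ν ≠ 0) (h1 : ∫⁻ ω, N ω ∂P = ν) (h2 : ∫⁻ ω, N ω ^ 2 ∂P ≤ ν ^ 2 + C * ν) :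
    P {ω | 2 * N ω ≤ ν} ≤ 4 * C / ν := by
  have hs : MeasurableSet {ω | 2 * N ω ≤ ν} := measurableSet_le (hN.const_mul 2) measurable_const
  have h3 : ∀ ω, {ω | 2 * N ω ≤ ν}.indicator (fun _ => ν ^ 2) ω + 8 * ν * N ω ≤
      4 * N ω ^ 2 + 4 * ν ^ 2 := by
    intro ω
    lift ν to NNReal using hν
    obtain ⟨n, hn⟩ : ∃ n : NNReal, N ω = n := ⟨(N ω).toNNReal, (ENNReal.coe_toNNReal (hfin ω)).symm⟩
    by_cases h : ω ∈ {ω | 2 * N ω ≤ ν}
    · rw [indicator_of_mem h]
      rw [mem_ofPred_eq, hn] at h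
      rw [hn]
      have h' : 2 * (n : ℝ) ≤ ν := by exact_mod_cast h
      have : (ν : ℝ) ^ 2 + 8 * ν * n ≤ 4 * n ^ 2 + 4 * ν ^ 2 := by
        nlinarith [n.coe_nonneg, ν.coe_nonneg]
      exact_mod_cast this
    · rw [indicator_of_notMem h, hn, zero_add]
      have : 8 * (ν : ℝ) * n ≤ 4 * n ^ 2 + 4 * ν ^ 2 := by nlinarith [sq_nonneg ((n : ℝ) - ν)]
      exact_mod_cast this
  have h4 := lintegral_mono (μ := P) h3
  rw [lintegral_add_left (measurable_const.indicator hs), lintegral_indicator_const hs,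
    lintegral_const_mul _ hN, h1, lintegral_add_right _ measurable_const,
    lintegral_const_mul _ (hN.pow_const 2), lintegral_const, measure_univ, mul_one] at h4
  have h5 : ν ^ 2 * P {ω | 2 * N ω ≤ ν} + 8 * ν * ν ≤ 4 * C * ν + 8 * ν * ν := by
    refine h4.trans ?_
    calc _ ≤ 4 * (ν ^ 2 + C * ν) + 4 * ν ^ 2 := by gcongr
      _ = _ := by ring
  have h6 := ENNReal.le_of_add_le_add_right (by finiteness) h5
  rw [ENNReal.le_div_iff_mul_le (Or.inl hν0) (Or.inl hν)]
  rw [← ENNReal.mul_le_mul_iff_left hν0 hν]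
  calc _ = ν ^ 2 * P {ω | 2 * N ω ≤ ν} := by ring
    _ ≤ _ := h6

theorem rho_two (a : Fin 2 → ℂ) :
    rho a = rho1 (a 0) * rho1 (a 1) - (‖den (a 0) (a 1)‖ ^ 4)⁻¹ := by
  rw [rho, Matrix.det_fin_two]
  simp only [Matrix.of_apply, K_diag]
  have e1 : K (a 1) (a 0) = (den (a 0) (a 1) ^ 2)⁻¹ := by simp [K, den, mul_comm]
  have e2 : K (a 0) (a 1) = conj (den (a 0) (a 1) ^ 2)⁻¹ := by simp [K, den]
  rw [e1, e2, mul_comm (conj _), Complex.mul_conj, Complex.normSq_eq_norm_sq, norm_inv, norm_pow,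
    inv_pow, ← pow_mul, ← Complex.ofReal_mul, ← Complex.ofReal_sub, Complex.ofReal_re]

theorem rho_two_ge {y x : ℂ} (hy : ‖y‖ < 1) (hx : ‖x‖ < 1) :
    rho1 y * rho1 x * ‖phi y x‖ ^ 2 ≤ rho1 y * rho1 x - (‖den y x‖ ^ 4)⁻¹ := by
  have h1 := one_sub_sq_pos hy
  have h2 := one_sub_sq_pos hx
  have h3 := norm_den_pos hy hx.le
  have e : (‖den y x‖ ^ 4)⁻¹ = rho1 y * rho1 x * tt y x ^ 2 := by
    unfold rho1 tt; field_simp
  rw [e, norm_phi_sq hy hx.le]
  have := tt_nonneg hy.le hx.le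
  have := tt_le_one hy hx.le
  have h4 : 0 ≤ rho1 y * rho1 x := mul_nonneg (rho1_nonneg _) (rho1_nonneg _)
  have : tt y x ^ 2 ≤ tt y x := by nlinarith
  nlinarith

/-- The set of close pairs. -/
def pairSet (lam : ℂ) (δ h κ η : ℝ) : Set (Fin 2 → ℂ) :=
  {a | a 0 ∈ Box lam δ h κ ∧ a 1 ∈ ball (a 0 + (3 / 4 * (η * δ) : ℝ)) (η * δ / 4)}

theorem measurableSet_pairSet (lam : ℂ) (δ h κ η : ℝ) : MeasurableSet (pairSet lam δ h κ η) := by
  have hB : MeasurableSet (Box lam δ h κ) := measurableSet_Rect _ _ _ _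
  have h1 : MeasurableSet {a : Fin 2 → ℂ | a 0 ∈ Box lam δ h κ} := measurable_pi_apply 0 hB
  have h2 : MeasurableSet {a : Fin 2 → ℂ | dist (a 1) (a 0 + (3 / 4 * (η * δ) : ℝ)) < η * δ / 4} :=
    measurableSet_lt (by fun_prop) measurable_const
  exact h1.inter h2

theorem pair_dist {η δ : ℝ} (h : 0 < η * δ) {y x : ℂ}
    (hx : x ∈ ball (y + (3 / 4 * (η * δ) : ℝ)) (η * δ / 4)) :
    η * δ / 2 ≤ ‖x - y‖ ∧ ‖x - y‖ < η * δ := by
  rw [mem_ball, dist_eq_norm] at hx
  have e : x - y = (x - (y + (3 / 4 * (η * δ) : ℝ))) + (3 / 4 * (η * δ) : ℝ) := by ring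
  have h1 : ‖((3 / 4 * (η * δ) : ℝ) : ℂ)‖ = 3 / 4 * (η * δ) := by
    rw [Complex.norm_real, Real.norm_eq_abs, abs_of_pos (by positivity)]
  have h2 := norm_add_le (x - (y + (3 / 4 * (η * δ) : ℝ))) ((3 / 4 * (η * δ) : ℝ) : ℂ)
  have h3 := norm_sub_le (x - y) (x - (y + (3 / 4 * (η * δ) : ℝ)))
  rw [← e] at h2
  rw [show x - y - (x - (y + (3 / 4 * (η * δ) : ℝ))) = ((3 / 4 * (η * δ) : ℝ) : ℂ) by ring] at h3
  constructor <;> linarith

section

variable {δ h κ η : ℝ} (p : Par δ h κ η) {lam : ℂ} (hl : ‖lam‖ = 1)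
include p hl

theorem Par.near_le {y u : ℂ} (hy : y ∈ Box lam δ h κ) (hu : ‖u - y‖ ≤ δ / 2) :
    ‖u‖ ≤ 1 - δ / 2 := by
  have := p.norm_le hl hy
  have := norm_le_insert' u y
  linarith

theorem Par.rho_pair_ge {a : Fin 2 → ℂ} (ha : a ∈ pairSet lam δ h κ η) :
    η ^ 2 / (57600 * δ ^ 4) ≤ rho a := by
  have hδ := p.δ_pos; have hη := p.η_pos; have hη1 := p.η_le; have hκ := p.κ_le
  have hκ0 := p.κ_pos
  obtain ⟨d1, d2⟩ := pair_dist (by positivity) ha.2
  have y1 := p.norm_le hl ha.1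
  have y2 := p.norm_ge hl ha.1
  have hηδ : η * δ ≤ δ / 16 := by nlinarith
  have hκδ : δ * κ ≤ δ / 8 := by nlinarith
  have x1 := p.near_le hl ha.1 (u := a 1) (by linarith)
  have x2 : 1 - 2 * δ ≤ ‖a 1‖ := by
    have := norm_le_insert' (a 0) (a 1)
    rw [norm_sub_rev] at this
    linarith
  have hy : ‖a 0‖ < 1 := by linarith
  have hx : ‖a 1‖ < 1 := by linarith
  rw [rho_two]
  refine le_trans ?_ (rho_two_ge hy hx)
  have r1 : ∀ u : ℂ, ‖u‖ < 1 → 1 - 2 * δ ≤ ‖u‖ → 1 - ‖u‖ ^ 2 ≤ 4 * δ := by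
    intro u h1 h2; nlinarith [norm_nonneg u]
  have r2 : ∀ u : ℂ, ‖u‖ < 1 → 1 - 2 * δ ≤ ‖u‖ → ((4 * δ) ^ 2)⁻¹ ≤ rho1 u := by
    intro u h1 h2
    have := one_sub_sq_pos h1
    have := r1 u h1 h2
    unfold rho1; gcongr
  have r3 : η / 10 ≤ ‖phi (a 0) (a 1)‖ := by
    rw [norm_phi, le_div_iff₀ (norm_den_pos hy hx.le)]
    have := norm_den_le (a 0) (a 1) hy.le
    have := r1 _ hy (by linarith)
    nlinarith
  calc η ^ 2 / (57600 * δ ^ 4) ≤ ((4 * δ) ^ 2)⁻¹ * ((4 * δ) ^ 2)⁻¹ * (η / 10) ^ 2 := by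
        rw [div_le_iff₀ (by positivity)]
        field_simp
        norm_num
    _ ≤ _ := by
        have := rho1_nonneg (a 0)
        have := rho1_nonneg (a 1)
        gcongr
        · exact r2 _ hy (by linarith)
        · exact r2 _ hx x2

theorem Par.measure_pairSet {r : ℝ} (hr : 1 - r ≤ δ / 4) :
    ENNReal.ofReal (δ * κ * h / 8 * (η * δ / 4) ^ 2) ≤
      (Measure.pi fun _ : Fin 2 => mr r) (pairSet lam δ h κ η) := by
  have hδ := p.δ_pos; have hη := p.η_pos; have hη1 := p.η_le; have hκ := p.κ_le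
  have hκ0 := p.κ_pos
  have hh : 0 < h := by linarith [p.δ_le]
  have hηδ : η * δ ≤ δ / 16 := by nlinarith
  let E : Set (ℂ × ℂ) :=
    {q | q.1 ∈ Box lam δ h κ ∧ q.2 ∈ ball (q.1 + (3 / 4 * (η * δ) : ℝ)) (η * δ / 4)}
  have hB : MeasurableSet (Box lam δ h κ) := measurableSet_Rect _ _ _ _
  have hE : MeasurableSet E := by
    have h2 : MeasurableSet {q : ℂ × ℂ | dist q.2 (q.1 + (3 / 4 * (η * δ) : ℝ)) < η * δ / 4} :=
      measurableSet_lt (by fun_prop) measurable_const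
    exact (measurable_fst hB).inter h2
  have e : pairSet lam δ h κ η = MeasurableEquiv.finTwoArrow ⁻¹' E := rfl
  rw [e, (measurePreserving_finTwoArrow (mr r)).measure_preimage hE.nullMeasurableSet,
    Measure.prod_apply hE]
  have hsub : Box lam δ h κ ⊆ ball 0 r := fun y hy => by
    rw [mem_ball_zero_iff]; linarith [p.norm_le hl hy]
  calc _ ≤ ENNReal.ofReal (η * δ / 4) ^ 2 * mr r (Box lam δ h κ) := by
        rw [mr, Measure.restrict_eq_self _ hsub, Box, mu0_Rect hl (by nlinarith),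
          ← ENNReal.ofReal_pow (by positivity), ← ENNReal.ofReal_mul (by positivity)]
        refine ENNReal.ofReal_le_ofReal ?_
        rw [mul_comm]
        refine mul_le_mul_of_nonneg_left ?_ (by positivity)
        rw [le_div_iff₀ Real.pi_pos]
        have : 0 < δ * κ * h := by positivity
        nlinarith [Real.pi_le_four]
    _ = ∫⁻ y, (Box lam δ h κ).indicator (fun _ => ENNReal.ofReal (η * δ / 4) ^ 2) y ∂mr r := by
        rw [lintegral_indicator_const hB]
    _ ≤ _ := by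
        refine lintegral_mono fun y => ?_
        by_cases hy : y ∈ Box lam δ h κ
        · rw [indicator_of_mem hy]
          have : Prod.mk y ⁻¹' E = ball (y + (3 / 4 * (η * δ) : ℝ)) (η * δ / 4) := by
            ext x; simp [E, hy]
          rw [this, mr, Measure.restrict_eq_self, mu0_ball]
          intro x hx
          have := (pair_dist (by positivity) hx).2
          rw [mem_ball_zero_iff]
          have := p.near_le hl hy (u := x) (by linarith)
          linarith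
        · rw [indicator_of_notMem hy]; exact zero_le

theorem Par.nu_ge {r : ℝ} (hr : 1 - r ≤ δ / 4) :
    ENNReal.ofReal (κ * η ^ 4 * h / (10 ^ 7 * δ)) ≤ ∫⁻ a, ENNReal.ofReal (rho a) *
      (pairSet lam δ h κ η).indicator 1 a ∂(Measure.pi fun _ : Fin 2 => mr r) := by
  have hδ := p.δ_pos; have hη := p.η_pos; have hκ0 := p.κ_pos
  have hh : 0 < h := by linarith [p.δ_le]
  calc _ ≤ ENNReal.ofReal (η ^ 2 / (57600 * δ ^ 4)) *
        ENNReal.ofReal (δ * κ * h / 8 * (η * δ / 4) ^ 2) := by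
        rw [← ENNReal.ofReal_mul (by positivity)]
        refine ENNReal.ofReal_le_ofReal ?_
        rw [div_le_iff₀ (by positivity)]
        field_simp
        norm_num
    _ ≤ ENNReal.ofReal (η ^ 2 / (57600 * δ ^ 4)) *
        (Measure.pi fun _ : Fin 2 => mr r) (pairSet lam δ h κ η) := by
        gcongr; exact p.measure_pairSet hl hr
    _ = ∫⁻ a, (pairSet lam δ h κ η).indicator (fun _ => ENNReal.ofReal (η ^ 2 / (57600 * δ ^ 4))) a
        ∂(Measure.pi fun _ : Fin 2 => mr r) := by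
        rw [lintegral_indicator_const (measurableSet_pairSet _ _ _ _ _)]
    _ ≤ _ := by
        refine lintegral_mono fun a => ?_
        by_cases ha : a ∈ pairSet lam δ h κ η
        · simp only [indicator_of_mem ha, Pi.one_apply, mul_one]
          exact ENNReal.ofReal_le_ofReal (p.rho_pair_ge hl ha)
        · simp [indicator_of_notMem ha]

end

theorem nu_ne_top {r : ℝ} (h1 : r < 1) (E : Set (Fin 2 → ℂ)) :
    ∫⁻ a, ENNReal.ofReal (rho a) * E.indicator 1 a ∂(Measure.pi fun _ : Fin 2 => mr r) ≠ ⊤ := by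
  refine ne_top_of_le_ne_top (b := ∫⁻ _, ENNReal.ofReal ((((1 - r ^ 2) ^ 2)⁻¹) ^ 2)
    ∂(Measure.pi fun _ : Fin 2 => mr r)) ?_ (lintegral_mono_ae ?_)
  · rw [lintegral_const]; finiteness
  · filter_upwards [ae_pi_mr (ι := Fin 2) r] with a ha
    calc _ ≤ ENNReal.ofReal (rho a) * 1 := by
          gcongr; exact indicator_le_self' (fun _ _ => zero_le) a
      _ ≤ _ := by
          rw [mul_one]
          refine ENNReal.ofReal_le_ofReal ((rho_le_prod a fun i => (ha i).trans h1).trans ?_)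
          rw [Fin.prod_univ_two, sq]
          exact mul_le_mul (rho1_le h1 (ha 0)) (rho1_le h1 (ha 1)) (rho1_nonneg _) (by positivity)

theorem pair_count {δ h κ η : ℝ} (hηδ : 0 < η * δ) (lam : ℂ) (T : Finset ℂ) {a : Fin 2 → ℂ}
    (ha : a ∈ pairSet lam δ h κ η) :
    ∑ b ∈ tup (Fin 2) T, (pairSet lam δ h κ η).indicator (1 : (Fin 2 → ℂ) → ℝ≥0∞) b ≤
      ∑ b ∈ tup (Fin 2) (T \ Finset.univ.image a), (pairSet lam δ h κ η).indicator 1 b +
        8 * ∏ u ∈ T \ Finset.univ.image a,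
          (1 + (ball (a 0) (2 * (η * δ))).indicator (1 : ℂ → ℝ≥0∞) u) := by
  classical
  set A := Finset.univ.image a with hA
  set Ta := (T \ A).filter fun u => u ∈ ball (a 0) (2 * (η * δ)) with hTa
  have hAc : A.card ≤ 2 := Finset.card_image_le.trans (by simp)
  have hAd : ∀ u ∈ A, ‖u - a 0‖ < η * δ := by
    intro u hu
    obtain ⟨i, _, rfl⟩ := Finset.mem_image.mp hu
    fin_cases i
    · simpa using hηδ
    · exact (pair_dist hηδ ha.2).2
  have hprod : ∏ u ∈ T \ A, (1 + (ball (a 0) (2 * (η * δ))).indicator (1 : ℂ → ℝ≥0∞) u) =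
      2 ^ Ta.card := by
    rw [← Finset.prod_const, hTa, Finset.prod_filter]
    refine Finset.prod_congr rfl fun u _ => ?_
    split_ifs with hu
    · rw [indicator_of_mem hu]; norm_num
    · rw [indicator_of_notMem hu]; norm_num
  let Bad := (tup (Fin 2) T).filter fun b => b ∈ pairSet lam δ h κ η ∧ (b 0 ∈ A ∨ b 1 ∈ A)
  have hcard : Bad.card ≤ 8 * 2 ^ Ta.card := by
    have h1 : Bad.card ≤ ((A ×ˢ (Ta ∪ A)) ∪ ((Ta ∪ A) ×ˢ A)).card := by
      refine Finset.card_le_card_of_injOn (fun b => (b 0, b 1)) ?_ ?_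
      · intro b hb
        simp only [Bad, Finset.coe_filter, mem_ofPred_eq, mem_tup] at hb
        obtain ⟨⟨hb1, _⟩, hb3, hb4⟩ := hb
        have hd := (pair_dist hηδ hb3.2).2
        have key : ∀ u ∈ T, ‖u - a 0‖ < 2 * (η * δ) → u ∈ Ta ∪ A := by
          intro u hu hu2
          by_cases huA : u ∈ A
          · exact Finset.mem_union_right _ huA
          · exact Finset.mem_union_left _ (Finset.mem_filter.mpr
              ⟨Finset.mem_sdiff.mpr ⟨hu, huA⟩, by rwa [mem_ball, dist_eq_norm]⟩)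
        simp only [Finset.coe_union, Finset.coe_product, mem_union, mem_prod, Finset.mem_coe]
        rcases hb4 with hb4 | hb4
        · refine Or.inl ⟨hb4, Finset.mem_union.mp (key _ (hb1 1) ?_)⟩
          have := hAd _ hb4
          have := norm_sub_le_norm_sub_add_norm_sub (b 1) (b 0) (a 0)
          linarith
        · refine Or.inr ⟨Finset.mem_union.mp (key _ (hb1 0) ?_), hb4⟩
          have := hAd _ hb4
          have := norm_sub_le_norm_sub_add_norm_sub (b 0) (b 1) (a 0)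
          rw [norm_sub_rev] at hd
          linarith
      · intro b _ b' _ hbb
        simp only [Prod.mk.injEq] at hbb
        funext i
        fin_cases i
        exacts [hbb.1, hbb.2]
    have h2 := Finset.card_union_le (A ×ˢ (Ta ∪ A)) ((Ta ∪ A) ×ˢ A)
    have h3 := Finset.card_union_le Ta A
    rw [Finset.card_product, Finset.card_product] at h2
    have h4 : Ta.card < 2 ^ Ta.card := Nat.lt_two_pow_self
    nlinarith
  rw [hprod]
  calc _ ≤ ∑ b ∈ tup (Fin 2) T, ((if b ∈ tup (Fin 2) (T \ A) then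
          (pairSet lam δ h κ η).indicator (1 : (Fin 2 → ℂ) → ℝ≥0∞) b else 0) +
          if b ∈ pairSet lam δ h κ η ∧ (b 0 ∈ A ∨ b 1 ∈ A) then 1 else 0) := by
        refine Finset.sum_le_sum fun b hb => ?_
        by_cases h1 : b ∈ tup (Fin 2) (T \ A)
        · rw [if_pos h1]; exact le_self_add
        · by_cases h2 : b ∈ pairSet lam δ h κ η
          · rw [if_neg h1, if_pos, indicator_of_mem h2, zero_add]
            · rfl
            · refine ⟨h2, ?_⟩
              rw [mem_tup] at hb h1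
              by_contra h3
              push Not at h3
              refine h1 ⟨fun i => Finset.mem_sdiff.mpr ⟨hb.1 i, ?_⟩, hb.2⟩
              fin_cases i
              exacts [h3.1, h3.2]
          · rw [indicator_of_notMem h2]; exact zero_le
    _ ≤ _ := by
        rw [Finset.sum_add_distrib]
        refine add_le_add ?_ ?_
        · rw [← Finset.sum_filter]
          exact Finset.sum_le_sum_of_subset fun b hb => (Finset.mem_filter.mp hb).2
        · rw [Finset.sum_boole]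
          exact_mod_cast hcard

variable {Ω : Type*} [MeasurableSpace Ω] {P : Measure Ω} {r : ℝ} {S : Ω → Finset ℂ}

theorem FinProc.second_moment (hP : FinProc P r S) {δ h κ η : ℝ} (p : Par δ h κ η) {lam : ℂ}
    (hl : ‖lam‖ = 1) {ν : ℝ≥0∞} (hν : ∫⁻ a, ENNReal.ofReal (rho a) *
      (pairSet lam δ h κ η).indicator 1 a ∂(Measure.pi fun _ : Fin 2 => mr r) = ν) :
    ∫⁻ ω, (∑ a ∈ tup (Fin 2) (S ω), (pairSet lam δ h κ η).indicator (1 : (Fin 2 → ℂ) → ℝ≥0∞) a) ^ 2
      ∂P ≤ ν ^ 2 + 24 * ν := by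
  have hδ := p.δ_pos; have hη := p.η_pos; have hη1 := p.η_le
  set ψ : (Fin 2 → ℂ) → ℝ≥0∞ := (pairSet lam δ h κ η).indicator 1 with hψ
  have hψm : Measurable ψ := measurable_one.indicator (measurableSet_pairSet _ _ _ _ _)
  let F : (Fin 2 → ℂ) × (Fin 2 → ℂ) → ℝ≥0∞ := fun q => ψ q.1 * ψ q.2
  have hF : Measurable F := (hψm.comp measurable_fst).mul (hψm.comp measurable_snd)
  let g : (Fin 2 → ℂ) × ℂ → ℝ≥0∞ := fun q => (ball (q.1 0) (2 * (η * δ))).indicator 1 q.2
  have hg : Measurable g := by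
    have : g = {q : (Fin 2 → ℂ) × ℂ | dist q.2 (q.1 0) < 2 * (η * δ)}.indicator 1 := by
      funext q; rfl
    rw [this]
    exact measurable_one.indicator (measurableSet_lt (by fun_prop) measurable_const)
  have h1 : ∀ ω, (∑ a ∈ tup (Fin 2) (S ω), ψ a) ^ 2 ≤
      ∑ a ∈ tup (Fin 2) (S ω), ∑ b ∈ tup (Fin 2) (S ω \ Finset.univ.image a), F (a, b) +
      8 * ∑ a ∈ tup (Fin 2) (S ω), ψ a * ∏ u ∈ S ω \ Finset.univ.image a, (1 + g (a, u)) := by
    intro ω
    rw [sq, Finset.sum_mul, Finset.mul_sum, ← Finset.sum_add_distrib]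
    refine Finset.sum_le_sum fun a _ => ?_
    by_cases ha : a ∈ pairSet lam δ h κ η
    · have : ψ a = 1 := indicator_of_mem ha _
      simp only [F, this, one_mul]
      exact pair_count (by positivity) lam (S ω) ha
    · have : ψ a = 0 := indicator_of_notMem ha _
      simp [this]
  refine (lintegral_mono h1).trans ?_
  rw [lintegral_add_left (FinProc.measurable_palm hP.meas hF),
    lintegral_const_mul _ (hP.measurable_palm_prod hψm hg)]
  refine add_le_add ((hP.palm hF).trans (le_of_eq ?_)) ?_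
  · have hm : Measurable fun b : Fin 2 → ℂ => ENNReal.ofReal (rho b) * ψ b :=
      measurable_rho.ennreal_ofReal.mul hψm
    have : ∀ a : Fin 2 → ℂ, ENNReal.ofReal (rho a) * ∫⁻ b, ENNReal.ofReal (rho b) * F (a, b)
        ∂(Measure.pi fun _ => mr r) = ENNReal.ofReal (rho a) * ψ a * ν := by
      intro a
      simp only [F, mul_left_comm _ (ψ a)]
      rw [lintegral_const_mul _ hm, hν]; ring
    simp only [this]
    rw [lintegral_mul_const _ hm, hν, sq]
  · have h2 := hP.palm_prod hψm hg zero_le_one (fun a ha => ?_)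
    · rw [hν] at h2
      calc _ ≤ 8 * (ENNReal.ofReal (Real.exp 1) * ν) := by gcongr
        _ ≤ 8 * (3 * ν) := by
            gcongr
            rw [← ENNReal.ofReal_ofNat 3]
            exact ENNReal.ofReal_le_ofReal (by linarith [Real.exp_one_lt_d9])
        _ = _ := by ring
    · have haB : a 0 ∈ Box lam δ h κ := by
        by_contra hn
        exact ha (indicator_of_notMem (fun h' => hn h'.1) _)
      calc _ ≤ ∫⁻ u, (ball (a 0) (2 * (η * δ))).indicator
            (fun _ => ENNReal.ofReal (((δ / 2) ^ 2)⁻¹)) u ∂mu0 := by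
            refine lintegral_mono' Measure.restrict_le_self fun u => ?_
            by_cases hu : u ∈ ball (a 0) (2 * (η * δ))
            · simp only [g, indicator_of_mem hu, Pi.one_apply, mul_one]
              refine ENNReal.ofReal_le_ofReal ?_
              rw [mem_ball, dist_eq_norm] at hu
              have h3 := p.near_le hl haB (u := u) (by nlinarith)
              have h4 : δ / 2 ≤ 1 - ‖u‖ ^ 2 := by nlinarith [norm_nonneg u]
              unfold rho1; gcongr
            · simp [g, indicator_of_notMem hu]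
        _ ≤ _ := by
            rw [lintegral_indicator_const isOpen_ball.measurableSet, mu0_ball,
              ← ENNReal.ofReal_pow (by positivity), ← ENNReal.ofReal_mul (by positivity)]
            refine ENNReal.ofReal_le_ofReal ?_
            field_simp
            nlinarith

end Pool.Agent.MP_7cfdbb_an

end

-- part MP_7cfdbb_an.BoxProb
section

/-! The probability that a box contains no good pair. -/

namespace Pool.Agent.MP_7cfdbb_an

open MeasureTheory Metric Set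
open scoped ENNReal ComplexConjugate

variable {Ω : Type*} [MeasurableSpace Ω] {P : Measure Ω} {r : ℝ} {S : Ω → Finset ℂ}

theorem FinProc.measurable_lintegral_Bl (hP : FinProc P r S) (k : ℕ) (μ : Measure ℂ) [SFinite μ] :
    Measurable fun ω => ∫⁻ w, ENNReal.ofReal (‖Bl (S ω) w‖ ^ k) ∂μ :=
  (measurable_norm_Bl hP.meas k).lintegral_prod_right'

theorem FinProc.lintegral_swap (hP : FinProc P r S) [SFinite P] (k : ℕ) (μ : Measure ℂ)
    [SFinite μ] : ∫⁻ ω, ∫⁻ w, ENNReal.ofReal (‖Bl (S ω) w‖ ^ k) ∂μ ∂P =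
      ∫⁻ w, ∫⁻ ω, ENNReal.ofReal (‖Bl (S ω) w‖ ^ k) ∂P ∂μ :=
  lintegral_lintegral_swap (f := fun ω w => ENNReal.ofReal (‖Bl (S ω) w‖ ^ k))
    (measurable_norm_Bl hP.meas k).aemeasurable

theorem FinProc.upper_fail [IsProbabilityMeasure P] (hP : FinProc P r S) {δ h κ η : ℝ}
    (p : Par δ h κ η) {lam : ℂ} (hl : ‖lam‖ = 1) {q : ℝ} (hq : 0 < q) :
    P {ω | ∃ y ∈ Box lam δ h κ, ∃ w, ‖w - y‖ ≤ δ / 4 ∧
        Real.sqrt ((1 - r ^ 2) / δ) * q < ‖Bl (S ω) w‖} ≤
      ENNReal.ofReal (2 ^ 15 * Real.exp 121 * (h / δ) / q ^ 22) := by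
  have hδ := p.δ_pos; have hκ := p.κ_le; have hκ0 := p.κ_pos; have hδh := p.δ_le
  have hh : 0 < h := by linarith
  have h0 := hP.r_pos.le
  have h1 := hP.r_lt
  have hε : 0 < 1 - r ^ 2 := (one_sub_mul_pos (w := 0) (by simp) h0 h1).1
  set R := Rect lam (1 - δ * (1 + κ) - δ / 2) (1 - δ * (1 + κ / 2) + δ / 2) (h / 2 + δ / 2) with hR
  set U := R ∩ closedBall 0 (1 - δ / 2) with hU
  have hUm : MeasurableSet U := (measurableSet_Rect _ _ _ _).inter isClosed_closedBall.measurableSet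
  have hκδ : δ * κ ≤ δ / 8 := by nlinarith
  have hκδ0 : 0 < δ * κ := by positivity
  have hUv : mu0 U ≤ ENNReal.ofReal (δ * h) := by
    refine (measure_mono inter_subset_left).trans ?_
    rw [hR, mu0_Rect hl (by nlinarith)]
    refine ENNReal.ofReal_le_ofReal ?_
    rw [div_le_iff₀ Real.pi_pos]
    have : 0 < δ * h := by positivity
    nlinarith [Real.pi_gt_three]
  have hm := hP.measurable_lintegral_Bl (2 * 11) (mu0.restrict U)
  have hE : ∫⁻ ω, ∫⁻ w in U, ENNReal.ofReal (‖Bl (S ω) w‖ ^ (2 * 11)) ∂mu0 ∂P ≤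
      ENNReal.ofReal (Real.exp 121 * (2 * ((1 - r ^ 2) / δ)) ^ 11 * (δ * h)) := by
    rw [hP.lintegral_swap]
    calc _ ≤ ∫⁻ _ in U, ENNReal.ofReal (Real.exp 121 * (2 * ((1 - r ^ 2) / δ)) ^ 11) ∂mu0 := by
          refine setLIntegral_mono' hUm fun w hw => ?_
          have hw1 : ‖w‖ ≤ 1 - δ / 2 := mem_closedBall_zero_iff.mp hw.2
          refine (hP.moment_pos (by linarith) 11).trans (ENNReal.ofReal_le_ofReal ?_)
          have h2 : δ / 2 ≤ 1 - ‖w‖ ^ 2 * r ^ 2 := by
            have : ‖w‖ ^ 2 ≤ ‖w‖ := by nlinarith [norm_nonneg w]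
            have : r ^ 2 ≤ 1 := by nlinarith
            nlinarith [sq_nonneg ‖w‖]
          have h3 : (1 - r ^ 2) / (1 - ‖w‖ ^ 2 * r ^ 2) ≤ 2 * ((1 - r ^ 2) / δ) := by
            rw [show 2 * ((1 - r ^ 2) / δ) = (1 - r ^ 2) / (δ / 2) by field_simp]
            gcongr
          have h4 : 0 ≤ (1 - r ^ 2) / (1 - ‖w‖ ^ 2 * r ^ 2) := div_nonneg hε.le (by linarith)
          rw [show ((11 : ℕ) : ℝ) ^ 2 = 121 by norm_num]
          gcongr
      _ ≤ _ := by
          rw [setLIntegral_const, ENNReal.ofReal_mul (p := Real.exp 121 * _) (by positivity)]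
          gcongr
  have hty : Real.sqrt ((1 - r ^ 2) / δ) ^ 2 = (1 - r ^ 2) / δ := Real.sq_sqrt (by positivity)
  have h5 := meas_ge_le_lintegral_div (μ := P) hm.aemeasurable
    (ε := ENNReal.ofReal (((1 - r ^ 2) / δ) ^ 11 * q ^ 22 * (δ / 4) ^ 2))
    (by simp only [ne_eq, ENNReal.ofReal_eq_zero, not_le]; positivity) ENNReal.ofReal_ne_top
  refine le_trans (measure_mono ?_) (h5.trans ?_)
  · rintro ω ⟨y, hy, w, hw, hlt⟩
    have hsub : ball w (δ / 4) ⊆ U := by
      intro u hu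
      rw [mem_ball, dist_eq_norm] at hu
      have : ‖u - y‖ ≤ δ / 2 := by
        have := norm_sub_le_norm_sub_add_norm_sub u w y
        linarith
      exact ⟨Rect_thick hl hy this, mem_closedBall_zero_iff.mpr (p.near_le hl hy this)⟩
    have h6 := sub_mean (f := fun u => Bl (S ω) u ^ (2 * 11)) ((measurable_Bl _).pow_const _)
      (c := w) (R := δ / 4) (by positivity) (fun u hu => by
        have : ‖u‖ ≤ 1 - δ / 2 := mem_closedBall_zero_iff.mp (hsub hu).2
        exact ((differentiableAt_Bl (hP.sub1 ω) (by linarith)).pow _).differentiableWithinAt)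
    simp only [norm_pow] at h6
    refine le_trans (ENNReal.ofReal_le_ofReal ?_) (h6.trans (lintegral_mono_set hsub))
    rw [← hty, ← pow_mul, ← mul_pow]
    gcongr
  · rw [ENNReal.div_le_iff (by simp only [ne_eq, ENNReal.ofReal_eq_zero, not_le]; positivity)
      ENNReal.ofReal_ne_top, ← ENNReal.ofReal_mul (by positivity)]
    refine hE.trans (le_of_eq ?_)
    congr 1
    field_simp
    ring

theorem FinProc.box_fail [IsProbabilityMeasure P] (hP : FinProc P r S) {δ h κ η : ℝ}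
    (p : Par δ h κ η) {lam : ℂ} (hl : ‖lam‖ = 1) (hr : 1 - r ≤ δ / 4) {q : ℝ} (hq : 0 < q) :
    P {ω | ¬ ∃ y x, Good (S ω) lam δ h κ η (Real.sqrt ((1 - r ^ 2) / δ) / q ^ 2)
        (Real.sqrt ((1 - r ^ 2) / δ) * q) y x} ≤
      ENNReal.ofReal (10 ^ 9 * δ / (κ * η ^ 4 * h) + 130 / q ^ 2 +
        2 ^ 15 * Real.exp 121 * (h / δ) / q ^ 22) := by
  have hδ := p.δ_pos; have hκ := p.κ_le; have hκ0 := p.κ_pos; have hδh := p.δ_le
  have hη := p.η_pos
  have hh : 0 < h := by linarith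
  have h0 := hP.r_pos.le
  have h1 := hP.r_lt
  have hε : 0 < 1 - r ^ 2 := (one_sub_mul_pos (w := 0) (by simp) h0 h1).1
  set ty := Real.sqrt ((1 - r ^ 2) / δ) with hty
  have hty0 : 0 < ty := Real.sqrt_pos.mpr (by positivity)
  set ψ : (Fin 2 → ℂ) → ℝ≥0∞ := (pairSet lam δ h κ η).indicator 1 with hψ
  have hψm : Measurable ψ := measurable_one.indicator (measurableSet_pairSet _ _ _ _ _)
  set ν := ∫⁻ a, ENNReal.ofReal (rho a) * ψ a ∂(Measure.pi fun _ : Fin 2 => mr r) with hν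
  have hν1 : ν ≠ ⊤ := nu_ne_top h1 _
  have hν2 : ENNReal.ofReal (κ * η ^ 4 * h / (10 ^ 7 * δ)) ≤ ν := p.nu_ge hl hr
  have hν0 : ν ≠ 0 := by
    refine (lt_of_lt_of_le ?_ hν2).ne'
    rw [ENNReal.ofReal_pos]; positivity
  have hψB : ∀ a, ψ a ≠ 0 → a ∈ pairSet lam δ h κ η := fun a ha => by
    by_contra hn
    exact ha (indicator_of_notMem hn _)
  let N : Ω → ℝ≥0∞ := fun ω => ∑ a ∈ tup (Fin 2) (S ω), ψ a
  have hN : Measurable N := measurable_sum_tup hP.meas (F := fun q => ψ q.2)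
    (hψm.comp measurable_snd)
  have hA : P {ω | 2 * N ω ≤ ν} ≤ ENNReal.ofReal (10 ^ 9 * δ / (κ * η ^ 4 * h)) := by
    have h2 := cheb hN (fun ω => ENNReal.sum_ne_top.mpr fun a _ =>
      ne_top_of_le_ne_top ENNReal.one_ne_top (indicator_le_self' (fun _ _ => zero_le) a))
      hν1 hν0 (hP.corr_fun hψm) (hP.second_moment p hl rfl)
    refine h2.trans ((ENNReal.div_le_div_left hν2 _).trans ?_)
    rw [show (4 * 24 : ℝ≥0∞) = ENNReal.ofReal 96 by norm_num,
      ← ENNReal.ofReal_div_of_pos (by positivity)]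
    refine ENNReal.ofReal_le_ofReal ?_
    rw [div_div_eq_mul_div]
    exact div_le_div_of_nonneg_right (by nlinarith) (by positivity)
  let Z : Ω → ℝ≥0∞ := fun ω => ∑ a ∈ tup (Fin 2) (S ω),
    ψ a * (ENNReal.ofReal ‖Bl (S ω \ Finset.univ.image a) (a 0)‖)⁻¹
  have hyB : ∀ a, ψ a ≠ 0 → ‖a 0‖ < 1 := fun a ha => by
    linarith [p.norm_le hl (hψB a ha).1]
  have hZ : Measurable Z := hP.measurable_neg hψm (measurable_pi_apply 0) hyB
  have hB : P {ω | ν / (2 * ENNReal.ofReal (ty / q ^ 2)) ≤ Z ω} ≤ ENNReal.ofReal (130 / q ^ 2) := by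
    have hε2 : 1 - r ^ 2 ≤ δ := by nlinarith
    have hlog : 0 ≤ Real.log (9 * δ / (1 - r ^ 2)) :=
      Real.log_nonneg (by rw [le_div_iff₀ hε]; linarith)
    have h2 := hP.moment_neg hψm (measurable_pi_apply 0)
      (c := Real.log (9 * δ / (1 - r ^ 2)) / 2 + 3) (by linarith) (fun a ha => ⟨hyB a ha, by
        have y1 := p.norm_ge hl (hψB a ha).1
        have y2 := hyB a ha
        have h3 := one_sub_mul_pos y2.le h0 h1
        rw [Real.log_div (by positivity) hε.ne', Ir]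
        have h4 : 1 - ‖a 0‖ ^ 2 * r ^ 2 ≤ 9 * δ := by
          have : 1 - 2 * δ ≤ ‖a 0‖ := by nlinarith
          have h5 : 1 - 3 * δ ≤ ‖a 0‖ * r := by nlinarith [norm_nonneg (a 0)]
          have h6 : ‖a 0‖ * r ≤ 1 := by nlinarith [norm_nonneg (a 0)]
          have h7 : 0 ≤ ‖a 0‖ * r := mul_nonneg (norm_nonneg _) h0
          rw [← mul_pow]; nlinarith
        have := Real.log_le_log (h3.1.trans_le h3.2) h4
        linarith⟩)
    have hm0 : (2 * ENNReal.ofReal (ty / q ^ 2)) ≠ 0 := by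
      simp only [ne_eq, mul_eq_zero, OfNat.ofNat_ne_zero, ENNReal.ofReal_eq_zero, false_or, not_le]
      positivity
    have hm1 : (2 * ENNReal.ofReal (ty / q ^ 2)) ≠ ⊤ := by finiteness
    have h3 := mul_meas_ge_le_lintegral (μ := P) hZ (ν / (2 * ENNReal.ofReal (ty / q ^ 2)))
    have h4 := h3.trans h2
    generalize P {ω | ν / (2 * ENNReal.ofReal (ty / q ^ 2)) ≤ Z ω} = X at h4 ⊢
    rw [← hν, ENNReal.div_eq_inv_mul, mul_right_comm, ENNReal.mul_le_mul_iff_left hν0 hν1,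
      ENNReal.inv_mul_le_iff hm0 hm1] at h4
    refine h4.trans ?_
    rw [← ENNReal.ofReal_ofNat 2, ← ENNReal.ofReal_mul (by norm_num),
      ← ENNReal.ofReal_mul (by positivity)]
    refine ENNReal.ofReal_le_ofReal ?_
    have e1 : Real.exp (Real.log (9 * δ / (1 - r ^ 2)) / 2) = 3 / ty := by
      rw [Real.exp_half, Real.exp_log (by positivity), hty, eq_div_iff hty0.ne',
        ← Real.sqrt_mul (by positivity), show 9 * δ / (1 - r ^ 2) * ((1 - r ^ 2) / δ) = 3 ^ 2 by
          field_simp; norm_num, Real.sqrt_sq (by norm_num)]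
    have e2 : Real.exp 3 ≤ 21 := by
      rw [show (3 : ℝ) = ((3 : ℕ) : ℝ) * 1 by norm_num, Real.exp_nat_mul]
      calc Real.exp 1 ^ 3 ≤ 2.7182818286 ^ 3 := by gcongr; exact Real.exp_one_lt_d9.le
        _ ≤ 21 := by norm_num
    rw [Real.exp_add, e1]
    calc _ = 6 * Real.exp 3 / q ^ 2 := by field_simp; norm_num
      _ ≤ _ := by gcongr; linarith
  have hC := hP.upper_fail p hl hq
  rw [ENNReal.ofReal_add (by positivity) (by positivity),
    ENNReal.ofReal_add (by positivity) (by positivity)]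
  refine le_trans (measure_mono ?_) ((measure_union_le _ _).trans
    (add_le_add ((measure_union_le _ _).trans (add_le_add hA hB)) hC))
  intro ω hω
  by_contra hn
  simp only [mem_union, mem_ofPred_eq, not_or, not_le, not_exists, not_and, not_lt] at hn
  obtain ⟨⟨hn1, hn2⟩, hn3⟩ := hn
  have h2 : N ω ≤ ENNReal.ofReal (ty / q ^ 2) * Z ω := by
    rw [Finset.mul_sum]
    refine Finset.sum_le_sum fun a ha => ?_
    by_cases ha0 : ψ a = 0
    · rw [ha0]; exact zero_le
    have ha1 := hψB a ha0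
    rw [mem_tup] at ha
    have him : Finset.univ.image a = {a 0, a 1} := by
      ext u; simp [Fin.exists_fin_two, eq_comm]
    have hlt : ‖Bl (S ω \ Finset.univ.image a) (a 0)‖ ≤ ty / q ^ 2 := by
      by_contra hge
      rw [him] at hge
      exact hω ⟨a 0, a 1, ha.1 0, ha.1 1, fun h' => absurd (ha.2 h') (by decide), ha1.1,
        (pair_dist (by positivity) ha1.2).2.le, (not_le.mp hge).le, hn3 _ ha1.1⟩
    rw [mul_left_comm]
    refine le_mul_of_one_le_right' ?_
    rw [← div_eq_mul_inv, ENNReal.le_div_iff_mul_le (Or.inr (by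
      simp only [ne_eq, ENNReal.ofReal_eq_zero, not_le]; positivity))
      (Or.inl ENNReal.ofReal_ne_top), one_mul]
    exact ENNReal.ofReal_le_ofReal hlt
  have h3 : ν < 2 * ENNReal.ofReal (ty / q ^ 2) * Z ω := by
    rw [mul_assoc]
    exact hn1.trans_le (by gcongr)
  exact absurd (ENNReal.div_le_of_le_mul' h3.le) (not_le.mpr hn2)

end Pool.Agent.MP_7cfdbb_an

end

-- part MP_7cfdbb_an.Finite
section

/-! The finite process admits a test function with high probability. -/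

namespace Pool.Agent.MP_7cfdbb_an

open Finset Metric MeasureTheory
open scoped ENNReal ComplexConjugate

attribute [local irreducible] LL RR

/-- The box of a sector contains a good pair. -/
def GoodIx (T : Finset ℂ) (ε : ℝ) (k : Ix) : Prop :=
  ∃ y x, Good T (lm k) (hf k.1.2) (1 / nl k.1) (1 / qq k.1.1) (1 / qq k.1.1 ^ 4)
    (Real.sqrt (ε / hf k.1.2) / qq k.1.1 ^ 2) (Real.sqrt (ε / hf k.1.2) * qq k.1.1) y x

/-- A test function for the finite set `T` with constant `c`. -/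
def Test (T : Finset ℂ) (c : ℝ) : Prop :=
  ∃ F : ℂ → ℂ, (∀ w, ‖w‖ ≤ 1 → DifferentiableAt ℂ F w) ∧ (∀ t ∈ T, 0 ≤ (F t).re) ∧
    (F 0).re ≤ -c ∧ ∫⁻ w, ENNReal.ofReal (‖F w‖ ^ 2) ∂mr 1 ≤ 1

theorem Par.box_nonempty {δ h κ η : ℝ} (p : Par δ h κ η) {lam : ℂ} (hl : ‖lam‖ = 1) :
    ∃ y, y ∈ Box lam δ h κ := by
  have h0 : conj lam * lam = 1 := by
    rw [mul_comm, Complex.mul_conj, Complex.normSq_eq_norm_sq, hl]; simp
  have h1 := mul_pos p.δ_pos p.κ_pos
  refine ⟨lam * ((1 - δ * (1 + 3 * κ / 4) : ℝ) : ℂ), ?_⟩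
  simp only [Box, Rect, Set.mem_ofPred_eq, ← mul_assoc, h0, one_mul, Complex.ofReal_re,
    Complex.ofReal_im, abs_zero]
  exact ⟨by linarith, by linarith, by linarith [p.δ_pos, p.δ_le]⟩

open Classical in
theorem determ {M : ℕ} (hM : 29 ≤ M) {T : Finset ℂ} (hT : ∀ a ∈ T, ‖a‖ < 1) {θ A : ℝ}
    (hθ : 0 < θ) (hA : 0 ≤ A) (h1 : θ * Real.sqrt (1 - RR M ^ 2) ≤ ‖Bl T 0‖)
    (h2 : WW M T ≤ ENNReal.ofReal (A * (1 - RR M ^ 2)))
    (h3 : ∑ i ∈ idx M with ¬ GoodIx T (1 - RR M ^ 2) i, hf i.1.2 * qq i.1.1 ≤ A) :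
    Test T (Real.exp (-(3 * 10 ^ 7 + 2 * (A + 1))) * θ / Real.sqrt (A + 2)) := by
  set ε := 1 - RR M ^ 2 with hε
  have hε0 : 0 < ε := (one_sub_mul_pos (w := 0) (by simp) (RR_pos M).le (RR_lt M)).1
  have h4 : ∀ k : Ix, ∃ y x : ℂ, (k ∈ idx M → y ∈ Box (lm k) (hf k.1.2) (1 / nl k.1)
      (1 / qq k.1.1)) ∧ (GoodIx T ε k → Good T (lm k) (hf k.1.2) (1 / nl k.1) (1 / qq k.1.1)
      (1 / qq k.1.1 ^ 4) (Real.sqrt (ε / hf k.1.2) / qq k.1.1 ^ 2)
      (Real.sqrt (ε / hf k.1.2) * qq k.1.1) y x) := by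
    intro k
    by_cases hk : GoodIx T ε k
    · obtain ⟨y, x, h⟩ := hk
      exact ⟨y, x, fun _ => h.box, fun _ => h⟩
    by_cases hk' : k ∈ idx M
    · obtain ⟨y, h⟩ := (par_idx hk').box_nonempty (norm_lm k)
      exact ⟨y, 0, fun _ => h, fun h' => absurd h' hk⟩
    · exact ⟨0, 0, fun h' => absurd h' hk', fun h' => absurd h' hk⟩
  choose y x hy hx using h4
  obtain ⟨S, s1, s2, s3, s4⟩ := InBox.exists_sel (M := M) (y := y) hy
    (filter_subset (GoodIx T ε) _)
  have h : Sel M T ε y x S := ⟨hy, s1.trans (filter_subset _ _), hT, hε0,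
    fun k hk => hx k (mem_filter.mp (s1 hk)).2, s2, s3⟩
  rw [← filter_not] at s4
  obtain ⟨F, f1, f2, f3, f4⟩ := h.exists_fun1 hM
  have f5 := h.norm_le hM hε f1 f4
  have hs : 0 < Real.sqrt (A + 2) * Real.sqrt ε := by positivity
  refine ⟨fun w => ((Real.sqrt (A + 2) * Real.sqrt ε)⁻¹ : ℝ) * F w,
    fun w hw => (f1 w hw).const_mul _, fun t ht => ?_, ?_, ?_⟩
  · rw [Complex.re_ofReal_mul]; exact mul_nonneg (by positivity) (f2 t ht)
  · rw [Complex.re_ofReal_mul]
    refine (mul_le_mul_of_nonneg_left f3 (by positivity)).trans ?_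
    rw [mul_neg, neg_le_neg_iff]
    calc _ = (Real.sqrt (A + 2) * Real.sqrt ε)⁻¹ *
          (Real.exp (-(3 * 10 ^ 7 + 2 * (A + 1))) * (θ * Real.sqrt ε)) := by field_simp
      _ ≤ _ := by gcongr; linarith
  · have e : ∀ w, ENNReal.ofReal (‖(((Real.sqrt (A + 2) * Real.sqrt ε)⁻¹ : ℝ) : ℂ) * F w‖ ^ 2) =
        ENNReal.ofReal (((A + 2) * ε)⁻¹) * ENNReal.ofReal (‖F w‖ ^ 2) := by
      intro w
      rw [← ENNReal.ofReal_mul (by positivity), norm_mul, mul_pow, Complex.norm_real,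
        Real.norm_eq_abs, sq_abs, inv_pow, mul_pow, Real.sq_sqrt (by positivity),
        Real.sq_sqrt hε0.le]
    simp only [e]
    rw [lintegral_const_mul' _ _ ENNReal.ofReal_ne_top]
    refine (mul_le_mul_right (f5.trans (add_le_add h2 le_rfl)) _).trans (le_of_eq ?_)
    rw [← ENNReal.ofReal_ofNat 2, ← ENNReal.ofReal_mul (p := 2) (by norm_num),
      ← ENNReal.ofReal_add (by positivity) (by positivity), ← ENNReal.ofReal_mul (by positivity),
      ← add_mul, inv_mul_cancel₀ (by positivity), ENNReal.ofReal_one]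

variable {Ω : Type*} [MeasurableSpace Ω] {P : Measure Ω} [IsProbabilityMeasure P] {M : ℕ}
  {S : Ω → Finset ℂ}

omit [IsProbabilityMeasure P] in
theorem FinProc.measurable_WW (hP : FinProc P (RR M) S) : Measurable fun ω => WW M (S ω) :=
  Finset.measurable_fun_sum _ fun _ _ => (hP.measurable_lintegral_Bl 2 _).const_mul _

theorem FinProc.lintegral_WW (hP : FinProc P (RR M) S) :
    ∫⁻ ω, WW M (S ω) ∂P ≤ ENNReal.ofReal (1 - RR M ^ 2) := by
  set ε := 1 - RR M ^ 2 with hε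
  have hε0 : 0 < ε := (one_sub_mul_pos (w := 0) (by simp) (RR_pos M).le (RR_lt M)).1
  have h1 : ∀ m, ∫⁻ ω, ∫⁻ w, ENNReal.ofReal (‖Bl (S ω) w‖ ^ 2) ∂mr (RR m) ∂P ≤
      ENNReal.ofReal (3 * ε * (2 ^ 20 * qq m ^ 20)) := by
    intro m
    have h2 := lintegral_rho1_tt (w := 0) (by simp) (RR_pos m).le (RR_lt m)
    rw [hP.lintegral_swap]
    calc _ ≤ ∫⁻ w, ENNReal.ofReal (3 * ε) * ENNReal.ofReal (rho1 w * tt 0 w) ∂mr (RR m) := by
          refine lintegral_mono_ae ?_
          filter_upwards [ae_mr (RR m)] with w hw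
          have hw1 := hw.trans (RR_lt m)
          have h3 := hP.moment_pos hw1 1
          rw [← ENNReal.ofReal_mul (by positivity)]
          refine h3.trans (ENNReal.ofReal_le_ofReal ?_)
          have h4 := one_sub_sq_pos hw1
          have h5 : rho1 w * tt 0 w = (1 - ‖w‖ ^ 2)⁻¹ := by
            simp only [rho1, tt, den, map_zero, zero_mul, sub_zero, norm_one, norm_zero]
            field_simp
            norm_num
          have h6 : RR M ^ 2 ≤ 1 := by linarith
          rw [h5, Nat.cast_one, one_pow, pow_one, mul_assoc, ← div_eq_mul_inv]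
          have h7 : Real.exp 1 ≤ 3 := Real.exp_one_lt_d9.le.trans (by norm_num)
          have h8 : 1 - ‖w‖ ^ 2 ≤ 1 - ‖w‖ ^ 2 * RR M ^ 2 := by nlinarith [sq_nonneg ‖w‖]
          exact mul_le_mul h7 (div_le_div_of_nonneg_left hε0.le h4 h8)
            (div_nonneg hε0.le (h4.le.trans h8)) (by norm_num)
      _ ≤ _ := by
          rw [lintegral_const_mul' _ _ ENNReal.ofReal_ne_top, h2,
            ← ENNReal.ofReal_mul (by positivity)]
          refine ENNReal.ofReal_le_ofReal (mul_le_mul_of_nonneg_left ?_ (by positivity))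
          have h3 : hf (LL (m + 1)) ≤ 1 - RR m ^ 2 := by
            have : hf (LL (m + 1)) = 1 - RR m := by rw [RR]; ring
            nlinarith [RR_pos m, RR_lt m]
          have h4 := Real.log_le_log (hf_pos _) h3
          have h5 : (LL (m + 1) : ℝ) = 2 ^ 20 * qq m ^ 20 := by
            rw [LL_succ]; push_cast; rw [cast_LL]; norm_num
          rw [hf, Real.log_pow, one_div, Real.log_inv, h5] at h4
          have h6 : Real.log 2 ≤ 1 := by linarith [Real.log_two_lt_d9]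
          have h7 : 0 < 2 ^ 20 * qq m ^ 20 := by have := qq_pos m; positivity
          simp only [norm_zero, ne_eq, OfNat.ofNat_ne_zero, not_false_eq_true, zero_pow, zero_mul,
            sub_zero, Real.log_one]
          nlinarith
  simp only [WW]
  rw [lintegral_finsetSum _ fun m _ => (hP.measurable_lintegral_Bl 2 _).const_mul _]
  calc _ ≤ ∑ m ∈ Icc 29 M, ENNReal.ofReal (3 * 2 ^ 20 * ε * (1 / qq m)) := by
        refine sum_le_sum fun m _ => ?_
        have := qq_pos m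
        rw [lintegral_const_mul' _ _ ENNReal.ofReal_ne_top]
        refine (mul_le_mul_right (h1 m) _).trans ?_
        rw [← ENNReal.ofReal_mul (by positivity)]
        refine ENNReal.ofReal_le_ofReal ?_
        rw [show 1 / qq m ^ 24 * (3 * ε * (2 ^ 20 * qq m ^ 20)) =
          3 * 2 ^ 20 * ε * (1 / qq m ^ 4) by field_simp]
        gcongr
        exact le_self_pow₀ (one_le_qq _) (by norm_num)
    _ ≤ _ := by
        rw [← ENNReal.ofReal_sum_of_nonneg fun m _ => by have := qq_pos m; positivity, ← mul_sum]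
        refine ENNReal.ofReal_le_ofReal ?_
        have h2 := sum_inv_qq 29 M
        rw [show 2 / qq 29 = 1 / 2 ^ 28 by norm_num [qq]] at h2
        nlinarith

/-- The constant in the failure probability of a box. -/
noncomputable def CF : ℝ := 32 * 10 ^ 9 + 130 + 2 ^ 10 * Real.exp 121

theorem CF_pos : 0 < CF := by unfold CF; positivity

theorem FinProc.bad_ix (hP : FinProc P (RR M) S) {i : Ix} (hi : i ∈ idx M) :
    P {ω | ¬ GoodIx (S ω) (1 - RR M ^ 2) i} ≤ ENNReal.ofReal (CF / qq i.1.1 ^ 2) := by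
  have hl := (mem_idx.mp hi).1
  obtain ⟨⟨-, h1⟩, -, h2⟩ := mem_lev.mp hl
  have h3 := LL_gap (Nat.lt_add_one_of_le h1)
  have h4 := hf_anti (a := i.1.2 + 1 + 1) (b := LL (M + 1)) (by omega)
  rw [hf_succ, hf_succ] at h4
  have hq := qq_pos i.1.1
  have hδ := hf_pos i.1.2
  refine (hP.box_fail (par_idx hi) (norm_lm i) (by rw [RR]; linarith) hq).trans
    (ENNReal.ofReal_le_ofReal ?_)
  rw [inv_nl hl, CF, add_div, add_div]
  refine add_le_add (add_le_add ?_ le_rfl) (le_of_eq (by field_simp; norm_num))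
  rw [show 10 ^ 9 * hf i.1.2 / (1 / qq i.1.1 * (1 / qq i.1.1 ^ 4) ^ 4 *
    (hf i.1.2 * qq i.1.1 ^ 20 / 32)) = 32 * 10 ^ 9 / qq i.1.1 ^ 3 by field_simp]
  gcongr
  · exact one_le_qq _
  · norm_num

open Classical in
theorem FinProc.bad_mass (hP : FinProc P (RR M) S) {A : ℝ} (hA : 0 < A) :
    P {ω | A < ∑ i ∈ idx M with ¬ GoodIx (S ω) (1 - RR M ^ 2) i, hf i.1.2 * qq i.1.1} ≤
      ENNReal.ofReal (CF / A) := by
  let B : Ix → Set Ω := fun i => toMeasurable P {ω | ¬ GoodIx (S ω) (1 - RR M ^ 2) i}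
  have hm : ∀ i ∈ idx M, Measurable ((B i).indicator
      fun _ => ENNReal.ofReal (hf i.1.2 * qq i.1.1)) := fun i _ =>
    measurable_const.indicator (measurableSet_toMeasurable _ _)
  have h0 : ∀ i : Ix, 0 ≤ hf i.1.2 * qq i.1.1 := fun i => (mul_pos (hf_pos _) (qq_pos _)).le
  have h1 := meas_ge_le_lintegral_div (μ := P) (Finset.measurable_fun_sum _ hm).aemeasurable
    (ε := ENNReal.ofReal A) (by simpa using hA) ENNReal.ofReal_ne_top
  refine le_trans (measure_mono fun ω hω => ?_) (h1.trans ?_)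
  · refine (ENNReal.ofReal_le_ofReal (le_of_lt hω)).trans ?_
    rw [ENNReal.ofReal_sum_of_nonneg fun i _ => h0 i, sum_filter]
    refine sum_le_sum fun i _ => ?_
    split_ifs with h
    · exact zero_le
    · rw [Set.indicator_of_mem (subset_toMeasurable _ _ h)]
  · rw [ENNReal.ofReal_div_of_pos hA, lintegral_finsetSum _ hm]
    refine ENNReal.div_le_div_right ?_ _
    have hC := CF_pos
    calc _ ≤ ∑ i ∈ idx M, ENNReal.ofReal (CF * (hf i.1.2 * (1 / qq i.1.1))) := by
          refine sum_le_sum fun i hi => ?_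
          rw [lintegral_indicator_const (measurableSet_toMeasurable _ _), measure_toMeasurable]
          refine (mul_le_mul_right (hP.bad_ix hi) _).trans (le_of_eq ?_)
          have := qq_pos i.1.1
          rw [← ENNReal.ofReal_mul (h0 i)]
          congr 1; field_simp
      _ ≤ _ := by
          rw [← ENNReal.ofReal_sum_of_nonneg fun i _ => by
            have := hf_pos i.1.2; have := qq_pos i.1.1; positivity, ← mul_sum,
            sum_idx (F := fun m => 1 / qq m), ← mul_sum]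
          refine ENNReal.ofReal_le_ofReal ?_
          nlinarith [sum_inv_qq30 M]

theorem exists_const {θ : ℝ} (hθ : 0 < θ) : ∃ c, 0 < c ∧ ∀ M, 29 ≤ M → ∀ S : Ω → Finset ℂ,
    FinProc P (RR M) S → P {ω | ¬ Test (S ω) c} ≤ ENNReal.ofReal ((Real.exp 3 + 1) * θ) := by
  classical
  have hC := CF_pos
  set A := (1 + CF) / θ with hA
  have hA0 : 0 < A := by positivity
  refine ⟨Real.exp (-(3 * 10 ^ 7 + 2 * (A + 1))) * θ / Real.sqrt (A + 2), by positivity,
    fun M hM S hP => ?_⟩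
  have hε0 : 0 < 1 - RR M ^ 2 := (one_sub_mul_pos (w := 0) (by simp) (RR_pos M).le (RR_lt M)).1
  have h1 := hP.tail_zero hθ
  have h2 := meas_ge_le_lintegral_div (μ := P) hP.measurable_WW.aemeasurable
    (ε := ENNReal.ofReal (A * (1 - RR M ^ 2)))
    (by simp only [ne_eq, ENNReal.ofReal_eq_zero, not_le]; positivity) ENNReal.ofReal_ne_top
  have h3 := h2.trans (ENNReal.div_le_div_right hP.lintegral_WW _)
  rw [← ENNReal.ofReal_div_of_pos (by positivity)] at h3
  have h4 := hP.bad_mass hA0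
  refine le_trans (measure_mono ?_) (((measure_union_le _ _).trans
    (add_le_add ((measure_union_le _ _).trans (add_le_add h1 h3)) h4)).trans (le_of_eq ?_))
  · intro ω hω
    by_contra hn
    simp only [Set.mem_union, Set.mem_ofPred_eq, not_or, not_le, not_lt] at hn
    exact hω (determ hM (hP.sub1 ω) hθ hA0.le hn.1.1 hn.1.2.le hn.2)
  · rw [← ENNReal.ofReal_add (by positivity) (by positivity),
      ← ENNReal.ofReal_add (by positivity) (by positivity), hA]
    congr 1; field_simp; ring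

end Pool.Agent.MP_7cfdbb_an

end

-- part MP_7cfdbb_an.Glue
section

/-! The configuration moved by a disc automorphism and cut to a smaller disc. -/

namespace Pool.Agent.MP_7cfdbb_an

open Finset Metric MeasureTheory
open scoped ENNReal ComplexConjugate

theorem lintegral_pi_prod' {β : Type*} [MeasurableSpace β] (μ : Measure β) [SigmaFinite μ]
    (n : ℕ) : ∀ {G : Fin n → β → ℝ≥0∞}, (∀ i, Measurable (G i)) →
    ∫⁻ b : Fin n → β, ∏ i, G i (b i) ∂(Measure.pi fun _ => μ) = ∏ i, ∫⁻ u, G i u ∂μ := by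
  induction n with
  | zero => simp
  | succ n ih =>
    intro G hG
    have h := (measurePreserving_piFinSuccAbove (fun _ : Fin (n + 1) => μ) 0).symm
    rw [← h.lintegral_comp_emb (MeasurableEquiv.measurableEmbedding _)]
    simp only [MeasurableEquiv.piFinSuccAbove_symm_apply, Fin.insertNthEquiv, Fin.prod_univ_succ,
      Fin.insertNth_zero, Equiv.coe_fn_mk, Fin.cons_succ, Fin.cons_zero, cast_eq]
    have h2 : Measurable fun b : Fin n → β => ∏ i, G i.succ (b i) :=
      Finset.measurable_prod _ fun i _ => (hG _).comp (measurable_pi_apply i)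
    rw [lintegral_prod_mul (f := G 0) (g := fun b : Fin n → β => ∏ i, G i.succ (b i))
      (hG 0).aemeasurable h2.aemeasurable, ih fun i => hG _]

theorem measurable_phi (z : ℂ) : Measurable (phi z) :=
  measurable_phi2 measurable_const measurable_id

theorem measurable_phi_comp (z : ℂ) (n : ℕ) : Measurable fun a : Fin n → ℂ => phi z ∘ a :=
  measurable_pi_lambda _ fun i => (measurable_phi z).comp (measurable_pi_apply i)

theorem lintegral_pi_phi {z : ℂ} (hz : ‖z‖ < 1) {n : ℕ} {F : (Fin n → ℂ) → ℝ≥0∞}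
    (hF : Measurable F) :
    ∫⁻ a, (∏ i, ENNReal.ofReal (jac z (a i))) * F (phi z ∘ a) ∂(Measure.pi fun _ => mr 1) =
      ∫⁻ b, F b ∂(Measure.pi fun _ => mr 1) := by
  have hj : Measurable fun a : Fin n → ℂ => ∏ i, ENNReal.ofReal (jac z (a i)) :=
    Finset.measurable_prod _ fun i _ =>
      ((measurable_jac z).comp (measurable_pi_apply i)).ennreal_ofReal
  have h : (Measure.pi fun _ : Fin n => mr 1) = ((Measure.pi fun _ => mr 1).withDensity
      fun a => ∏ i, ENNReal.ofReal (jac z (a i))).map fun a => phi z ∘ a := by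
    refine Measure.pi_eq fun s hs => ?_
    have hm := MeasurableSet.univ_pi hs
    rw [Measure.map_apply (measurable_phi_comp z n) hm,
      withDensity_apply _ (measurable_phi_comp z n hm),
      ← lintegral_indicator (measurable_phi_comp z n hm)]
    have h1 := lintegral_pi_prod' (mr 1) n
      (G := fun i u => ENNReal.ofReal (jac z u) * (s i).indicator 1 (phi z u)) fun i =>
      (measurable_jac z).ennreal_ofReal.mul
        ((measurable_one.indicator (hs i)).comp (measurable_phi z))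
    simp only [lintegral_phi hz, lintegral_indicator_one (hs _)] at h1
    rw [← h1]
    refine lintegral_congr fun a => ?_
    by_cases ha : ∀ i, phi z (a i) ∈ s i
    · rw [Set.indicator_of_mem (by exact fun i _ => ha i)]
      simp [ha]
    · rw [Set.indicator_of_notMem (by exact fun h => ha fun i => h i trivial)]
      obtain ⟨i, hi⟩ := not_forall.mp ha
      exact (prod_eq_zero (mem_univ i) (by simp [hi])).symm
  conv_rhs => rw [h]
  rw [lintegral_map hF (measurable_phi_comp z n)]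
  exact (lintegral_withDensity_eq_lintegral_mul _ hj (hF.comp (measurable_phi_comp z n))).symm

theorem K_phi {z x y : ℂ} (hz : ‖z‖ < 1) (hx : ‖x‖ < 1) (hy : ‖y‖ < 1) :
    K x y = den z z / den z x ^ 2 * (conj (den z z / den z y ^ 2) * K (phi z x) (phi z y)) := by
  have h1 := den_ne hz hx.le
  have h2 : conj (den z y) ≠ 0 := (map_ne_zero _).mpr (den_ne hz hy.le)
  have h3 := den_ne hz hz.le
  have h4 : 1 - x * conj y ≠ 0 := by
    have := den_ne hy hx.le
    rwa [den, mul_comm] at this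
  have h5 : conj (den z z) = den z z := by simp [den, mul_comm]
  have h6 : 1 - phi z x * conj (phi z y) =
      den z z * (1 - x * conj y) / (den z x * conj (den z y)) := by
    rw [phi_eq, phi_eq, map_div₀]
    field_simp
    simp only [den, map_sub, map_mul, map_one, Complex.conj_conj]
    ring
  rw [K, K, h6, map_div₀, map_pow, h5]
  field_simp

theorem rho_phi {z : ℂ} (hz : ‖z‖ < 1) {n : ℕ} {a : Fin n → ℂ} (ha : ∀ i, ‖a i‖ < 1) :
    rho a = (∏ i, jac z (a i)) * rho (phi z ∘ a) := by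
  have h1 : (Matrix.of fun i j => K (a i) (a j)) = Matrix.of fun i j =>
      den z z / den z (a i) ^ 2 * Matrix.of (fun i j => conj (den z z / den z (a j) ^ 2) *
        Matrix.of (fun i j => K (phi z (a i)) (phi z (a j))) i j) i j := by
    ext i j
    exact K_phi hz (ha i) (ha j)
  rw [rho, h1, Matrix.det_mul_column, Matrix.det_mul_row, ← mul_assoc, ← prod_mul_distrib]
  simp only [Complex.mul_conj, Complex.normSq_eq_norm_sq, normSq_deriv]
  rw [← Complex.ofReal_prod, Complex.re_ofReal_mul]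
  rfl

/-- A radius containing the preimage of a disc. -/
noncomputable def rad (z : ℂ) (r : ℝ) : ℝ := 1 - (1 - ‖z‖ ^ 2) * (1 - r ^ 2) / 8

theorem rad_lt {z : ℂ} (hz : ‖z‖ < 1) {r : ℝ} (h0 : 0 ≤ r) (h1 : r < 1) : rad z r < 1 :=
  sub_lt_self _ (div_pos (mul_pos (one_sub_sq_pos hz) (by nlinarith)) (by norm_num))

theorem le_rad {z x : ℂ} (hz : ‖z‖ < 1) (hx : ‖x‖ < 1) {r : ℝ} (h : ‖phi z x‖ ≤ r) (h1 : r < 1) :
    ‖x‖ ≤ rad z r := by
  have hz' : ‖-z‖ < 1 := by rwa [norm_neg]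
  have h2 := norm_phi_le_one hz hx.le
  have h3 := norm_phi_sq hz' h2
  rw [phi_neg_phi hz hx.le, tt, norm_neg] at h3
  have h4 := norm_den_le_two hz'.le h2
  have h5 := norm_den_pos hz' h2
  have h6 := one_sub_sq_pos hz
  have h7 : ‖phi z x‖ ^ 2 ≤ r ^ 2 := by gcongr
  have h8 : 0 ≤ 1 - r ^ 2 := by nlinarith [norm_nonneg (phi z x)]
  have h9 : (1 - ‖z‖ ^ 2) * (1 - r ^ 2) / 2 ^ 2 ≤
      (1 - ‖z‖ ^ 2) * (1 - ‖phi z x‖ ^ 2) / ‖den (-z) (phi z x)‖ ^ 2 := by
    gcongr
    exact mul_nonneg h6.le (by linarith)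
  rw [rad]
  nlinarith [sq_nonneg (1 - ‖x‖)]

open Classical in
/-- The moved and cut configuration. -/
noncomputable def SS (z : ℂ) (r : ℝ) (X : Conf) : Finset ℂ :=
  if h : (phi z '' X.pts ∩ ball 0 r).Finite then h.toFinset else ∅

theorem Conf.lt (X : Conf) {x : ℂ} (hx : x ∈ X.pts) : ‖x‖ < 1 := mem_ball_zero_iff.mp (X.sub hx)

theorem mem_SS {z : ℂ} (hz : ‖z‖ < 1) {r : ℝ} (h0 : 0 ≤ r) (h1 : r < 1) {X : Conf} {u : ℂ} :
    u ∈ SS z r X ↔ (∃ x ∈ X.pts, phi z x = u) ∧ ‖u‖ < r := by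
  have h : (phi z '' X.pts ∩ ball 0 r).Finite := by
    refine ((X.locFin _ (rad_lt hz h0 h1)).image (phi z)).subset ?_
    rintro _ ⟨⟨x, hx, rfl⟩, h⟩
    exact ⟨x, ⟨hx, mem_closedBall_zero_iff.mpr
      (le_rad hz (X.lt hx) (mem_ball_zero_iff.mp h).le h1)⟩, rfl⟩
  rw [SS, dif_pos h]
  simp

theorem cnt_ncard {β : Type*} [MeasurableSpace β] [MeasurableSingletonClass β] (T : Finset β)
    (E : Set β) : cnt T E = ((↑T ∩ E : Set β).ncard : ℕ) := by
  classical
  rw [cnt_apply, show (↑T ∩ E : Set β) = ↑(T.filter (· ∈ E)) by ext; simp, Set.ncard_coe_finset,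
    card_filter]
  simp [Set.indicator_apply]

theorem IsDPP.finProc {P : Measure Conf} (hP : IsDPP P) {z : ℂ} (hz : ‖z‖ < 1) {r : ℝ}
    (h0 : 0 < r) (h1 : r < 1) : FinProc P r (SS z r) := by
  have hU : MeasurableSet {x : ℂ | ‖x‖ < 1 ∧ ‖phi z x‖ < r} :=
    (measurableSet_lt measurable_norm measurable_const).inter
      (measurableSet_lt (measurable_phi z).norm measurable_const)
  refine ⟨h0, h1, fun X u hu => ((mem_SS hz h0.le h1).mp hu).2, fun B hB => ?_, fun n E hE => ?_⟩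
  · have h2 : ∀ X : Conf, cnt (SS z r X) B =
        ((X.pts ∩ ({x | ‖x‖ < 1 ∧ ‖phi z x‖ < r} ∩ phi z ⁻¹' B)).ncard : ℕ) := by
      intro X
      rw [cnt_ncard, ← Set.InjOn.ncard_image (s := X.pts ∩ _)
        ((phi_injOn hz).mono fun x hx => X.sub hx.1)]
      congr 2
      ext u
      simp only [Set.mem_inter_iff, mem_coe, mem_SS hz h0.le h1, Set.mem_image, Set.mem_ofPred_eq,
        Set.mem_preimage]
      constructor
      · rintro ⟨⟨⟨x, hx, rfl⟩, h3⟩, h4⟩
        exact ⟨x, ⟨hx, ⟨X.lt hx, h3⟩, h4⟩, rfl⟩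
      · rintro ⟨x, ⟨hx, ⟨-, h3⟩, h4⟩, rfl⟩
        exact ⟨⟨⟨x, hx, rfl⟩, h3⟩, h4⟩
    simp only [h2]
    refine (measurable_from_top (f := fun k : ℕ => (k : ℝ≥0∞))).comp
      (measurable_to_countable' fun k => MeasurableSpace.measurableSet_generateFrom
        ⟨_, rad z r, k, hU.inter (measurable_phi z hB), rad_lt hz h0.le h1, fun x hx =>
          mem_closedBall_zero_iff.mpr (le_rad hz hx.1.1 hx.1.2.le h1), rfl⟩)
  · let E' : Set (Fin n → ℂ) :=
      Set.pi Set.univ (fun _ => {x | ‖x‖ < 1 ∧ ‖phi z x‖ < r}) ∩ (fun a => phi z ∘ a) ⁻¹' E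
    have hE' : MeasurableSet E' :=
      (MeasurableSet.univ_pi fun _ => hU).inter (measurable_phi_comp z n hE)
    have h2 : ∀ X : Conf, cnt (tup (Fin n) (SS z r X)) E =
        ({a ∈ E' | Function.Injective a ∧ ∀ i, a i ∈ X.pts}.ncard : ℕ) := by
      intro X
      rw [cnt_ncard, ← Set.InjOn.ncard_image (f := fun a => phi z ∘ a)
        (s := {a ∈ E' | Function.Injective a ∧ ∀ i, a i ∈ X.pts}) fun a ha b hb hab =>
        funext fun i => phi_injOn hz (X.sub (ha.2.2 i)) (X.sub (hb.2.2 i)) (congrFun hab i)]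
      congr 2
      ext b
      simp only [Set.mem_inter_iff, mem_coe, mem_tup, mem_SS hz h0.le h1, Set.mem_image,
        Set.mem_ofPred_eq]
      constructor
      · rintro ⟨⟨h3, h4⟩, h5⟩
        choose a ha hb using fun i => (h3 i).1
        obtain rfl : phi z ∘ a = b := funext hb
        exact ⟨a, ⟨⟨fun i _ => ⟨X.lt (ha i), (h3 i).2⟩, h5⟩, h4.of_comp, ha⟩, rfl⟩
      · rintro ⟨a, ⟨⟨h3, h4⟩, h5, h6⟩, rfl⟩
        exact ⟨⟨fun i => ⟨⟨a i, h6 i, rfl⟩, (h3 i trivial).2⟩, fun i j hij =>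
          h5 (phi_injOn hz (X.sub (h6 i)) (X.sub (h6 j)) hij)⟩, h4⟩
    simp only [h2]
    rw [hP.corr n E' (rad z r) hE' (rad_lt hz h0.le h1) fun a ha i =>
      le_rad hz (ha.1 i trivial).1 (ha.1 i trivial).2.le h1, dA_eq]
    have hb : MeasurableSet (Set.pi Set.univ fun _ : Fin n => ball (0 : ℂ) r) :=
      MeasurableSet.univ_pi fun _ => measurableSet_ball
    have h3 : (Measure.pi fun _ : Fin n => mr r) =
        (Measure.pi fun _ => mr 1).restrict (Set.pi Set.univ fun _ => ball 0 r) := by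
      rw [Measure.restrict_pi_pi]
      congr 1
      funext _
      rw [mr, mr, Measure.restrict_restrict measurableSet_ball,
        Set.inter_eq_left.mpr (ball_subset_ball h1.le)]
    rw [h3, Measure.restrict_restrict hE, ← lintegral_indicator (hE.inter hb),
      ← lintegral_pi_phi hz (measurable_rho.ennreal_ofReal.indicator (hE.inter hb)),
      ← lintegral_indicator hE']
    refine lintegral_congr_ae ?_
    filter_upwards [ae_pi_mr (ι := Fin n) 1] with a ha
    by_cases h4 : a ∈ E'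
    · rw [Set.indicator_of_mem h4, Set.indicator_of_mem (by
        exact ⟨h4.2, fun i _ => mem_ball_zero_iff.mpr (h4.1 i trivial).2⟩),
        ← ENNReal.ofReal_prod_of_nonneg fun i _ => jac_nonneg _ _,
        ← ENNReal.ofReal_mul (prod_nonneg fun i _ => jac_nonneg _ _), ← rho_phi hz ha]
      rfl
    · rw [Set.indicator_of_notMem h4, Set.indicator_of_notMem, mul_zero]
      exact fun h => h4 ⟨fun i _ => ⟨ha i, mem_ball_zero_iff.mp (h.2 i trivial)⟩, h.1⟩

end Pool.Agent.MP_7cfdbb_an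

end

-- part MP_7cfdbb_an.Main
section

/-! Positivity of the interpolation error. -/

namespace Pool.Agent.MP_7cfdbb_an

open Metric MeasureTheory
open scoped ENNReal

theorem gP_real (P : Measure Conf) {R : ℂ → ℝ} (hR : ∀ x, 0 ≤ R x) (z : ℂ) :
    ∃ p : ℝ, 0 ≤ p ∧ gP P R z = p := by
  have h : ∀ X : Conf, 0 ≤ (gX R X z fun _ => 1).re ∧ (gX R X z fun _ => 1).im = 0 := fun X =>
    finsum_mem_induction (fun a : ℂ => 0 ≤ a.re ∧ a.im = 0) (by simp)
      (fun a b ha hb => ⟨by rw [Complex.add_re]; linarith [ha.1, hb.1],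
        by rw [Complex.add_im, ha.2, hb.2, add_zero]⟩) fun x _ => by simp [hR]
  refine ⟨∫ X, (gX R X z fun _ => 1).re ∂P, integral_nonneg fun X => (h X).1, ?_⟩
  rw [gP, ← integral_complex_ofReal]
  congr 1
  funext X
  exact Complex.ext (by simp) (by simp [(h X).2])

theorem exists_RR {r : ℝ} (hr : r < 1) : ∃ N, ∀ M, N ≤ M → r < RR M := by
  obtain ⟨N, hN⟩ := exists_pow_lt_of_lt_one (x := 1 - r) (y := 1 / 2) (by linarith) (by norm_num)
  refine ⟨N, fun M hM => ?_⟩
  have h := hf_anti (a := N) (b := LL (M + 1)) (by have := lt_LL (M + 1); omega)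
  rw [hf, hf] at h
  rw [RR, hf]
  linarith

theorem Delta_pos (P : Measure Conf) {z : ℂ} (hz : ‖z‖ < 1) (X : Conf) {c : ℝ} (hc : 0 < c)
    (h : ∀ N, ∃ M, N ≤ M ∧ Test (SS z (RR M) X) c) : 0 < Delta P z X := by
  have hκ : 0 < (1 - ‖z‖ ^ 2) / 4 := by linarith [one_sub_sq_pos hz]
  set κ := (1 - ‖z‖ ^ 2) / 4 with hκ'
  refine lt_of_lt_of_le (ENNReal.ofReal_pos.mpr (mul_pos hκ hc)) (le_iInf₂ fun R hR => ?_)
  obtain ⟨r, hr, hr0⟩ := hR.cpt
  obtain ⟨N, hN⟩ := exists_RR hr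
  obtain ⟨M, hM, F, f1, f2, f3, f4⟩ := h N
  have hf : BergmanBall fun w => (κ : ℂ) * F (phi z w) := by
    refine ⟨fun w hw => ?_, ?_⟩
    · have hw1 := (mem_ball_zero_iff.mp hw).le
      exact (((f1 _ (norm_phi_le_one hz hw1)).comp w (differentiableAt_phi hz hw1)).const_mul
        _).differentiableWithinAt
    · rw [dA_eq]
      refine le_trans (lintegral_mono_ae ?_)
        ((lintegral_phi hz fun v => ENNReal.ofReal (‖F v‖ ^ 2)).le.trans f4)
      filter_upwards [ae_mr 1] with w hw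
      rw [← ofReal_norm, ← ENNReal.ofReal_pow (norm_nonneg _),
        ← ENNReal.ofReal_mul (jac_nonneg _ _), norm_mul, mul_pow, Complex.norm_real,
        Real.norm_eq_abs, sq_abs]
      refine ENNReal.ofReal_le_ofReal (mul_le_mul_of_nonneg_right ?_ (by positivity))
      have h1 := norm_den_le_two hz.le hw.le
      have h2 := norm_den_pos hz hw.le
      rw [jac, hκ', div_pow, show (4 : ℝ) ^ 2 = 2 ^ 4 by norm_num]
      gcongr
  refine le_iSup₂_of_le _ hf ?_
  obtain ⟨p, hp, hp1⟩ := gP_real P hR.nonneg z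
  have h1 : 0 ≤ (gX R X z fun w => (κ : ℂ) * F (phi z w)).re :=
    finsum_mem_induction (fun a : ℂ => 0 ≤ a.re) le_rfl
      (fun a b ha hb => by rw [Complex.add_re]; linarith) fun x hx => by
        by_cases h2 : ‖phi z x‖ < RR M
        · rw [Complex.re_mul_ofReal, Complex.re_ofReal_mul]
          exact mul_nonneg (mul_nonneg hκ.le
            (f2 _ ((mem_SS hz (RR_pos M).le (RR_lt M)).mpr ⟨⟨x, hx, rfl⟩, h2⟩))) (hR.nonneg _)
        · rw [hr0 _ ((hN M hM).trans_le (not_lt.mp h2))]; simp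
  beta_reduce
  rw [← ofReal_norm, hp1, phi_self]
  refine ENNReal.ofReal_le_ofReal (le_trans ?_ ((neg_le_abs _).trans (Complex.abs_re_le_norm _)))
  rw [Complex.sub_re, Complex.div_ofReal_re, Complex.re_ofReal_mul]
  nlinarith [div_nonneg h1 hp]

theorem main (P : Measure Conf) (hP : IsDPP P) (z : ℂ) (hz : ‖z‖ < 1) :
    ∀ᵐ X ∂P, 0 < Delta P z X := by
  have := hP.prob
  rw [ae_iff]
  refine le_antisymm (ENNReal.le_of_forall_pos_le_add fun e he _ => ?_) zero_le
  have hC : 0 < Real.exp 3 + 1 := by positivity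
  obtain ⟨c, hc, h⟩ := exists_const (P := P) (θ := e / (Real.exp 3 + 1)) (by positivity)
  rw [mul_div_cancel₀ _ hC.ne', ENNReal.ofReal_coe_nnreal] at h
  have h1 : {X | ¬ 0 < Delta P z X} ⊆ ⋃ N, {X | ∀ M, N ≤ M → ¬ Test (SS z (RR M) X) c} := by
    intro X hX
    by_contra hn
    simp only [Set.mem_iUnion, Set.mem_ofPred_eq, not_exists, not_forall, not_not] at hn
    exact hX (Delta_pos P hz X hc fun N => by
      obtain ⟨M, h1, h2⟩ := hn N
      exact ⟨M, h1, h2⟩)
  refine (measure_mono h1).trans ?_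
  rw [Monotone.measure_iUnion (s := fun N => {X | ∀ M, N ≤ M → ¬ Test (SS z (RR M) X) c})
    fun a b hab X hX M hM => hX M (hab.trans hM), zero_add]
  refine iSup_le fun N => le_trans (measure_mono fun X hX => ?_)
    (h (max N 29) (le_max_right _ _) _ (hP.finProc hz (RR_pos _) (RR_lt _)))
  exact hX _ (le_max_left _ _)

end Pool.Agent.MP_7cfdbb_an

end
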